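import Pool.Agent.U69.FE.Stm
set_option autoImplicit false
open Polynomial
namespace Pool.Agent.U69.FE

namespace CONTRAux

variable {p : ℕ}

theorem dv_mono {m n : ℤ} {x : LaurentSeries (ZMod p)} (h : m ≤ n) (hx : Dv n x) : Dv m x :=
  fun k hk => hx k (hk.trans_le h)

theorem dv_add {n : ℤ} {x y : LaurentSeries (ZMod p)} (hx : Dv n x) (hy : Dv n y) :
    Dv n (x + y) := fun k hk => by rw [HahnSeries.coeff_add, hx k hk, hy k hk, add_zero]

theorem dv_sub {n : ℤ} {x y : LaurentSeries (ZMod p)} (hx : Dv n x) (hy : Dv n y) :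
    Dv n (x - y) := fun k hk => by rw [HahnSeries.coeff_sub, hx k hk, hy k hk, sub_zero]

theorem dv_zero (n : ℤ) : Dv n (0 : LaurentSeries (ZMod p)) := fun _ _ => rfl

end CONTRAux

open CONTRAux in
theorem CONTR_ok : S_CONTR := by
  intro p _ M Φ h1 h2
  let w : ℕ → LaurentSeries (ZMod p) := fun n => Nat.rec 0 (fun _ x => Φ x) n
  have w0 : w 0 = 0 := rfl
  have ws : ∀ n, w (n + 1) = Φ (w n) := fun n => rfl
  have hM : ∀ n, Dv M (w n) := by
    intro n
    induction n with
    | zero => rw [w0]; exact dv_zero M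
    | succ n ih => rw [ws]; exact h1 _ ih
  have hstep : ∀ n : ℕ, Dv (M + n) (w (n + 1) - w n) := by
    intro n
    induction n with
    | zero => simpa using dv_sub (hM 1) (hM 0)
    | succ n ih =>
      have h : Dv (M + n + 1) (w (n + 1 + 1) - w (n + 1)) := h2 _ _ _ (hM (n + 1)) (hM n) ih
      push_cast
      rw [← add_assoc]
      exact h
  have hle : ∀ n d : ℕ, Dv (M + n) (w (n + d) - w n) := by
    intro n d
    induction d with
    | zero => rw [add_zero, sub_self]; exact dv_zero _
    | succ d ih =>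
      have h3 : w (n + (d + 1)) - w n = (w (n + d + 1) - w (n + d)) + (w (n + d) - w n) := by
        rw [← add_assoc]; ring
      rw [h3]
      exact dv_add (dv_mono (by push_cast; omega) (hstep (n + d))) ih
  let f : ℤ → ZMod p := fun k => (w (k - M + 1).toNat).coeff k
  have hf : BddBelow (Function.support f) := by
    refine ⟨M, fun k hk => ?_⟩
    by_contra hkM
    exact hk (hM _ k (not_le.1 hkM))
  let W : LaurentSeries (ZMod p) := HahnSeries.ofSuppBddBelow f hf
  have hW : ∀ k, W.coeff k = f k := fun k => rfl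
  have hWn : ∀ n : ℕ, Dv (M + n) (W - w n) := by
    intro n k hk
    rw [HahnSeries.coeff_sub, hW]
    by_cases hkM : k < M
    · rw [show f k = 0 from hM _ k hkM, hM n k hkM, sub_zero]
    · have h4 : ((k - M + 1).toNat : ℤ) = k - M + 1 := Int.toNat_of_nonneg (by omega)
      obtain ⟨d, hd⟩ := Nat.exists_eq_add_of_le (show (k - M + 1).toNat ≤ n by omega)
      have h5 := hle (k - M + 1).toNat d k (by omega)
      rw [← hd, HahnSeries.coeff_sub] at h5
      rw [← neg_eq_zero, neg_sub]
      exact h5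
  have hWM : Dv M W := by
    have h6 := dv_add (dv_mono (by omega) (hWn 0)) (hM 0)
    simpa using h6
  refine ⟨W, hWM, ?_⟩
  ext k
  have h7 : Dv (M + ((k - M).toNat : ℤ) + 1) (Φ W - w ((k - M).toNat + 1)) :=
    h2 _ _ _ hWM (hM (k - M).toNat) (hWn (k - M).toNat)
  have h8 := hWn ((k - M).toNat + 1)
  have h9 : k - M ≤ ((k - M).toNat : ℤ) := Int.self_le_toNat _
  have e1 := h7 k (by omega)
  have e2 := h8 k (by push_cast; omega)
  rw [HahnSeries.coeff_sub, sub_eq_zero] at e1 e2
  rw [e1, e2]

end Pool.Agent.U69.FE
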