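import Pool.Agent.U69.FE.Stm

set_option autoImplicit false

open Polynomial

namespace Pool.Agent.U69.FE

namespace FIXAux

open Finset

section

variable {p : ℕ} [hp : Fact p.Prime]

/-- a bound for the support -/
theorem exists_bd (y : LaurentSeries (ZMod p)) : ∃ B : ℕ, ∀ n : ℤ, n < -(B : ℤ) → y.coeff n = 0 :=
  ⟨(-y.order).toNat, fun n hn => HahnSeries.coeff_eq_zero_of_lt_order (by omega)⟩

/-- the coefficients of the `p`-th power (after `Pool.Agent.Y15.UF.coeff_pow`) -/
theorem coeff_pow (w : LaurentSeries (ZMod p)) (n : ℤ) :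
    (w ^ p).coeff n = if (p : ℤ) ∣ n then w.coeff (n / p) else 0 := by
  classical
  have : CharP (LaurentSeries (ZMod p)) p :=
    charP_of_injective_ringHom (f := (HahnSeries.C : ZMod p →+* HahnSeries ℤ (ZMod p)))
      HahnSeries.C_injective p
  have hp0 : 0 < p := hp.out.pos
  have hp1 : (0 : ℤ) < p := by exact_mod_cast hp0
  obtain ⟨M, hM1, hM2⟩ : ∃ M : ℤ, n < p * M ∧ n / p < M := by
    refine ⟨max (n + 1) (n / p + 1) ⊔ 1, ?_, ?_⟩
    · have h1 : n + 1 ≤ max (n + 1) (n / p + 1) ⊔ 1 :=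
        (le_max_left _ _).trans (le_max_left _ _)
      have h2 : (1 : ℤ) ≤ max (n + 1) (n / p + 1) ⊔ 1 := le_max_right _ _
      have h3 : (1 : ℤ) ≤ p := by omega
      nlinarith
    · have h1 : n / p + 1 ≤ max (n + 1) (n / p + 1) ⊔ 1 :=
        (le_max_right _ _).trans (le_max_left _ _)
      omega
  obtain ⟨w1, hw1⟩ : ∃ w1 : LaurentSeries (ZMod p),
      w1 = ∑ m ∈ Finset.Ico w.order M, HahnSeries.single m (w.coeff m) := ⟨_, rfl⟩
  have hc1 : ∀ m, w1.coeff m = if m ∈ Finset.Ico w.order M then w.coeff m else 0 := by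
    intro m
    rw [hw1, HahnSeries.coeff_sum]
    simp only [HahnSeries.coeff_single]
    by_cases hm : m ∈ Finset.Ico w.order M
    · rw [if_pos hm, Finset.sum_eq_single m]
      · rw [if_pos rfl]
      · intro m' _ hne
        rw [if_neg fun h8 => hne h8.symm]
      · intro h8
        exact absurd hm h8
    · rw [if_neg hm]
      refine Finset.sum_eq_zero fun m' hm' => ?_
      rw [if_neg]
      rintro rfl
      exact hm hm'
  have h2 : ∀ m, m < M → (w - w1).coeff m = 0 := by
    intro m hm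
    rw [HahnSeries.coeff_sub, hc1]
    by_cases h3 : m < w.order
    · rw [HahnSeries.coeff_eq_zero_of_lt_order h3, ite_self, sub_self]
    · rw [if_pos (Finset.mem_Ico.2 ⟨not_lt.1 h3, hm⟩), sub_self]
  have h3 : ((w - w1) ^ p).coeff n = 0 := by
    by_cases h4 : w - w1 = 0
    · rw [h4, zero_pow hp0.ne', HahnSeries.coeff_zero]
    · apply HahnSeries.coeff_eq_zero_of_lt_order
      rw [HahnSeries.order_pow]
      have h5 : M ≤ (w - w1).order := by
        by_contra h6
        have h7 := h2 _ (not_le.1 h6)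
        exact h4 (HahnSeries.coeff_order_eq_zero.1 h7)
      have h8 : p • (w - w1).order = (p : ℤ) * (w - w1).order := by simp
      rw [h8]
      calc n < p * M := hM1
        _ ≤ _ := mul_le_mul_of_nonneg_left h5 hp1.le
  have h4 : w ^ p = w1 ^ p + (w - w1) ^ p := by
    rw [← add_pow_char]
    congr 1
    ring
  have h5 : w1 ^ p = ∑ m ∈ Finset.Ico w.order M, HahnSeries.single ((p : ℤ) * m) (w.coeff m) := by
    rw [hw1, sum_pow_char]
    refine Finset.sum_congr rfl fun m _ => ?_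
    rw [HahnSeries.single_pow, ZMod.pow_card]
    rfl
  rw [h4, HahnSeries.coeff_add, h3, add_zero, h5, HahnSeries.coeff_sum]
  simp only [HahnSeries.coeff_single]
  by_cases h6 : (p : ℤ) ∣ n
  · rw [if_pos h6]
    obtain ⟨m, rfl⟩ := h6
    rw [Int.mul_ediv_cancel_left _ hp1.ne'] at hM2 ⊢
    by_cases h7 : m < w.order
    · rw [HahnSeries.coeff_eq_zero_of_lt_order h7]
      refine Finset.sum_eq_zero fun m' hm' => ?_
      rw [if_neg]
      intro h8
      have h9 : m = m' := mul_left_cancel₀ hp1.ne' h8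
      have := (Finset.mem_Ico.1 hm').1
      omega
    · rw [Finset.sum_eq_single m]
      · rw [if_pos rfl]
      · intro m' _ hne
        rw [if_neg fun h8 => hne (mul_left_cancel₀ hp1.ne' h8).symm]
      · intro h8
        exact absurd (Finset.mem_Ico.2 ⟨not_lt.1 h7, hM2⟩) h8
  · rw [if_neg h6]
    refine Finset.sum_eq_zero fun m _ => ?_
    rw [if_neg]
    rintro rfl
    exact h6 (Dvd.intro _ rfl)

/-- a series with support in `p ℤ` is a `p`-th power -/
theorem exists_root (y : LaurentSeries (ZMod p)) (hy : ∀ n : ℤ, ¬ (p : ℤ) ∣ n → y.coeff n = 0) :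
    ∃ s, y = s ^ p := by
  have hp1 : (0 : ℤ) < p := by exact_mod_cast hp.out.pos
  obtain ⟨B, hB⟩ := exists_bd y
  obtain ⟨w, hw⟩ : ∃ w : LaurentSeries (ZMod p), ∀ m, w.coeff m = y.coeff (p * m) := by
    refine ⟨HahnSeries.ofSuppBddBelow (fun m => y.coeff (p * m)) ⟨-(B : ℤ), ?_⟩, fun m => rfl⟩
    intro m hm
    by_contra h1
    apply hm
    refine hB _ ?_
    push Not at h1
    have h2 : (p : ℤ) * m ≤ 1 * m := mul_le_mul_of_nonpos_right (by omega) (by omega)
    omega
  refine ⟨w, ?_⟩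
  ext n
  rw [coeff_pow]
  by_cases h : (p : ℤ) ∣ n
  · rw [if_pos h, hw, Int.mul_ediv_cancel' h]
  · rw [if_neg h, hy n h]

theorem Dv_mono {m n : ℤ} {x : LaurentSeries (ZMod p)} (h : m ≤ n) (hx : Dv n x) : Dv m x :=
  fun k hk => hx k (lt_of_lt_of_le hk h)

theorem Dv_zero (n : ℤ) : Dv n (0 : LaurentSeries (ZMod p)) := fun _ _ => HahnSeries.coeff_zero

theorem Dv_add {n : ℤ} {x y : LaurentSeries (ZMod p)} (hx : Dv n x) (hy : Dv n y) :
    Dv n (x + y) := fun k hk => by
  rw [HahnSeries.coeff_add, hx k hk, hy k hk, add_zero]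

theorem Dv_sub {n : ℤ} {x y : LaurentSeries (ZMod p)} (hx : Dv n x) (hy : Dv n y) :
    Dv n (x - y) := fun k hk => by
  rw [HahnSeries.coeff_sub, hx k hk, hy k hk, sub_zero]

theorem Dv_iff {n : ℤ} {x : LaurentSeries (ZMod p)} (h0 : x ≠ 0) : Dv n x ↔ n ≤ x.order := by
  constructor
  · intro h
    by_contra h1
    exact h0 (HahnSeries.coeff_order_eq_zero.1 (h _ (not_le.1 h1)))
  · intro h k hk
    exact HahnSeries.coeff_eq_zero_of_lt_order (lt_of_lt_of_le hk h)

theorem Dv_mul {m n : ℤ} {x y : LaurentSeries (ZMod p)} (hx : Dv m x) (hy : Dv n y) :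
    Dv (m + n) (x * y) := by
  by_cases h0 : x = 0
  · rw [h0, zero_mul]
    exact Dv_zero _
  by_cases h1 : y = 0
  · rw [h1, mul_zero]
    exact Dv_zero _
  rw [Dv_iff h0] at hx
  rw [Dv_iff h1] at hy
  rw [Dv_iff (mul_ne_zero h0 h1), HahnSeries.order_mul h0 h1]
  exact add_le_add hx hy

theorem Dv_map {σ : LaurentSeries (ZMod p) →+* LaurentSeries (ZMod p)} {e : ℕ}
    (hσ : ∀ x, x ≠ 0 → (σ x).order = e * x.order) {n : ℤ} {x : LaurentSeries (ZMod p)}
    (hx : Dv n x) : Dv (e * n) (σ x) := by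
  by_cases h0 : x = 0
  · rw [h0, map_zero]
    exact Dv_zero _
  have h1 : σ x ≠ 0 := by
    rw [Ne, map_eq_zero]
    exact h0
  rw [Dv_iff h0] at hx
  rw [Dv_iff h1, hσ x h0]
  exact mul_le_mul_of_nonneg_left hx (Nat.cast_nonneg e)

/-- the coefficients of `Q t` -/
theorem coeff_aeval (Q : (ZMod p)[X]) (k : ℤ) :
    (aeval (tt p) Q).coeff k = if 0 ≤ k then Q.coeff k.toNat else 0 := by
  have h1 : ∀ n : ℕ, (tt p) ^ n = HahnSeries.single (n : ℤ) (1 : ZMod p) := by
    intro n
    unfold tt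
    rw [HahnSeries.single_pow, one_pow]
    congr 1
    simp
  have h0 : ∀ a : ZMod p, algebraMap (ZMod p) (LaurentSeries (ZMod p)) a = HahnSeries.C a :=
    fun a => RingHom.congr_fun (RingHom.ext_zmod _ _) a
  rw [Polynomial.aeval_eq_sum_range, HahnSeries.coeff_sum]
  simp only [Algebra.smul_def, h0, h1]
  have h2 : ∀ i ∈ range (Q.natDegree + 1),
      (HahnSeries.C (Q.coeff i) * HahnSeries.single (i : ℤ) (1 : ZMod p)).coeff k =
      if k = (i : ℤ) then Q.coeff i else 0 := by
    intro i _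
    rw [HahnSeries.C_mul_eq_smul, HahnSeries.coeff_smul, HahnSeries.coeff_single]
    split_ifs
    · rw [smul_eq_mul, mul_one]
    · rw [smul_zero]
  rw [Finset.sum_congr rfl h2]
  by_cases hk : 0 ≤ k
  · rw [if_pos hk]
    obtain ⟨m, rfl⟩ := Int.eq_ofNat_of_zero_le hk
    rw [Int.toNat_natCast]
    by_cases hm : m ∈ range (Q.natDegree + 1)
    · rw [Finset.sum_eq_single m]
      · rw [if_pos rfl]
      · intro i _ hne
        rw [if_neg]
        intro h
        exact hne (by exact_mod_cast h.symm)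
      · intro h
        exact absurd hm h
    · rw [Finset.sum_eq_zero, Polynomial.coeff_eq_zero_of_natDegree_lt]
      · rw [mem_range] at hm
        omega
      · intro i hi
        rw [if_neg]
        intro h
        apply hm
        have : m = i := by exact_mod_cast h
        rw [this]
        exact hi
  · rw [if_neg hk]
    refine Finset.sum_eq_zero fun i _ => ?_
    rw [if_neg]
    intro h
    omega

/-- the truncation of a series as a polynomial -/
noncomputable def trunc (y : LaurentSeries (ZMod p)) (N : ℕ) : (ZMod p)[X] :=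
  ∑ n ∈ range N, Polynomial.monomial n (y.coeff n)

theorem coeff_trunc (y : LaurentSeries (ZMod p)) (N n : ℕ) :
    (trunc y N).coeff n = if n < N then y.coeff n else 0 := by
  unfold trunc
  rw [Polynomial.finsetSum_coeff]
  simp only [Polynomial.coeff_monomial]
  by_cases h : n < N
  · rw [if_pos h, Finset.sum_eq_single n]
    · rw [if_pos rfl]
    · intro m _ hne
      rw [if_neg hne]
    · intro h1
      exact absurd (mem_range.2 h) h1
  · rw [if_neg h]
    refine Finset.sum_eq_zero fun m hm => ?_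
    rw [if_neg]
    rintro rfl
    exact h (mem_range.1 hm)

end

end FIXAux

open FIXAux in
theorem FIX_ok (hC : S_CONTR) (hT : S_TAY) : S_FIX := by
  intro p _ σ e he hσ hroot
  have ht0 : tt p ≠ 0 := by
    unfold tt
    rw [Ne, HahnSeries.single_eq_zero_iff]
    exact one_ne_zero
  have ht1 : (tt p).order = 1 := by
    unfold tt
    exact HahnSeries.order_single one_ne_zero
  obtain ⟨τ, hτ⟩ : ∃ τ, τ = σ (tt p) := ⟨_, rfl⟩
  have hτe : ∀ k : ℤ, k < e → τ.coeff k = 0 := by
    intro k hk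
    apply HahnSeries.coeff_eq_zero_of_lt_order
    rw [hτ, hσ _ ht0, ht1, mul_one]
    exact hk
  -- the smallest exponent prime to `p`
  have hex : ∃ d : ℕ, τ.coeff d ≠ 0 ∧ ¬ p ∣ d := by
    by_contra hcon
    push Not at hcon
    apply hroot
    rw [← hτ]
    apply exists_root
    intro n hn
    by_contra h1
    have hn0 : (e : ℤ) ≤ n := by
      by_contra h2
      exact h1 (hτe n (not_le.1 h2))
    obtain ⟨m, rfl⟩ := Int.eq_ofNat_of_zero_le (by omega : (0 : ℤ) ≤ n)
    exact hn (by exact_mod_cast hcon m h1)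
  classical
  obtain ⟨d, hd1, hd2⟩ : ∃ d : ℕ, (τ.coeff d ≠ 0 ∧ ¬ p ∣ d) ∧
      ∀ m < d, ¬ (τ.coeff m ≠ 0 ∧ ¬ p ∣ m) :=
    ⟨Nat.find hex, Nat.find_spec hex, fun m hm => Nat.find_min hex hm⟩
  have hde : e ≤ d := by
    by_contra h1
    exact hd1.1 (hτe d (by omega))
  obtain ⟨P, hP⟩ : ∃ P, P = trunc τ (2 * d) := ⟨_, rfl⟩
  have hPc : ∀ n, P.coeff n = if n < 2 * d then τ.coeff n else 0 := by
    intro n
    rw [hP, coeff_trunc]
  have hddne : ((d : ℕ) : ZMod p) ≠ 0 := by
    rw [Ne, ZMod.natCast_eq_zero_iff]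
    exact hd1.2
  have hder : P.derivative.coeff (d - 1) ≠ 0 := by
    rw [Polynomial.coeff_derivative]
    have h1 : d - 1 + 1 = d := by omega
    have h2 : ((d - 1 : ℕ) : ZMod p) + 1 = (d : ZMod p) := by
      rw [← Nat.cast_succ, Nat.succ_eq_add_one, h1]
    rw [h1, h2, hPc, if_pos (by omega)]
    exact mul_ne_zero hd1.1 hddne
  obtain ⟨D, hD⟩ : ∃ D, D = aeval (tt p) P.derivative := ⟨_, rfl⟩
  have hD1 : D.coeff ((d : ℤ) - 1) ≠ 0 := by
    rw [hD, coeff_aeval, if_pos (by omega)]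
    have h1 : ((d : ℤ) - 1).toNat = d - 1 := by omega
    rw [h1]
    exact hder
  have hD2 : Dv ((d : ℤ) - 1) D := by
    intro k hk
    rw [hD, coeff_aeval]
    by_cases h0 : 0 ≤ k
    · rw [if_pos h0]
      obtain ⟨m, rfl⟩ := Int.eq_ofNat_of_zero_le h0
      rw [Int.toNat_natCast, Polynomial.coeff_derivative, hPc, if_pos (by omega)]
      have h1 : m + 1 < d := by omega
      have h2 := hd2 (m + 1) h1
      by_cases h3 : τ.coeff ((m + 1 : ℕ) : ℤ) = 0
      · rw [h3, zero_mul]
      · have h4 : p ∣ m + 1 := by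
          by_contra h5
          exact h2 ⟨h3, h5⟩
        have h5 : ((m : ℕ) : ZMod p) + 1 = 0 := by
          have h6 := (ZMod.natCast_eq_zero_iff (m + 1) p).2 h4
          push_cast at h6
          exact h6
        rw [h5, mul_zero]
    · rw [if_neg h0]
  have hD0 : D ≠ 0 := by
    intro h
    rw [h] at hD1
    exact hD1 HahnSeries.coeff_zero
  have hDo : D.order = (d : ℤ) - 1 := by
    apply le_antisymm
    · exact HahnSeries.order_le_of_coeff_ne_zero hD1
    · exact (Dv_iff hD0).1 hD2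
  have hDi : Dv (1 - (d : ℤ)) D⁻¹ := by
    rw [Dv_iff (inv_ne_zero hD0)]
    have h1 := HahnSeries.order_mul hD0 (inv_ne_zero hD0)
    rw [mul_inv_cancel₀ hD0, HahnSeries.order_one, hDo] at h1
    omega
  have hDvt : Dv 1 (tt p) := (Dv_iff ht0).2 (by rw [ht1])
  have hDvt0 : Dv 0 (tt p) := Dv_mono (by norm_num) hDvt
  -- `τ - P t`
  have hA : Dv (2 * (d : ℤ)) (τ - aeval (tt p) P) := by
    intro k hk
    rw [HahnSeries.coeff_sub, coeff_aeval]
    by_cases h0 : 0 ≤ k
    · rw [if_pos h0]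
      obtain ⟨m, rfl⟩ := Int.eq_ofNat_of_zero_le h0
      rw [Int.toNat_natCast, hPc, if_pos (by omega), sub_self]
    · rw [if_neg h0, hτe k (by omega), sub_zero]
  obtain ⟨Φ, hΦ⟩ : ∃ Φ : LaurentSeries (ZMod p) → LaurentSeries (ZMod p), ∀ w, Φ w =
      D⁻¹ * (τ - aeval (tt p) P + σ w - (aeval (tt p + w) P - aeval (tt p) P - D * w)) :=
    ⟨_, fun w => rfl⟩
  have he2 : (2 : ℤ) ≤ e := by exact_mod_cast he
  obtain ⟨w, hw1, hw2⟩ := hC p (d : ℤ) Φ (by
    intro w hw
    rw [hΦ]
    have h1 : Dv ((1 - (d : ℤ)) + 2 * d) (D⁻¹ * (τ - aeval (tt p) P + σ w -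
        (aeval (tt p + w) P - aeval (tt p) P - D * w))) := by
      refine Dv_mul hDi (Dv_sub (Dv_add hA ?_) ?_)
      · refine Dv_mono ?_ (Dv_map hσ hw)
        exact mul_le_mul_of_nonneg_right he2 (Nat.cast_nonneg d)
      · have h2 := hT p P (d : ℤ) (d : ℤ) (tt p) w 0 (Nat.cast_nonneg d) hDvt0 hw (Dv_zero _)
          (by rw [sub_zero]; exact hw)
        rw [add_zero, sub_zero, ← hD] at h2
        exact Dv_mono (by omega) h2
    exact Dv_mono (by omega) h1) (by
    intro w w' n hw hw' hn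
    have h1 : Φ w - Φ w' = D⁻¹ * (σ (w - w') -
        (aeval (tt p + w) P - aeval (tt p + w') P - D * (w - w'))) := by
      rw [hΦ, hΦ, map_sub]
      ring
    rw [h1]
    have h2 : Dv ((1 - (d : ℤ)) + (n + d)) (D⁻¹ * (σ (w - w') -
        (aeval (tt p + w) P - aeval (tt p + w') P - D * (w - w')))) := by
      refine Dv_mul hDi (Dv_sub ?_ ?_)
      · have h3 : Dv (d : ℤ) (w - w') := Dv_sub hw hw'
        by_cases h0 : w - w' = 0
        · rw [h0, map_zero]
          exact Dv_zero _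
        · have h4 : σ (w - w') ≠ 0 := by
            rw [Ne, map_eq_zero]
            exact h0
          rw [Dv_iff h0] at h3 hn
          rw [Dv_iff h4, hσ _ h0]
          have h5 : (0 : ℤ) ≤ (w - w').order := by omega
          have h6 := mul_le_mul_of_nonneg_right he2 h5
          omega
      · have h3 := hT p P (d : ℤ) n (tt p) w w' (Nat.cast_nonneg d) hDvt0 hw hw' hn
        rw [← hD] at h3
        exact h3
    exact Dv_mono (by omega) h2)
  have hfix : σ (tt p + w) = aeval (tt p + w) P := by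
    rw [hΦ, inv_mul_eq_iff_eq_mul₀ hD0] at hw2
    rw [map_add, ← hτ]
    linear_combination hw2
  refine ⟨tt p + w, P, ?_, Dv_add hDvt (Dv_mono (by omega) hw1), ?_, hfix⟩
  · intro h
    have h1 : (tt p + w).coeff 1 = 0 := by rw [h, HahnSeries.coeff_zero]
    rw [HahnSeries.coeff_add, hw1 1 (by omega), add_zero] at h1
    unfold tt at h1
    rw [HahnSeries.coeff_single_same] at h1
    exact one_ne_zero h1
  · intro h
    rw [h, Polynomial.coeff_zero] at hder
    exact hder rfl

end Pool.Agent.U69.FE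

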