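import Pool.Agent.U69.FE.Stm
set_option autoImplicit false
open Polynomial
namespace Pool.Agent.U69.FE

namespace INFAux

theorem map_aeval {p : ℕ} [Fact p.Prime] (σ : LaurentSeries (ZMod p) →+* LaurentSeries (ZMod p))
    (P : (ZMod p)[X]) (y : LaurentSeries (ZMod p)) : σ (aeval y P) = aeval (σ y) P := by
  rw [aeval_def, aeval_def, hom_eval₂]
  congr 1
  exact RingHom.ext_zmod _ _

end INFAux

theorem INF_ok : S_INF := by
  intro p _ σ e he hσ P x hP hx hDv hfix
  set f : LaurentSeries (ZMod p) → LaurentSeries (ZMod p) := fun y => aeval y P with hf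
  have hord : 1 ≤ x.order := by
    by_contra h
    push Not at h
    exact HahnSeries.coeff_order_eq_zero.not.2 hx (hDv _ h)
  have key : ∀ n : ℕ, f^[n] x ≠ 0 ∧ σ (f^[n] x) = aeval (f^[n] x) P ∧
      (f^[n] x).order = (e : ℤ) ^ n * x.order := by
    intro n
    induction n with
    | zero => exact ⟨hx, hfix, by simp⟩
    | succ n ih =>
      obtain ⟨h1, h2, h3⟩ := ih
      have h4 : f^[n + 1] x = σ (f^[n] x) := by
        rw [Function.iterate_succ_apply', h2]
      rw [h4]
      refine ⟨(map_ne_zero_iff σ σ.injective).2 h1, ?_, ?_⟩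
      · conv_lhs => rw [h2]
        rw [INFAux.map_aeval]
      · rw [hσ _ h1, h3, pow_succ']
        ring
  have he' : (2 : ℤ) ≤ e := by exact_mod_cast he
  have hinj : Function.Injective (fun n : ℕ => f^[n] x) := by
    intro m n hmn
    have h1 : (f^[m] x).order = (f^[n] x).order := congrArg HahnSeries.order hmn
    rw [(key m).2.2, (key n).2.2] at h1
    have h2 : (e : ℤ) ^ m = (e : ℤ) ^ n := mul_right_cancel₀ (by omega) h1
    have h3 : e ^ m = e ^ n := by exact_mod_cast h2
    exact Nat.pow_right_injective he h3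
  have hinf : (Set.range (fun n : ℕ => f^[n] x)).Infinite := Set.infinite_range_of_injective hinj
  have hfin : {y : LaurentSeries (ZMod p) | aeval y P.derivative = 0}.Finite := by
    refine (P.derivative.rootSet_finite (LaurentSeries (ZMod p))).subset ?_
    intro y hy
    rw [mem_rootSet]
    exact ⟨hP, hy⟩
  refine (hinf.sdiff hfin).mono ?_
  rintro y ⟨⟨n, rfl⟩, hy⟩
  obtain ⟨h1, h2, h3⟩ := key n
  refine ⟨?_, hy, h2⟩
  intro k hk
  refine HahnSeries.coeff_eq_zero_of_lt_order ?_
  rw [h3]
  have h4 : (1 : ℤ) ≤ (e : ℤ) ^ n := one_le_pow₀ (by omega)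
  nlinarith

end Pool.Agent.U69.FE
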