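import Pool.Agent.U69.FE.Stm

/-!
# Project FE (MP_db9079_lc), package ISO (helper747): the solutions of `σ y = P y` are isolated
-/

set_option autoImplicit false
open Polynomial
namespace Pool.Agent.U69.FE

namespace ISOAux

theorem dv_mono {p : ℕ} {m n : ℤ} {x : LaurentSeries (ZMod p)} (h : m ≤ n) (hx : Dv n x) :
    Dv m x := fun k hk => hx k (lt_of_lt_of_le hk h)

theorem dv_zero {p : ℕ} (n : ℤ) : Dv n (0 : LaurentSeries (ZMod p)) := fun k _ => by simp

theorem dv_order {p : ℕ} (x : LaurentSeries (ZMod p)) : Dv x.order x :=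
  fun _ hk => HahnSeries.coeff_eq_zero_of_lt_order hk

theorem le_order {p : ℕ} {n : ℤ} {x : LaurentSeries (ZMod p)} (h0 : x ≠ 0) (hx : Dv n x) :
    n ≤ x.order := by
  by_contra h
  push Not at h
  exact h0 (HahnSeries.coeff_order_eq_zero.1 (hx _ h))

end ISOAux

open ISOAux in
theorem ISO_ok (hT : S_TAY) : S_ISO := by
  intro p _ σ e he hσ P x hx hA hxP
  set A : LaurentSeries (ZMod p) := aeval x P.derivative with hAdef
  set δ : ℤ := A.order with hδ
  have hone : (1 : ZMod p) ≠ 0 := one_ne_zero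
  have hb0 : (HahnSeries.single (|δ| + 1) (1 : ZMod p) : LaurentSeries (ZMod p)) ≠ 0 := by
    rw [Ne, HahnSeries.single_eq_zero_iff]
    exact hone
  refine ⟨HahnSeries.single (|δ| + 1) (1 : ZMod p), hb0, ?_⟩
  intro y z hz hy hyx
  by_cases hz0 : z = 0
  · rw [hyx, hz0, mul_zero, add_zero]
  exfalso
  set b : LaurentSeries (ZMod p) := HahnSeries.single (|δ| + 1) (1 : ZMod p) with hb
  set w : LaurentSeries (ZMod p) := b * z with hw
  have hw0 : w ≠ 0 := mul_ne_zero hb0 hz0
  have hbo : b.order = |δ| + 1 := by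
    rw [hb, HahnSeries.order_single hone]
  have hwo : |δ| + 1 ≤ w.order := by
    rw [hw, HahnSeries.order_mul hb0 hz0, hbo]
    have := le_order hz0 hz
    linarith
  set m : ℤ := w.order with hm
  have hδabs : δ ≤ |δ| := le_abs_self δ
  have habs : 0 ≤ |δ| := abs_nonneg δ
  have hm0 : 0 ≤ m := by linarith
  have hTay := hT p P m m x w 0 hm0 (dv_mono (by norm_num) hx) (dv_order w) (dv_zero m)
    (by rw [sub_zero]; exact dv_order w)
  rw [add_zero, sub_zero] at hTay
  have hσw : σ w = A * w + (aeval (x + w) P - aeval x P - A * w) := by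
    have h1 : w = y - x := by rw [hyx]; ring
    have h2 : σ w = σ y - σ x := by rw [h1, map_sub]
    rw [h2, hy, hxP, ← hyx]
    ring
  have h3 : (σ w).coeff (δ + m) = 0 := by
    apply HahnSeries.coeff_eq_zero_of_lt_order
    rw [hσ w hw0]
    have he' : (2 : ℤ) ≤ (e : ℤ) := by exact_mod_cast he
    have : (2 : ℤ) * m ≤ (e : ℤ) * m := mul_le_mul_of_nonneg_right he' hm0
    linarith
  rw [hσw, HahnSeries.coeff_add] at h3
  have h4 : (aeval (x + w) P - aeval x P - A * w).coeff (δ + m) = 0 := by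
    apply hTay
    linarith
  have h5 : (A * w).coeff (δ + m) ≠ 0 := by
    intro h7
    have h8 : (A * w).order = δ + m := HahnSeries.order_mul hA hw0
    rw [← h8] at h7
    exact mul_ne_zero hA hw0 (HahnSeries.coeff_order_eq_zero.1 h7)
  rw [h4, add_zero] at h3
  exact h5 h3

end Pool.Agent.U69.FE
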