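import Pool.Agent.U69.FE.Stm2
set_option autoImplicit false
open Polynomial
namespace Pool.Agent.U69.FE

open Pool.Agent.Y924.EL

namespace PFAux

/-- `x_j = c` -/
def cf : ℕ → ℕ → Fm
  | 0, j => .add j j j
  | c + 1, j => .ex (j + 1) (.and (cf c (j + 1)) (.ex (j + 2) (.and (.one (j + 2))
      (.add (j + 1) (j + 2) j))))

/-- `x_j` is the value at `x_0` of the polynomial with the coefficients in the list -/
def pf : List ℕ → ℕ → Fm
  | [], j => .add j j j
  | c :: l, j => .ex (j + 1) (.and (pf l (j + 1)) (.ex (j + 2) (.and (.mul 0 (j + 1) (j + 2))
      (.ex (j + 3) (.and (cf c (j + 3)) (.add (j + 2) (j + 3) j))))))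

/-- the value -/
def ev {K : Type*} [CommRing K] : List ℕ → K → K
  | [], _ => 0
  | c :: l, x => x * ev l x + c

theorem sat_cf {K : Type*} [CommRing K] (O : Set K) (c : ℕ) : ∀ (j : ℕ) (v : ℕ → K),
    Sat O (cf c j) v ↔ v j = (c : K) := by
  induction c with
  | zero =>
    intro j v
    show v j + v j = v j ↔ v j = ((0 : ℕ) : K)
    rw [Nat.cast_zero]
    constructor
    · intro h
      exact add_eq_left.mp h
    · intro h
      rw [h, add_zero]
  | succ c ih =>
    intro j v
    show (∃ a : K, Sat O (cf c (j + 1)) (Function.update v (j + 1) a) ∧
      ∃ b : K, Function.update (Function.update v (j + 1) a) (j + 2) b (j + 2) = 1 ∧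
        Function.update (Function.update v (j + 1) a) (j + 2) b (j + 1) +
          Function.update (Function.update v (j + 1) a) (j + 2) b (j + 2) =
            Function.update (Function.update v (j + 1) a) (j + 2) b j) ↔ v j = ((c + 1 : ℕ) : K)
    have h1 : j + 1 ≠ j + 2 := by omega
    have h2 : j ≠ j + 2 := by omega
    have h3 : j ≠ j + 1 := by omega
    constructor
    · rintro ⟨a, ha, b, hb, hab⟩
      rw [ih, Function.update_self] at ha
      rw [Function.update_self] at hb
      rw [Function.update_of_ne h1, Function.update_self, Function.update_self,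
        Function.update_of_ne h2, Function.update_of_ne h3, ha, hb] at hab
      rw [← hab]
      push_cast
      rfl
    · intro h
      refine ⟨(c : K), ?_, 1, ?_, ?_⟩
      · rw [ih, Function.update_self]
      · rw [Function.update_self]
      · rw [Function.update_of_ne h1, Function.update_self, Function.update_self,
          Function.update_of_ne h2, Function.update_of_ne h3, h]
        push_cast
        rfl

theorem sat_pf {K : Type*} [CommRing K] (O : Set K) (l : List ℕ) : ∀ (j : ℕ) (v : ℕ → K), 1 ≤ j →
    (Sat O (pf l j) v ↔ v j = ev l (v 0)) := by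
  induction l with
  | nil =>
    intro j v _
    show v j + v j = v j ↔ v j = 0
    constructor
    · intro h
      exact add_eq_left.mp h
    · intro h
      rw [h, add_zero]
  | cons c l ih =>
    intro j v hj
    have h1 : j + 1 ≠ j + 2 := by omega
    have h2 : j ≠ j + 2 := by omega
    have h3 : j ≠ j + 1 := by omega
    have h4 : j ≠ j + 3 := by omega
    have h5 : j + 2 ≠ j + 3 := by omega
    have h01 : (0 : ℕ) ≠ j + 1 := by omega
    have h02 : (0 : ℕ) ≠ j + 2 := by omega
    show (∃ a : K, Sat O (pf l (j + 1)) (Function.update v (j + 1) a) ∧
      ∃ b : K, (Function.update (Function.update v (j + 1) a) (j + 2) b 0 *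
          Function.update (Function.update v (j + 1) a) (j + 2) b (j + 1) =
            Function.update (Function.update v (j + 1) a) (j + 2) b (j + 2)) ∧
        ∃ d : K, Sat O (cf c (j + 3))
            (Function.update (Function.update (Function.update v (j + 1) a) (j + 2) b) (j + 3) d) ∧
          Function.update (Function.update (Function.update v (j + 1) a) (j + 2) b) (j + 3) d
              (j + 2) +
            Function.update (Function.update (Function.update v (j + 1) a) (j + 2) b) (j + 3) d
              (j + 3) =
            Function.update (Function.update (Function.update v (j + 1) a) (j + 2) b) (j + 3) d j) ↔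
      v j = v 0 * ev l (v 0) + (c : K)
    constructor
    · rintro ⟨a, ha, b, hb, d, hd, hs⟩
      rw [ih _ _ (by omega), Function.update_self, Function.update_of_ne h01] at ha
      rw [Function.update_of_ne h02, Function.update_of_ne h01, Function.update_of_ne h1,
        Function.update_self, Function.update_self, ha] at hb
      rw [sat_cf, Function.update_self] at hd
      rw [Function.update_of_ne h5, Function.update_self, Function.update_self,
        Function.update_of_ne h4, Function.update_of_ne h2, Function.update_of_ne h3, ← hb,
        hd] at hs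
      exact hs.symm
    · intro h
      refine ⟨ev l (v 0), ?_, v 0 * ev l (v 0), ?_, (c : K), ?_, ?_⟩
      · rw [ih _ _ (by omega), Function.update_self, Function.update_of_ne h01]
      · rw [Function.update_of_ne h02, Function.update_of_ne h01, Function.update_of_ne h1,
          Function.update_self, Function.update_self]
      · rw [sat_cf, Function.update_self]
      · rw [Function.update_of_ne h5, Function.update_self, Function.update_self,
          Function.update_of_ne h4, Function.update_of_ne h2, Function.update_of_ne h3, h]

theorem exists_list {p : ℕ} [Fact p.Prime] (Q : (ZMod p)[X]) : ∃ l : List ℕ,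
    ∀ (K : Type) [CommRing K] [Algebra (ZMod p) K] (x : K), aeval x Q = ev l x := by
  classical
  induction Q using Polynomial.recOnHorner with
  | M0 => exact ⟨[], fun K _ _ x => by rw [map_zero]; rfl⟩
  | MC Q a _ _ ih =>
    obtain ⟨l, hl⟩ := ih
    have hc : ∀ (K : Type) [CommRing K] [Algebra (ZMod p) K],
        algebraMap (ZMod p) K a = ((a.val : ℕ) : K) := by
      intro K _ _
      have h1 := map_natCast (algebraMap (ZMod p) K) a.val
      rw [ZMod.natCast_zmod_val] at h1
      exact h1
    cases l with
    | nil =>
      refine ⟨[a.val], fun K _ _ x => ?_⟩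
      rw [map_add, hl K x, aeval_C, hc K]
      show (0 : K) + _ = x * 0 + _
      ring
    | cons c l =>
      refine ⟨(c + a.val) :: l, fun K _ _ x => ?_⟩
      rw [map_add, hl K x, aeval_C, hc K]
      show x * ev l x + (c : K) + _ = x * ev l x + ((c + a.val : ℕ) : K)
      push_cast
      ring
  | MX Q _ ih =>
    obtain ⟨l, hl⟩ := ih
    refine ⟨0 :: l, fun K _ _ x => ?_⟩
    rw [map_mul, aeval_X, hl K x]
    show ev l x * x = x * ev l x + ((0 : ℕ) : K)
    push_cast
    ring

end PFAux

open PFAux in
theorem PF_ok : S_PF := by
  intro p _ Q
  obtain ⟨l, hl⟩ := exists_list Q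
  refine ⟨pf l 1, fun O v => ?_⟩
  rw [sat_pf O l 1 v le_rfl, hl (LaurentSeries (ZMod p)) (v 0)]

end Pool.Agent.U69.FE
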