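import Pool.Agent.U69.FE.Stm
import Pool.Agent.Y15.UF.Res

/-! Package RED of project FE (helper69): if `σ t` is a `p`-th power, `σ` is `x ↦ (σ' x) ^ p` (helper312). -/

set_option autoImplicit false

open Polynomial

namespace Pool.Agent.U69.FE

namespace REDAux

theorem pw {p : ℕ} [Fact p.Prime] (σ : LaurentSeries (ZMod p) →+* LaurentSeries (ZMod p))
    {s : LaurentSeries (ZMod p)} (hs : σ (tt p) = s ^ p) (k : ℕ) :
    ∀ y, Pool.Agent.Y924.UF.Ex (HahnSeries.single (1 : ℤ) (1 : ZMod p)) p k y →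
      ∃ z, σ y = z ^ p := by
  have hp : p ≠ 0 := (Fact.out : p.Prime).ne_zero
  haveI : CharP (LaurentSeries (ZMod p)) p := Pool.Agent.Y15.UF.inst_char
  induction k with
  | zero =>
    intro y hy
    have h1 : y = 0 := hy
    exact ⟨0, by rw [h1, map_zero, zero_pow hp]⟩
  | succ k ih =>
    rintro y ⟨w, y', h1, rfl⟩
    obtain ⟨z, hz⟩ := ih y' h1
    refine ⟨σ w + s * z, ?_⟩
    have h2 : σ (HahnSeries.single (1 : ℤ) (1 : ZMod p)) = s ^ p := hs
    rw [map_add, map_pow, map_mul, h2, hz, add_pow_char, mul_pow]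

end REDAux

theorem RED_ok : S_RED := by
  intro p _ σ hs
  obtain ⟨s, hs⟩ := hs
  have hp0 : (0 : ℤ) < p := by exact_mod_cast (Fact.out : p.Prime).pos
  have hpn : p ≠ 0 := (Fact.out : p.Prime).ne_zero
  haveI : CharP (LaurentSeries (ZMod p)) p := Pool.Agent.Y15.UF.inst_char
  have hall : ∀ x, ∃ z, σ x = z ^ p := fun x =>
    REDAux.pw σ hs p x (Pool.Agent.Y15.UF.Ex_of p x fun n hn => absurd (Int.emod_lt_of_pos n hp0)
      (not_lt.2 hn))
  choose r hr using hall
  have hinj : ∀ a b : LaurentSeries (ZMod p), a ^ p = b ^ p → a = b := fun a b h =>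
    frobenius_inj (LaurentSeries (ZMod p)) p h
  refine ⟨{ toFun := r, map_one' := ?_, map_mul' := ?_, map_zero' := ?_, map_add' := ?_ },
    fun x => hr x⟩
  · apply hinj
    rw [← hr, map_one, one_pow]
  · intro x y
    apply hinj
    rw [← hr, map_mul, mul_pow, ← hr, ← hr]
  · apply hinj
    rw [← hr, map_zero, zero_pow hpn]
  · intro x y
    apply hinj
    rw [← hr, map_add, add_pow_char, ← hr, ← hr]

end Pool.Agent.U69.FE
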