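import Pool.Agent.U69.FE.Stm

set_option autoImplicit false

open Polynomial

namespace Pool.Agent.U69.FE

namespace SURAux

variable {p : ℕ} [Fact p.Prime] {σ : LaurentSeries (ZMod p) →+* LaurentSeries (ZMod p)}

theorem dv_map (hσ : ∀ x, x ≠ 0 → (σ x).order = x.order) {n : ℤ} {x : LaurentSeries (ZMod p)}
    (h : Dv n x) : Dv n (σ x) := by
  intro k hk
  by_cases hx : x = 0
  · rw [hx, map_zero, HahnSeries.coeff_zero]
  · apply HahnSeries.coeff_eq_zero_of_lt_order
    rw [hσ x hx]
    by_contra hcon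
    have h1 : x.order < n := lt_of_le_of_lt (not_lt.1 hcon) hk
    exact hx (HahnSeries.coeff_order_eq_zero.1 (h _ h1))

theorem map_C (a : ZMod p) : σ (HahnSeries.C a) = HahnSeries.C a := by
  have h : σ.comp (HahnSeries.C : ZMod p →+* LaurentSeries (ZMod p)) = HahnSeries.C :=
    Subsingleton.elim _ _
  exact RingHom.congr_fun h a

theorem step (hσ : ∀ x, x ≠ 0 → (σ x).order = x.order) (f : LaurentSeries (ZMod p)) (n : ℤ)
    (g : LaurentSeries (ZMod p)) : ∃ a : ZMod p, Dv n (f - σ g) →
      Dv (n + 1) (f - σ (g + HahnSeries.single n a)) := by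
  have ht : (HahnSeries.single n (1 : ZMod p) : LaurentSeries (ZMod p)) ≠ 0 :=
    HahnSeries.single_ne_zero one_ne_zero
  have hord : (σ (HahnSeries.single n (1 : ZMod p))).order = n := by
    rw [hσ _ ht, HahnSeries.order_single one_ne_zero]
  have hc : (σ (HahnSeries.single n (1 : ZMod p))).coeff n ≠ 0 := by
    have h1 : (σ (HahnSeries.single n (1 : ZMod p))).coeff
        (σ (HahnSeries.single n (1 : ZMod p))).order ≠ 0 := fun h =>
      (map_ne_zero σ).2 ht (HahnSeries.coeff_order_eq_zero.1 h)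
    rwa [hord] at h1
  refine ⟨(f - σ g).coeff n / (σ (HahnSeries.single n (1 : ZMod p))).coeff n, fun h k hk => ?_⟩
  have hs : ∀ a : ZMod p, (HahnSeries.single n a : LaurentSeries (ZMod p)) =
      HahnSeries.C a * HahnSeries.single n 1 := by
    intro a
    rw [HahnSeries.C_mul_eq_smul]
    ext j
    rw [HahnSeries.coeff_smul, HahnSeries.coeff_single, HahnSeries.coeff_single]
    split_ifs <;> simp
  rw [map_add, hs, map_mul, map_C, ← sub_sub, HahnSeries.coeff_sub, HahnSeries.C_mul_eq_smul,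
    HahnSeries.coeff_smul, smul_eq_mul]
  rcases lt_or_eq_of_le (Int.lt_add_one_iff.1 hk) with h1 | h1
  · have h2 : (σ (HahnSeries.single n (1 : ZMod p))).coeff k = 0 :=
      HahnSeries.coeff_eq_zero_of_lt_order (by rw [hord]; exact h1)
    rw [h k h1, h2, mul_zero, sub_zero]
  · rw [h1, div_mul_cancel₀ _ hc, sub_self]

end SURAux

open SURAux in
theorem SUR_ok : S_SUR := by
  intro p _ σ hσ f
  choose A hA using step hσ f
  obtain ⟨n0, hn0⟩ : ∃ n0 : ℤ, Dv n0 f :=
    ⟨f.order, fun k hk => HahnSeries.coeff_eq_zero_of_lt_order hk⟩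
  let G : ℕ → LaurentSeries (ZMod p) := fun j =>
    Nat.rec 0 (fun (j : ℕ) g => g + HahnSeries.single (n0 + j) (A (n0 + j) g)) j
  have hG0 : G 0 = 0 := rfl
  have hG1 : ∀ j : ℕ, G (j + 1) = G j + HahnSeries.single (n0 + j) (A (n0 + j) (G j)) :=
    fun j => rfl
  have hG : ∀ j : ℕ, Dv (n0 + j) (f - σ (G j)) := by
    intro j
    induction j with
    | zero =>
      rw [hG0, map_zero, sub_zero, Nat.cast_zero, add_zero]
      exact hn0
    | succ j ih =>
      rw [hG1, Nat.cast_succ, ← add_assoc]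
      exact hA _ _ ih
  have hGc : ∀ (j : ℕ) (k : ℤ), (G j).coeff k =
      if n0 ≤ k ∧ k < n0 + j then A (n0 + (k - n0).toNat) (G (k - n0).toNat) else 0 := by
    intro j
    induction j with
    | zero =>
      intro k
      rw [hG0, if_neg, HahnSeries.coeff_zero]
      rintro ⟨h1, h2⟩
      rw [Nat.cast_zero, add_zero] at h2
      exact absurd h2 (not_lt.2 h1)
    | succ j ih =>
      intro k
      rw [hG1, HahnSeries.coeff_add, ih, HahnSeries.coeff_single]
      by_cases hk : k = n0 + j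
      · have h1 : (k - n0).toNat = j := by omega
        rw [if_neg (by omega), if_pos hk, if_pos (by omega), h1, zero_add]
      · rw [if_neg hk, add_zero]
        by_cases h2 : n0 ≤ k ∧ k < n0 + j
        · rw [if_pos h2, if_pos (by omega)]
        · rw [if_neg h2, if_neg (by omega)]
  have hbdd : BddBelow (Function.support fun k : ℤ =>
      if n0 ≤ k then A (n0 + (k - n0).toNat) (G (k - n0).toNat) else 0) := by
    refine ⟨n0, fun k hk => ?_⟩
    by_contra hcon
    exact hk (if_neg hcon)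
  refine ⟨HahnSeries.ofSuppBddBelow _ hbdd, ?_⟩
  set g : LaurentSeries (ZMod p) := HahnSeries.ofSuppBddBelow _ hbdd with hg
  have hgc : ∀ k : ℤ, g.coeff k =
      if n0 ≤ k then A (n0 + (k - n0).toNat) (G (k - n0).toNat) else 0 := fun k => rfl
  have hd : ∀ j : ℕ, Dv (n0 + j) (g - G j) := by
    intro j k hk
    rw [HahnSeries.coeff_sub, hgc, hGc]
    by_cases h1 : n0 ≤ k
    · rw [if_pos h1, if_pos ⟨h1, hk⟩, sub_self]
    · rw [if_neg h1, if_neg (fun h => h1 h.1), sub_zero]
  have h0 : f - σ g = 0 := by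
    ext k
    have hk : k < n0 + ((k - n0 + 1).toNat : ℕ) := by omega
    have h1 : f - σ g = (f - σ (G (k - n0 + 1).toNat)) - σ (g - G (k - n0 + 1).toNat) := by
      rw [map_sub]
      ring
    rw [h1, HahnSeries.coeff_sub, hG _ k hk, dv_map hσ (hd _) k hk, sub_zero,
      HahnSeries.coeff_zero]
  exact (sub_eq_zero.1 h0).symm

end Pool.Agent.U69.FE
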