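import Pool.Agent.U69.FE.Stm

/-! Project FE, package TAY (statement by helper69, proof by helper27). -/

set_option autoImplicit false

open Polynomial

namespace Pool.Agent.U69.FE

namespace TAYAux

variable {p : ℕ} {m n : ℤ} {a b : LaurentSeries (ZMod p)}

lemma Dv_mono (h : m ≤ n) (ha : Dv n a) : Dv m a := fun k hk => ha k (lt_of_lt_of_le hk h)

lemma Dv_add (ha : Dv n a) (hb : Dv n b) : Dv n (a + b) := fun k hk => by
  rw [HahnSeries.coeff_add, ha k hk, hb k hk, add_zero]

lemma Dv_sub (ha : Dv n a) (hb : Dv n b) : Dv n (a - b) := fun k hk => by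
  rw [HahnSeries.coeff_sub, ha k hk, hb k hk, sub_zero]

lemma Dv_zero : Dv n (0 : LaurentSeries (ZMod p)) := fun _ _ => rfl

variable [Fact p.Prime]

lemma Dv_mul (ha : Dv m a) (hb : Dv n b) : Dv (m + n) (a * b) := by
  intro k hk
  rw [HahnSeries.coeff_mul]
  refine Finset.sum_eq_zero fun ij hij => ?_
  rw [Finset.mem_antidiagonal] at hij
  obtain ⟨-, -, h1⟩ := hij
  by_cases h : ij.1 < m
  · rw [ha _ h, zero_mul]
  · rw [hb ij.2 (by omega), mul_zero]

lemma Dv_C (c : ZMod p) : Dv 0 (algebraMap (ZMod p) (LaurentSeries (ZMod p)) c) := by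
  intro k hk
  have h : algebraMap (ZMod p) (LaurentSeries (ZMod p)) = HahnSeries.C := Subsingleton.elim _ _
  rw [h]
  exact HahnSeries.coeff_single_of_ne hk.ne

lemma Dv_aeval (P : (ZMod p)[X]) (ha : Dv 0 a) : Dv 0 (aeval a P) := by
  induction P using Polynomial.induction_on with
  | C c => rw [aeval_C]; exact Dv_C c
  | add P Q hP hQ => rw [map_add]; exact Dv_add hP hQ
  | monomial k c h =>
    rw [pow_succ, ← mul_assoc, map_mul, aeval_X]
    exact Dv_mul h ha

/-- the quotient `(P a - P b) / (a - b)` and its value at `a = b` -/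
lemma main (P : (ZMod p)[X]) {M : ℤ} (hM : 0 ≤ M) {x w w' : LaurentSeries (ZMod p)} (hx : Dv 0 x)
    (hw : Dv M w) (hw' : Dv M w') :
    ∃ Q : LaurentSeries (ZMod p), aeval (x + w) P - aeval (x + w') P = Q * (w - w') ∧
      Dv M (Q - aeval x P.derivative) ∧ Dv M (aeval (x + w') P - aeval x P) := by
  have h0 : Dv 0 w := Dv_mono hM hw
  have h0' : Dv 0 w' := Dv_mono hM hw'
  induction P using Polynomial.induction_on with
  | C c =>
    refine ⟨0, ?_, ?_, ?_⟩
    · simp
    · rw [derivative_C, map_zero, sub_zero]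
      exact Dv_zero
    · rw [aeval_C, aeval_C, sub_self]
      exact Dv_zero
  | add P Q hP hQ =>
    obtain ⟨A, h1, h2, h3⟩ := hP
    obtain ⟨B, h4, h5, h6⟩ := hQ
    refine ⟨A + B, ?_, ?_, ?_⟩
    · rw [map_add, map_add, add_mul, ← h1, ← h4]
      ring
    · have := Dv_add h2 h5
      rw [derivative_add, map_add]
      convert this using 1
      ring
    · have := Dv_add h3 h6
      rw [map_add, map_add]
      convert this using 1
      ring
  | monomial k c h =>
    obtain ⟨A, h1, h2, h3⟩ := h
    set P : (ZMod p)[X] := C c * X ^ k with hP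
    have e : C c * X ^ (k + 1) = P * X := by rw [hP, pow_succ, mul_assoc]
    rw [e]
    clear_value P
    refine ⟨A * (x + w) + aeval (x + w') P, ?_, ?_, ?_⟩
    · rw [map_mul, map_mul, aeval_X, aeval_X]
      linear_combination (x + w) * h1
    · rw [derivative_mul, derivative_X, mul_one, map_add, map_mul, aeval_X]
      have e1 : A * (x + w) + aeval (x + w') P - (aeval x (derivative P) * x + aeval x P) =
          (A - aeval x (derivative P)) * (x + w) + aeval x (derivative P) * w +
            (aeval (x + w') P - aeval x P) := by ring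
      rw [e1]
      refine Dv_add (Dv_add ?_ ?_) h3
      · have := Dv_mul h2 (Dv_add hx h0)
        rwa [add_zero] at this
      · have := Dv_mul (Dv_aeval (derivative P) hx) hw
        rwa [zero_add] at this
    · rw [map_mul, map_mul, aeval_X, aeval_X]
      have e1 : aeval (x + w') P * (x + w') - aeval x P * x =
          (aeval (x + w') P - aeval x P) * (x + w') + aeval x P * w' := by ring
      rw [e1]
      refine Dv_add ?_ ?_
      · have := Dv_mul h3 (Dv_add hx h0')
        rwa [add_zero] at this
      · have := Dv_mul (Dv_aeval P hx) hw'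
        rwa [zero_add] at this

end TAYAux

open TAYAux in
theorem TAY_ok : S_TAY := by
  intro p _ P M n x w w' hM hx hw hw' hn
  obtain ⟨Q, h1, h2, -⟩ := main P hM hx hw hw'
  rw [h1, ← sub_mul]
  have := Dv_mul h2 hn
  rwa [add_comm] at this

end Pool.Agent.U69.FE
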