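import Pool.Agent.U69.FE.Stm
import Pool.Agent.Y675.UF.Root

/-!
# Project FE, package VAL: field endomorphisms of `F_p((t))` multiply the valuation by a constant
-/

set_option autoImplicit false

open Polynomial

namespace Pool.Agent.U69.FE

namespace VALAux

variable {p : ℕ} [Fact p.Prime]

/-- one-units -/
def U1 (u : LaurentSeries (ZMod p)) : Prop := Dv 0 u ∧ u.coeff 0 = 1

lemma U1.ne {u : LaurentSeries (ZMod p)} (h : U1 u) : u ≠ 0 := by
  rintro rfl
  have := h.2
  rw [HahnSeries.coeff_zero] at this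
  exact zero_ne_one this

lemma U1.order {u : LaurentSeries (ZMod p)} (h : U1 u) : u.order = 0 := by
  apply le_antisymm
  · apply HahnSeries.order_le_of_coeff_ne_zero
    rw [h.2]
    exact one_ne_zero
  · by_contra h1
    push Not at h1
    exact HahnSeries.coeff_order_eq_zero.not.2 h.ne (h.1 _ h1)

lemma ne_map (σ : LaurentSeries (ZMod p) →+* LaurentSeries (ZMod p))
    {x : LaurentSeries (ZMod p)} (h : x ≠ 0) : σ x ≠ 0 :=
  (map_ne_zero σ).2 h

/-- a one-unit is a `(p + 1)`-th power of a one-unit -/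
lemma root1 {u : LaurentSeries (ZMod p)} (h : U1 u) : ∃ y, U1 y ∧ y ^ (p + 1) = u := by
  obtain ⟨y, hy⟩ := Pool.Agent.Y675.UF.t_ROOT p u h.1 h.2
  have hy0 : y ≠ 0 := by
    rintro rfl
    rw [zero_pow (Nat.succ_ne_zero p)] at hy
    exact h.ne hy.symm
  have ho : y.order = 0 := by
    have h1 := HahnSeries.order_pow y (p + 1)
    rw [hy, h.order, nsmul_eq_mul] at h1
    rcases mul_eq_zero.1 h1.symm with h2 | h2
    · exfalso
      have : ((p + 1 : ℕ) : ℤ) ≠ 0 := by exact_mod_cast Nat.succ_ne_zero p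
      exact this h2
    · exact h2
  have hd : Dv 0 y := by
    intro k hk
    apply HahnSeries.coeff_eq_zero_of_lt_order
    rwa [ho]
  have hl : y.leadingCoeff = y.coeff 0 := by
    rw [HahnSeries.leadingCoeff_eq, ho]
  have hlu : u.leadingCoeff = 1 := by
    rw [HahnSeries.leadingCoeff_eq, h.order, h.2]
  have hpow : ∀ n : ℕ, (y ^ n).leadingCoeff = y.leadingCoeff ^ n := by
    intro n
    induction n with
    | zero => rw [pow_zero, pow_zero, HahnSeries.leadingCoeff_one]
    | succ n ih => rw [pow_succ, pow_succ, HahnSeries.leadingCoeff_mul, ih]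
  have ha : y.coeff 0 * y.coeff 0 = 1 := by
    have h1 := hpow (p + 1)
    rw [hy, hlu, hl, pow_succ, ZMod.pow_card] at h1
    exact h1.symm
  rcases mul_self_eq_one_iff.1 ha with h1 | h1
  · exact ⟨y, ⟨hd, h1⟩, hy⟩
  · rcases Nat.Prime.eq_two_or_odd (Fact.out : p.Prime) with h2 | h2
    · have h3 : ((2 : ℕ) : ZMod p) = 0 := (ZMod.natCast_eq_zero_iff 2 p).2 (dvd_of_eq h2)
      have h4 : (-1 : ZMod p) = 1 := by
        have h5 : (1 : ZMod p) + 1 = 0 := by
          rw [← h3]
          push_cast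
          ring
        exact (eq_neg_of_add_eq_zero_left h5).symm
      exact ⟨y, ⟨hd, by rw [h1, h4]⟩, hy⟩
    · refine ⟨-y, ⟨fun k hk => ?_, ?_⟩, ?_⟩
      · rw [HahnSeries.coeff_neg, hd k hk, neg_zero]
      · rw [HahnSeries.coeff_neg, h1, neg_neg]
      · rw [Even.neg_pow ?_ y, hy]
        rw [Nat.even_iff]
        omega

lemma root2 (n : ℕ) : ∀ u : LaurentSeries (ZMod p), U1 u → ∃ y, U1 y ∧ y ^ ((p + 1) ^ n) = u := by
  induction n with
  | zero =>
    intro u h
    exact ⟨u, h, by rw [pow_zero, pow_one]⟩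
  | succ n ih =>
    intro u h
    obtain ⟨v, hv, e1⟩ := root1 h
    obtain ⟨w, hw, e2⟩ := ih v hv
    exact ⟨w, hw, by rw [pow_succ, pow_mul, e2, e1]⟩

lemma order_unit (σ : LaurentSeries (ZMod p) →+* LaurentSeries (ZMod p))
    {u : LaurentSeries (ZMod p)} (h : U1 u) : (σ u).order = 0 := by
  by_contra h0
  obtain ⟨y, _, hy⟩ := root2 (σ u).order.natAbs u h
  have h1 : (σ u).order = (((p + 1) ^ (σ u).order.natAbs : ℕ) : ℤ) * (σ y).order := by
    conv_lhs => rw [← hy]
    rw [map_pow, HahnSeries.order_pow, nsmul_eq_mul]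
  have h2 : (p + 1) ^ (σ u).order.natAbs ∣ (σ u).order.natAbs := by
    rw [← Int.natCast_dvd]
    exact Dvd.intro _ h1.symm
  have h3 := Nat.le_of_dvd (Int.natAbs_pos.2 h0) h2
  have h4 : (σ u).order.natAbs < (p + 1) ^ (σ u).order.natAbs :=
    Nat.lt_pow_self (Nat.succ_lt_succ (Nat.Prime.pos Fact.out))
  omega

lemma map_C (σ : LaurentSeries (ZMod p) →+* LaurentSeries (ZMod p)) (c : ZMod p) :
    σ (HahnSeries.C c) = HahnSeries.C c := by
  have h : σ.comp (HahnSeries.C : ZMod p →+* LaurentSeries (ZMod p)) = HahnSeries.C :=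
    RingHom.ext_zmod _ _
  exact congrArg (fun f : ZMod p →+* LaurentSeries (ZMod p) => f c) h

lemma coeff_C_mul' (c : ZMod p) (x : LaurentSeries (ZMod p)) (k : ℤ) :
    (HahnSeries.C c * x).coeff k = c * x.coeff k := by
  rw [HahnSeries.C_mul_eq_smul, HahnSeries.coeff_smul, smul_eq_mul]

lemma coeff_one' (k : ℤ) : (1 : LaurentSeries (ZMod p)).coeff k = if k = 0 then 1 else 0 := by
  rw [HahnSeries.coeff_one]
  split_ifs <;> rfl

lemma U1_add (c : ZMod p) {x : LaurentSeries (ZMod p)} (hx : Dv 1 x) :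
    U1 (1 + HahnSeries.C c * x) := by
  constructor
  · intro k hk
    rw [HahnSeries.coeff_add, coeff_C_mul', hx k (by omega), coeff_one', if_neg hk.ne]
    ring
  · rw [HahnSeries.coeff_add, coeff_C_mul', hx 0 (by omega), coeff_one', if_pos rfl]
    ring

lemma order_pos (σ : LaurentSeries (ZMod p) →+* LaurentSeries (ZMod p))
    {x : LaurentSeries (ZMod p)} (h0 : x ≠ 0) (hx : Dv 1 x) : 0 < (σ x).order := by
  have h1 : ∀ c : ZMod p, (1 + HahnSeries.C c * σ x).order = 0 ∧
      1 + HahnSeries.C c * σ x ≠ 0 := by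
    intro c
    have h2 : σ (1 + HahnSeries.C c * x) = 1 + HahnSeries.C c * σ x := by
      rw [map_add, map_one, map_mul, map_C]
    rw [← h2]
    exact ⟨order_unit σ (U1_add c hx), ne_map σ (U1_add c hx).ne⟩
  have h3 := ne_map σ h0
  have h4 : (σ x).coeff (σ x).order ≠ 0 := HahnSeries.coeff_order_eq_zero.not.2 h3
  by_contra hneg
  push Not at hneg
  rcases hneg.lt_or_eq with h5 | h5
  · have h6 : (1 + HahnSeries.C 1 * σ x).coeff (σ x).order ≠ 0 := by
      rw [HahnSeries.coeff_add, coeff_C_mul', coeff_one', if_neg h5.ne, zero_add, one_mul]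
      exact h4
    have h7 := HahnSeries.order_le_of_coeff_ne_zero h6
    rw [(h1 1).1] at h7
    omega
  · rw [h5] at h4
    have h6 := (h1 (-((σ x).coeff 0)⁻¹)).2
    have h7 : (1 + HahnSeries.C (-((σ x).coeff 0)⁻¹) * σ x).coeff
        (1 + HahnSeries.C (-((σ x).coeff 0)⁻¹) * σ x).order ≠ 0 :=
      HahnSeries.coeff_order_eq_zero.not.2 h6
    rw [(h1 _).1] at h7
    apply h7
    rw [HahnSeries.coeff_add, coeff_C_mul', coeff_one', if_pos rfl, neg_mul, inv_mul_cancel₀ h4]
    ring

lemma order_C_map (σ : LaurentSeries (ZMod p) →+* LaurentSeries (ZMod p)) (c : ZMod p) :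
    (σ (HahnSeries.C c)).order = 0 := by
  rw [map_C, HahnSeries.order_C]

lemma single_ne {j : ℤ} {c : ZMod p} (hc : c ≠ 0) :
    (HahnSeries.single j c : LaurentSeries (ZMod p)) ≠ 0 :=
  HahnSeries.single_ne_zero hc

lemma order_pow_t (σ : LaurentSeries (ZMod p) →+* LaurentSeries (ZMod p)) (n : ℕ) :
    (σ (HahnSeries.single (n : ℤ) (1 : ZMod p))).order = n * (σ (tt p)).order := by
  have h : (HahnSeries.single (n : ℤ) (1 : ZMod p) : LaurentSeries (ZMod p)) = tt p ^ n := by
    rw [tt, HahnSeries.single_pow, one_pow, nsmul_eq_mul, mul_one]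
  rw [h, map_pow, HahnSeries.order_pow, nsmul_eq_mul]

lemma order_zpow_t (σ : LaurentSeries (ZMod p) →+* LaurentSeries (ZMod p)) (j : ℤ) :
    (σ (HahnSeries.single j (1 : ZMod p))).order = j * (σ (tt p)).order := by
  rcases Int.eq_nat_or_neg j with ⟨n, rfl | rfl⟩
  · exact order_pow_t σ n
  · have h : (HahnSeries.single (n : ℤ) (1 : ZMod p) : LaurentSeries (ZMod p)) *
        HahnSeries.single (-(n : ℤ)) (1 : ZMod p) = 1 := by
      rw [HahnSeries.single_mul_single, add_neg_cancel, one_mul]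
      rfl
    have h1 := congrArg (fun x => (σ x).order) h
    simp only [map_mul, map_one] at h1
    rw [HahnSeries.order_mul (ne_map σ (single_ne one_ne_zero))
      (ne_map σ (single_ne one_ne_zero)), order_pow_t, HahnSeries.order_one] at h1
    linarith

end VALAux

open VALAux in
theorem VAL_ok : S_VAL := by
  intro p _ σ
  have ht0 : tt p ≠ 0 := single_ne one_ne_zero
  have ht1 : Dv 1 (tt p) := by
    intro k hk
    rw [tt, HahnSeries.coeff_single_of_ne (by omega)]
  have hpos := order_pos σ ht0 ht1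
  refine ⟨(σ (tt p)).order.toNat, by omega, fun x hx => ?_⟩
  have hcast : (((σ (tt p)).order.toNat : ℕ) : ℤ) = (σ (tt p)).order := by omega
  rw [hcast]
  have ha : x.coeff x.order ≠ 0 := HahnSeries.coeff_order_eq_zero.not.2 hx
  set j := x.order with hj
  set a := x.coeff j with had
  -- the one-unit
  have hu : U1 (HahnSeries.single (-j) a⁻¹ * x) := by
    constructor
    · intro k hk
      rw [HahnSeries.coeff_single_mul, HahnSeries.coeff_eq_zero_of_lt_order (by omega), mul_zero]
    · rw [HahnSeries.coeff_single_mul, zero_sub, neg_neg, ← had, inv_mul_cancel₀ ha]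
  have h1 := order_unit σ hu
  have h2 : (HahnSeries.single (-j) a⁻¹ : LaurentSeries (ZMod p)) =
      HahnSeries.C a⁻¹ * HahnSeries.single (-j) (1 : ZMod p) := by
    rw [HahnSeries.C_apply, HahnSeries.single_mul_single, zero_add, mul_one]
  have hC0 : (HahnSeries.C a⁻¹ : LaurentSeries (ZMod p)) ≠ 0 := by
    rw [HahnSeries.C_apply]
    exact single_ne (inv_ne_zero ha)
  rw [map_mul, h2, map_mul, HahnSeries.order_mul
    (mul_ne_zero (ne_map σ hC0) (ne_map σ (single_ne one_ne_zero))) (ne_map σ hx),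
    HahnSeries.order_mul (ne_map σ hC0) (ne_map σ (single_ne one_ne_zero)),
    order_C_map, order_zpow_t] at h1
  linarith [mul_comm j (σ (tt p)).order]

end Pool.Agent.U69.FE
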