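import Pool.Agent.U69.FE.Stm4
import Pool.Agent.Y15.UF.Res

/-! Package BAS of project AU (helper69): the powers of `1 + t` are a basis over the `p ^ m`-th powers
(helper283). -/

set_option autoImplicit false

namespace Pool.Agent.U69.FE

namespace BASAux

open Polynomial

section

variable {p : ℕ} [hp : Fact p.Prime]

/-- sums of the first powers of `u` with `p`-th powers as coefficients -/
def Sp (k : ℕ) (y : LaurentSeries (ZMod p)) : Prop :=
  ∃ a : ℕ → LaurentSeries (ZMod p), y = ∑ i ∈ Finset.range k, (uu p) ^ i * (a i) ^ p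

theorem Sp_add {k : ℕ} {y z : LaurentSeries (ZMod p)} (hy : Sp k y) (hz : Sp k z) :
    Sp k (y + z) := by
  have : CharP (LaurentSeries (ZMod p)) p := Pool.Agent.Y15.UF.inst_char
  obtain ⟨a, rfl⟩ := hy
  obtain ⟨b, rfl⟩ := hz
  refine ⟨fun i => a i + b i, ?_⟩
  rw [← Finset.sum_add_distrib]
  refine Finset.sum_congr rfl fun i _ => ?_
  rw [add_pow_char, mul_add]

theorem Sp_sub {k : ℕ} {y z : LaurentSeries (ZMod p)} (hy : Sp k y) (hz : Sp k z) :
    Sp k (y - z) := by
  have : CharP (LaurentSeries (ZMod p)) p := Pool.Agent.Y15.UF.inst_char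
  obtain ⟨a, rfl⟩ := hy
  obtain ⟨b, rfl⟩ := hz
  refine ⟨fun i => a i - b i, ?_⟩
  rw [← Finset.sum_sub_distrib]
  refine Finset.sum_congr rfl fun i _ => ?_
  rw [sub_pow_char, mul_sub]

theorem Sp_mono {k : ℕ} {y : LaurentSeries (ZMod p)} (hy : Sp k y) : Sp (k + 1) y := by
  obtain ⟨a, rfl⟩ := hy
  refine ⟨fun i => if i < k then a i else 0, ?_⟩
  rw [Finset.sum_range_succ]
  beta_reduce
  rw [if_neg (lt_irrefl k), zero_pow hp.out.ne_zero, mul_zero, add_zero]
  refine Finset.sum_congr rfl fun i hi => ?_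
  rw [if_pos (Finset.mem_range.1 hi)]

theorem Sp_mul {k : ℕ} {y : LaurentSeries (ZMod p)} (hy : Sp k y) : Sp (k + 1) (uu p * y) := by
  obtain ⟨a, rfl⟩ := hy
  refine ⟨fun i => if i = 0 then 0 else a (i - 1), ?_⟩
  rw [Finset.sum_range_succ']
  beta_reduce
  rw [if_pos rfl, zero_pow hp.out.ne_zero, mul_zero, add_zero, Finset.mul_sum]
  refine Finset.sum_congr rfl fun i _ => ?_
  rw [if_neg (Nat.succ_ne_zero i), Nat.add_sub_cancel, pow_succ]
  ring

theorem Sp_pow (k : ℕ) (w : LaurentSeries (ZMod p)) : Sp (k + 1) (w ^ p) := by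
  refine ⟨fun i => if i = 0 then w else 0, ?_⟩
  rw [Finset.sum_range_succ']
  beta_reduce
  rw [if_pos rfl, pow_zero, one_mul, Finset.sum_eq_zero, zero_add]
  intro i _
  rw [if_neg (Nat.succ_ne_zero i), zero_pow hp.out.ne_zero, mul_zero]

theorem Sp_of_Ex (k : ℕ) : ∀ y : LaurentSeries (ZMod p),
    Pool.Agent.Y924.UF.Ex (HahnSeries.single (1 : ℤ) (1 : ZMod p)) p k y → Sp k y := by
  induction k with
  | zero =>
    intro y hy
    have h1 : y = 0 := hy
    exact ⟨fun _ => 0, by rw [h1, Finset.range_zero, Finset.sum_empty]⟩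
  | succ k ih =>
    rintro y ⟨w, y', h1, rfl⟩
    have h2 : w ^ p + HahnSeries.single (1 : ℤ) (1 : ZMod p) * y' =
        w ^ p + (uu p * y' - y') := by
      have h3 : uu p = 1 + HahnSeries.single (1 : ℤ) (1 : ZMod p) := rfl
      rw [h3]
      ring
    rw [h2]
    exact Sp_add (Sp_pow k w) (Sp_sub (Sp_mul (ih y' h1)) (Sp_mono (ih y' h1)))

theorem ex1 (x : LaurentSeries (ZMod p)) : Sp p x := by
  have hp0 : (0 : ℤ) < p := by exact_mod_cast hp.out.pos
  exact Sp_of_Ex p x (Pool.Agent.Y15.UF.Ex_of p x fun n hn =>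
    absurd (Int.emod_lt_of_pos n hp0) (not_lt.2 hn))

theorem not_pow (b : LaurentSeries (ZMod p)) : b ^ p ≠ uu p := by
  intro h
  have h1 : (b ^ p).coeff 1 = (uu p).coeff 1 := by rw [h]
  have h2 : ¬ (p : ℤ) ∣ 1 := by
    intro h3
    have h4 : p ∣ 1 := by exact_mod_cast h3
    exact hp.out.one_lt.ne' (Nat.dvd_one.1 h4)
  rw [Pool.Agent.Y15.UF.coeff_pow, if_neg h2] at h1
  have h3 : (uu p).coeff 1 = 1 := by
    unfold uu tt
    rw [HahnSeries.coeff_add, HahnSeries.coeff_single_same]
    have h5 : (1 : LaurentSeries (ZMod p)).coeff 1 = 0 := by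
      rw [HahnSeries.coeff_one, if_neg one_ne_zero]
    rw [h5, zero_add]
  rw [h3] at h1
  exact zero_ne_one h1

theorem uniq1 (a : ℕ → LaurentSeries (ZMod p))
    (h : ∑ i ∈ Finset.range p, (uu p) ^ i * (a i) ^ p = 0) : ∀ i < p, a i = 0 := by
  have : CharP (LaurentSeries (ZMod p)) p := Pool.Agent.Y15.UF.inst_char
  obtain ⟨A, hA⟩ : ∃ A : (LaurentSeries (ZMod p))[X],
      A = ∑ i ∈ Finset.range p, C (a i) * X ^ i := ⟨_, rfl⟩
  have hc : ∀ j, A.coeff j = if j < p then a j else 0 := by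
    intro j
    rw [hA, finsetSum_coeff]
    simp only [coeff_C_mul_X_pow]
    rw [Finset.sum_ite_eq]
    simp only [Finset.mem_range]
  by_cases hA0 : A = 0
  · intro i hi
    have h1 := hc i
    rw [hA0, coeff_zero, if_pos hi] at h1
    exact h1.symm
  · exfalso
    have hB : Irreducible (X ^ p - C (uu p) : (LaurentSeries (ZMod p))[X]) :=
      X_pow_sub_C_irreducible_of_prime hp.out not_pow
    have hdeg : A.degree < p := by
      rw [degree_lt_iff_coeff_zero]
      intro j hj
      rw [hc, if_neg (not_lt.2 hj)]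
    have hnd : ¬ (X ^ p - C (uu p) : (LaurentSeries (ZMod p))[X]) ∣ A := by
      intro hd
      have h1 := degree_le_of_dvd hd hA0
      rw [degree_X_pow_sub_C hp.out.pos] at h1
      exact absurd hdeg (not_lt.2 h1)
    obtain ⟨x, y, hxy⟩ := (hB.coprime_iff_not_dvd).2 hnd
    have h2 := congrArg (eval₂ (frobenius (LaurentSeries (ZMod p)) p) (uu p)) hxy
    rw [eval₂_add, eval₂_mul, eval₂_mul, eval₂_sub, eval₂_pow, eval₂_X, eval₂_C, eval₂_one] at h2
    have h3 : eval₂ (frobenius (LaurentSeries (ZMod p)) p) (uu p) A = 0 := by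
      rw [hA, eval₂_finsetSum, ← h]
      refine Finset.sum_congr rfl fun i _ => ?_
      rw [eval₂_mul, eval₂_C, eval₂_pow, eval₂_X, frobenius_def, mul_comm]
    rw [h3, frobenius_def, sub_self, mul_zero, mul_zero, add_zero] at h2
    exact zero_ne_one h2

theorem reidx {M : Type} [AddCommMonoid M] (f : ℕ → M) (r q : ℕ) (hr : 0 < r) :
    ∑ k ∈ Finset.range (r * q), f k =
      ∑ i ∈ Finset.range r, ∑ j ∈ Finset.range q, f (i + r * j) := by
  rw [← Finset.sum_product' (Finset.range r) (Finset.range q) (fun i j => f (i + r * j))]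
  symm
  refine Finset.sum_nbij' (fun x => x.1 + r * x.2) (fun k => (k % r, k / r)) ?_ ?_ ?_ ?_ ?_
  · rintro ⟨i, j⟩ hx
    rw [Finset.mem_product, Finset.mem_range, Finset.mem_range] at hx
    rw [Finset.mem_range]
    have h1 : r * (j + 1) ≤ r * q := Nat.mul_le_mul_left r hx.2
    have h2 : i < r := hx.1
    show i + r * j < r * q
    linarith [Nat.mul_succ r j]
  · intro k hk
    rw [Finset.mem_range] at hk
    rw [Finset.mem_product, Finset.mem_range, Finset.mem_range]
    exact ⟨Nat.mod_lt _ hr, Nat.div_lt_of_lt_mul hk⟩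
  · rintro ⟨i, j⟩ hx
    rw [Finset.mem_product, Finset.mem_range, Finset.mem_range] at hx
    have h2 : i < r := hx.1
    refine Prod.ext ?_ ?_
    · show (i + r * j) % r = i
      rw [Nat.add_mul_mod_self_left, Nat.mod_eq_of_lt h2]
    · show (i + r * j) / r = j
      rw [Nat.add_mul_div_left _ _ hr, Nat.div_eq_of_lt h2, zero_add]
  · intro k _
    exact Nat.mod_add_div k r
  · intro x _
    rfl

theorem step (m : ℕ) (c : ℕ → LaurentSeries (ZMod p)) :
    ∑ k ∈ Finset.range (p ^ (m + 1)), (uu p) ^ k * (c k) ^ (p ^ (m + 1)) =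
      ∑ i ∈ Finset.range p, (uu p) ^ i *
        (∑ j ∈ Finset.range (p ^ m), (uu p) ^ j * (c (i + p * j)) ^ (p ^ m)) ^ p := by
  have : CharP (LaurentSeries (ZMod p)) p := Pool.Agent.Y15.UF.inst_char
  have h1 : p ^ (m + 1) = p * p ^ m := pow_succ' p m
  rw [h1, reidx _ p (p ^ m) hp.out.pos]
  refine Finset.sum_congr rfl fun i _ => ?_
  rw [sum_pow_char, Finset.mul_sum]
  refine Finset.sum_congr rfl fun j _ => ?_
  rw [pow_add, mul_pow, ← pow_mul, ← pow_mul, mul_comm p j, mul_comm p (p ^ m), mul_assoc]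

end

end BASAux

open BASAux in
theorem BAS_ok : S_BAS := by
  intro p hp m
  have hp0 : 0 < p := hp.out.pos
  induction m with
  | zero =>
    constructor
    · intro x
      exact ⟨fun _ => x, by simp⟩
    · intro a ha i hi
      have h1 : i = 0 := by
        rw [pow_zero] at hi
        omega
      subst h1
      simpa using ha
  | succ m ih =>
    constructor
    · intro x
      obtain ⟨b, hb⟩ := ex1 x
      choose a ha using fun i => ih.1 (b i)
      refine ⟨fun k => a (k % p) (k / p), ?_⟩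
      rw [step m (fun k => a (k % p) (k / p))]
      refine hb.trans (Finset.sum_congr rfl fun i hi => ?_)
      congr 2
      refine (ha i).trans (Finset.sum_congr rfl fun j _ => ?_)
      have h2 : i < p := Finset.mem_range.1 hi
      have h3 : (i + p * j) % p = i := by
        rw [Nat.add_mul_mod_self_left, Nat.mod_eq_of_lt h2]
      have h4 : (i + p * j) / p = j := by
        rw [Nat.add_mul_div_left _ _ hp0, Nat.div_eq_of_lt h2, zero_add]
      show _ = (uu p) ^ j * (a ((i + p * j) % p) ((i + p * j) / p)) ^ (p ^ m)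
      rw [h3, h4]
    · intro c hc k hk
      rw [step m c] at hc
      have h1 := uniq1 _ hc
      have h2 : k / p < p ^ m := by
        rw [pow_succ'] at hk
        exact Nat.div_lt_of_lt_mul hk
      have h3 := ih.2 (fun j => c (k % p + p * j)) (h1 (k % p) (Nat.mod_lt _ hp0)) (k / p) h2
      rwa [Nat.mod_add_div] at h3

end Pool.Agent.U69.FE
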