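import Pool.Agent.U69.FE.Stm4
import Pool.Agent.Y15.UF.Res

/-!
# Project AU (helper69), package DER: a derivation of `F_p((t))` with `θ (1 + t) = 1 + t` (MP_db9079_lc)
-/

set_option autoImplicit false

namespace Pool.Agent.U69.FE

namespace DERAux

variable {p : ℕ} [hp : Fact p.Prime]

/-- the operator `t d/dt` -/
noncomputable def EE (x : LaurentSeries (ZMod p)) : LaurentSeries (ZMod p) where
  coeff := fun k => (k : ZMod p) * x.coeff k
  isPWO_support' := x.isPWO_support.mono fun k hk h0 => hk (by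
    change (k : ZMod p) * x.coeff k = 0
    rw [h0, mul_zero])

theorem EE_coeff (x : LaurentSeries (ZMod p)) (k : ℤ) : (EE x).coeff k = (k : ZMod p) * x.coeff k :=
  rfl

theorem EE_support (x : LaurentSeries (ZMod p)) : (EE x).support ⊆ x.support := by
  intro k hk h0
  apply hk
  rw [EE_coeff, h0, mul_zero]

theorem EE_add (x y : LaurentSeries (ZMod p)) : EE (x + y) = EE x + EE y := by
  ext k
  rw [EE_coeff, HahnSeries.coeff_add, HahnSeries.coeff_add, EE_coeff, EE_coeff, mul_add]

theorem EE_mul (x y : LaurentSeries (ZMod p)) : EE (x * y) = x * EE y + y * EE x := by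
  rw [mul_comm y (EE x)]
  ext k
  rw [EE_coeff, HahnSeries.coeff_add, HahnSeries.coeff_mul,
    HahnSeries.coeff_mul_right' y.isPWO_support (EE_support y),
    HahnSeries.coeff_mul_left' x.isPWO_support (EE_support x), Finset.mul_sum,
    ← Finset.sum_add_distrib]
  refine Finset.sum_congr rfl fun ij hij => ?_
  rw [EE_coeff, EE_coeff]
  have h1 : ij.1 + ij.2 = k := (Finset.mem_antidiagonal.1 hij).2.2
  rw [← h1]
  push_cast
  ring

/-- the derivation `(1 + t) d/dt` -/
noncomputable def TH (x : LaurentSeries (ZMod p)) : LaurentSeries (ZMod p) :=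
  (1 + HahnSeries.single (-1 : ℤ) (1 : ZMod p)) * EE x

theorem TH_coeff (x : LaurentSeries (ZMod p)) (k : ℤ) :
    (TH x).coeff k = (k : ZMod p) * x.coeff k + ((k + 1 : ℤ) : ZMod p) * x.coeff (k + 1) := by
  unfold TH
  rw [add_mul, one_mul, HahnSeries.coeff_add, HahnSeries.coeff_single_mul, one_mul, sub_neg_eq_add,
    EE_coeff, EE_coeff]

theorem ne0 : (1 + HahnSeries.single (-1 : ℤ) (1 : ZMod p) : LaurentSeries (ZMod p)) ≠ 0 := by
  intro h
  have h1 := congrArg (fun y : LaurentSeries (ZMod p) => y.coeff (-1)) h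
  simp only [HahnSeries.coeff_add, HahnSeries.coeff_zero] at h1
  rw [HahnSeries.coeff_one, if_neg (by norm_num), HahnSeries.coeff_single_same, zero_add] at h1
  exact one_ne_zero h1

theorem EE_one : EE (1 : LaurentSeries (ZMod p)) = 0 := by
  ext k
  rw [EE_coeff, HahnSeries.coeff_one, HahnSeries.coeff_zero]
  by_cases hk : k = 0
  · rw [hk, Int.cast_zero, zero_mul]
  · rw [if_neg hk, mul_zero]

theorem EE_tt : EE (tt p) = tt p := by
  ext k
  rw [EE_coeff]
  unfold tt
  rw [HahnSeries.coeff_single]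
  by_cases hk : k = 1
  · rw [if_pos hk, hk, Int.cast_one, mul_one]
  · rw [if_neg hk, mul_zero]

end DERAux

open DERAux in
theorem DER_ok : S_DER := by
  intro p hp
  refine ⟨TH, ?_, ?_, ?_, ?_, ?_⟩
  · intro x y
    unfold TH
    rw [EE_add, mul_add]
  · intro x y
    unfold TH
    rw [EE_mul]
    ring
  · unfold TH uu
    rw [EE_add, EE_one, EE_tt, zero_add, add_mul, one_mul, add_comm]
    congr 1
    unfold tt
    rw [HahnSeries.single_mul_single, neg_add_cancel, mul_one]
    rfl
  · intro n x hx k hk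
    rw [TH_coeff, hx k (by omega), hx (k + 1) (by omega), mul_zero, mul_zero, add_zero]
  · intro x hx
    have hE : EE x = 0 := by
      rcases mul_eq_zero.1 hx with h | h
      · exact absurd h ne0
      · exact h
    obtain ⟨B, hB⟩ := Pool.Agent.Y15.UF.exists_bd x
    have hp1 : (0 : ℤ) < p := by exact_mod_cast hp.out.pos
    obtain ⟨w, hw⟩ : ∃ w : LaurentSeries (ZMod p), ∀ m, w.coeff m = x.coeff (p * m) := by
      refine ⟨HahnSeries.ofSuppBddBelow (fun m => x.coeff (p * m)) ⟨-(B : ℤ), ?_⟩, fun m => rfl⟩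
      intro m hm
      by_contra h1
      apply hm
      refine hB _ ?_
      push Not at h1
      have h2 : (p : ℤ) * m ≤ 1 * m := mul_le_mul_of_nonpos_right (by omega) (by omega)
      omega
    refine ⟨w, ?_⟩
    ext n
    rw [Pool.Agent.Y15.UF.coeff_pow]
    by_cases h1 : (p : ℤ) ∣ n
    · rw [if_pos h1, hw, Int.mul_ediv_cancel' h1]
    · rw [if_neg h1]
      have h2 := congrArg (fun y : LaurentSeries (ZMod p) => y.coeff n) hE
      simp only [HahnSeries.coeff_zero] at h2
      rw [EE_coeff] at h2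
      rcases mul_eq_zero.1 h2 with h3 | h3
      · exact absurd ((ZMod.intCast_zmod_eq_zero_iff_dvd n p).1 h3) h1
      · exact h3

end Pool.Agent.U69.FE
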