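import Pool.Agent.U69.FE.Stm4

set_option autoImplicit false

namespace Pool.Agent.U69.FE

namespace EIGAux

variable {p : ℕ} [hp : Fact p.Prime]

theorem charL : CharP (LaurentSeries (ZMod p)) p :=
  charP_of_injective_ringHom (f := (HahnSeries.C : ZMod p →+* LaurentSeries (ZMod p)))
    HahnSeries.C_injective p

theorem Dv_mono {m n : ℤ} {x : LaurentSeries (ZMod p)} (h : m ≤ n) (hx : Dv n x) : Dv m x :=
  fun k hk => hx k (lt_of_lt_of_le hk h)

theorem Dv_zero (n : ℤ) : Dv n (0 : LaurentSeries (ZMod p)) := fun _ _ => HahnSeries.coeff_zero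

theorem Dv_add {n : ℤ} {x y : LaurentSeries (ZMod p)} (hx : Dv n x) (hy : Dv n y) :
    Dv n (x + y) := fun k hk => by
  rw [HahnSeries.coeff_add, hx k hk, hy k hk, add_zero]

theorem Dv_sub {n : ℤ} {x y : LaurentSeries (ZMod p)} (hx : Dv n x) (hy : Dv n y) :
    Dv n (x - y) := fun k hk => by
  rw [HahnSeries.coeff_sub, hx k hk, hy k hk, sub_zero]

theorem Dv_iff {n : ℤ} {x : LaurentSeries (ZMod p)} (h0 : x ≠ 0) : Dv n x ↔ n ≤ x.order := by
  constructor
  · intro h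
    by_contra h1
    exact h0 (HahnSeries.coeff_order_eq_zero.1 (h _ (not_le.1 h1)))
  · intro h k hk
    exact HahnSeries.coeff_eq_zero_of_lt_order (lt_of_lt_of_le hk h)

theorem Dv_mul {m n : ℤ} {x y : LaurentSeries (ZMod p)} (hx : Dv m x) (hy : Dv n y) :
    Dv (m + n) (x * y) := by
  by_cases h0 : x = 0
  · rw [h0, zero_mul]
    exact Dv_zero _
  by_cases h1 : y = 0
  · rw [h1, mul_zero]
    exact Dv_zero _
  rw [Dv_iff h0] at hx
  rw [Dv_iff h1] at hy
  rw [Dv_iff (mul_ne_zero h0 h1), HahnSeries.order_mul h0 h1]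
  exact add_le_add hx hy

theorem Dv_one : Dv 0 (1 : LaurentSeries (ZMod p)) := by
  rw [Dv_iff one_ne_zero, HahnSeries.order_one]

theorem Dv_pow {x : LaurentSeries (ZMod p)} (hx : Dv 1 x) (n : ℕ) : Dv (n : ℤ) (x ^ n) := by
  induction n with
  | zero => rw [pow_zero]; exact Dv_one
  | succ n ih =>
    rw [pow_succ]
    push_cast
    exact Dv_mul ih hx

/-- one-units have order zero -/
theorem U1_zero {x : LaurentSeries (ZMod p)} (hx : Dv 1 (x - 1)) : Dv 0 x := by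
  have h := Dv_add (Dv_mono (by norm_num) hx : Dv 0 (x - 1)) (Dv_one (p := p))
  rwa [sub_add_cancel] at h

theorem U1_coeff {x : LaurentSeries (ZMod p)} (hx : Dv 1 (x - 1)) : x.coeff 0 = 1 := by
  have h := hx 0 (by norm_num)
  rw [HahnSeries.coeff_sub, HahnSeries.coeff_one, if_pos rfl, sub_eq_zero] at h
  exact h

theorem U1_ne {x : LaurentSeries (ZMod p)} (hx : Dv 1 (x - 1)) : x ≠ 0 := by
  intro h
  have h1 := U1_coeff hx
  rw [h, HahnSeries.coeff_zero] at h1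
  exact zero_ne_one h1

theorem U1_order {x : LaurentSeries (ZMod p)} (hx : Dv 1 (x - 1)) : x.order = 0 := by
  refine le_antisymm ?_ ((Dv_iff (U1_ne hx)).1 (U1_zero hx))
  refine HahnSeries.order_le_of_coeff_ne_zero ?_
  rw [U1_coeff hx]
  exact one_ne_zero

theorem U1_pow {a : LaurentSeries (ZMod p)} (ha : Dv 1 (a - 1)) (n : ℕ) : Dv 1 (a ^ n - 1) := by
  induction n with
  | zero => rw [pow_zero, sub_self]; exact Dv_zero 1
  | succ n ih =>
    have e : a ^ (n + 1) - 1 = (a ^ n - 1) * a + (a - 1) := by rw [pow_succ]; ring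
    rw [e]
    have := Dv_mul ih (U1_zero ha)
    rw [add_zero] at this
    exact Dv_add this ha

theorem U1_div {x w y : LaurentSeries (ZMod p)} (hx : Dv 1 (x - 1)) (hw : Dv 1 (w - 1)) (h : y * w = x) :
    Dv 1 (y - 1) := by
  have hy : y ≠ 0 := by
    intro h0
    rw [h0, zero_mul] at h
    exact U1_ne hx h.symm
  have ho : y.order = 0 := by
    have h1 := HahnSeries.order_mul hy (U1_ne hw)
    rw [h, U1_order hx, U1_order hw, add_zero] at h1
    exact h1.symm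
  have hy0 : Dv 0 y := (Dv_iff hy).2 ho.ge
  have e : y - 1 = (x - 1) - y * (w - 1) := by rw [← h]; ring
  rw [e]
  have := Dv_mul hy0 hw
  rw [zero_add] at this
  exact Dv_sub hx this

theorem U1_root {z : LaurentSeries (ZMod p)} (hz : Dv 1 (z ^ p - 1)) : Dv 1 (z - 1) := by
  have : CharP (LaurentSeries (ZMod p)) p := charL
  by_cases h0 : z - 1 = 0
  · rw [h0]; exact Dv_zero 1
  have e : z ^ p - 1 = (z - 1) ^ p := by rw [sub_pow_char, one_pow]
  rw [e, Dv_iff (pow_ne_zero _ h0), HahnSeries.order_pow] at hz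
  rw [Dv_iff h0]
  rw [nsmul_eq_mul] at hz
  have hp0 : (0 : ℤ) < p := by exact_mod_cast hp.out.pos
  by_contra hn
  have h1 : (z - 1).order ≤ 0 := by omega
  have h2 : (p : ℤ) * (z - 1).order ≤ 0 := mul_nonpos_of_nonneg_of_nonpos hp0.le h1
  omega

theorem U1_uu : Dv 1 (uu p - 1) := by
  have e : uu p - 1 = tt p := by unfold uu; ring
  rw [e]
  intro k hk
  exact HahnSeries.coeff_single_of_ne hk.ne

section

variable {θ : LaurentSeries (ZMod p) → LaurentSeries (ZMod p)} (hadd : ∀ x y, θ (x + y) = θ x + θ y)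
  (hmul : ∀ x y, θ (x * y) = x * θ y + y * θ x) (hu : θ (uu p) = uu p)

include hmul in
theorem th_one : θ 1 = 0 := by
  have h := hmul 1 1
  rw [one_mul, one_mul] at h
  exact left_eq_add.1 h

include hmul in
theorem th_pow (x : LaurentSeries (ZMod p)) (n : ℕ) : θ (x ^ (n + 1)) = ((n + 1 : ℕ) : LaurentSeries (ZMod p)) * x ^ n * θ x := by
  induction n with
  | zero => simp
  | succ n ih =>
    rw [pow_succ, hmul, ih]
    push_cast
    ring

include hmul hu in
theorem th_uu (i : ℕ) : θ ((uu p) ^ i) = (i : LaurentSeries (ZMod p)) * (uu p) ^ i := by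
  cases i with
  | zero => rw [pow_zero, th_one hmul]; simp
  | succ n =>
    rw [th_pow hmul, hu]
    ring

include hmul in
theorem th_p (x : LaurentSeries (ZMod p)) : θ (x ^ p) = 0 := by
  have : CharP (LaurentSeries (ZMod p)) p := charL
  obtain ⟨n, hn⟩ : ∃ n, p = n + 1 := ⟨p - 1, by have := hp.out.pos; omega⟩
  have h1 : θ (x ^ (n + 1)) = 0 := by
    rw [th_pow hmul, ← hn, CharP.cast_eq_zero (LaurentSeries (ZMod p)) p]
    ring
  have h2 : x ^ p = x ^ (n + 1) := congrArg (fun k => x ^ k) hn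
  rw [h2]
  exact h1

include hadd hmul hu in
theorem th_sum (s : Finset ℕ) (e : ℕ → ℕ) (a : ℕ → LaurentSeries (ZMod p)) :
    θ (∑ i ∈ s, (uu p) ^ (e i) * (a i) ^ p) =
      ∑ i ∈ s, (e i : LaurentSeries (ZMod p)) * ((uu p) ^ (e i) * (a i) ^ p) := by
  have h := map_sum (AddMonoidHom.mk' θ hadd) (fun i => (uu p) ^ (e i) * (a i) ^ p) s
  have h' : θ (∑ i ∈ s, (uu p) ^ (e i) * (a i) ^ p) = ∑ i ∈ s, θ ((uu p) ^ (e i) * (a i) ^ p) := h
  rw [h']
  refine Finset.sum_congr rfl fun i _ => ?_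
  rw [hmul, th_p hmul, th_uu hmul hu]
  ring

end

section

variable {κ : ℕ} (hκ : ¬ p ∣ κ) (g : LaurentSeries (ZMod p) ≃+* LaurentSeries (ZMod p))
  (hgu : g (uu p) = (uu p) ^ κ)
  {θ : LaurentSeries (ZMod p) → LaurentSeries (ZMod p)} (hadd : ∀ x y, θ (x + y) = θ x + θ y)
  (hmul : ∀ x y, θ (x * y) = x * θ y + y * θ x) (hu : θ (uu p) = uu p)
  (hB : (∀ x : LaurentSeries (ZMod p), ∃ a : ℕ → LaurentSeries (ZMod p),
    x = ∑ i ∈ Finset.range p, (uu p) ^ i * (a i) ^ p))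
  (hB2 : ∀ a : ℕ → LaurentSeries (ZMod p),
    ∑ i ∈ Finset.range p, (uu p) ^ i * (a i) ^ p = 0 → ∀ i < p, a i = 0)

include hgu hadd hmul hu hB in
theorem th_g (x : LaurentSeries (ZMod p)) : θ (g x) = (κ : LaurentSeries (ZMod p)) * g (θ x) := by
  obtain ⟨a, ha⟩ := hB x
  have h1 : g x = ∑ i ∈ Finset.range p, (uu p) ^ (κ * i) * (g (a i)) ^ p := by
    rw [ha, map_sum]
    refine Finset.sum_congr rfl fun i _ => ?_
    rw [map_mul, map_pow, map_pow, hgu, ← pow_mul]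
  have h2 : θ x = ∑ i ∈ Finset.range p, (i : LaurentSeries (ZMod p)) * ((uu p) ^ i * (a i) ^ p) := by
    rw [ha]
    exact th_sum hadd hmul hu (Finset.range p) (fun i => i) a
  have h3 : g (θ x) = ∑ i ∈ Finset.range p, (i : LaurentSeries (ZMod p)) * ((uu p) ^ (κ * i) * (g (a i)) ^ p) := by
    rw [h2, map_sum]
    refine Finset.sum_congr rfl fun i _ => ?_
    rw [map_mul, map_natCast, map_mul, map_pow, map_pow, hgu, ← pow_mul]
  rw [h1, h3, th_sum hadd hmul hu (Finset.range p) (fun i => κ * i) (fun i => g (a i)), Finset.mul_sum]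
  refine Finset.sum_congr rfl fun i _ => ?_
  push_cast
  ring

include hκ hgu hadd hmul hu hB hB2 in
theorem step (hκ2 : 2 ≤ κ) (hF : ∀ h, g h = h → ∃ c : ZMod p, h = HahnSeries.C c)
    (x : LaurentSeries (ZMod p)) (hx : Dv 1 (x - 1)) (hgx : g x = x ^ κ) :
    ∃ (c : ℕ) (y : LaurentSeries (ZMod p)), x = (uu p) ^ c * y ^ p ∧ Dv 1 (y - 1) ∧ g y = y ^ κ := by
  have : CharP (LaurentSeries (ZMod p)) p := charL
  have hx0 := U1_ne hx
  obtain ⟨k, rfl⟩ : ∃ k, κ = k + 1 := ⟨κ - 1, by omega⟩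
  have hk0 : ((k + 1 : ℕ) : LaurentSeries (ZMod p)) ≠ 0 := by
    intro h
    exact hκ ((CharP.cast_eq_zero_iff (LaurentSeries (ZMod p)) p (k + 1)).1 h)
  have h1 := th_g g hgu hadd hmul hu hB x
  rw [hgx, th_pow hmul, mul_assoc] at h1
  have h2 : x ^ k * θ x = g (θ x) := mul_left_cancel₀ hk0 h1
  have h3 : g (θ x / x) = θ x / x := by
    rw [map_div₀, ← h2, hgx, pow_succ]
    field_simp
  obtain ⟨c, hc⟩ := hF _ h3
  have h4 : θ x = HahnSeries.C c * x := by
    rw [← hc]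
    field_simp
  obtain ⟨a, ha⟩ := hB x
  have h5 : θ x = ∑ i ∈ Finset.range p, (i : LaurentSeries (ZMod p)) * ((uu p) ^ i * (a i) ^ p) := by
    rw [ha]
    exact th_sum hadd hmul hu (Finset.range p) (fun i => i) a
  have h6 : ∀ i < p, HahnSeries.C ((i : ZMod p) - c) * a i = 0 := by
    refine hB2 (fun i => HahnSeries.C ((i : ZMod p) - c) * a i) ?_
    have h7 : ∑ i ∈ Finset.range p, (uu p) ^ i * (HahnSeries.C ((i : ZMod p) - c) * a i) ^ p =
        θ x - HahnSeries.C c * x := by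
      rw [h5]
      conv_rhs => rw [ha]
      rw [Finset.mul_sum, ← Finset.sum_sub_distrib]
      refine Finset.sum_congr rfl fun i _ => ?_
      rw [mul_pow, ← map_pow, ZMod.pow_card, map_sub, map_natCast]
      ring
    rw [h7, h4, sub_self]
  have hcp : c.val < p := ZMod.val_lt c
  have h8 : ∀ i < p, i ≠ c.val → a i = 0 := by
    intro i hi hic
    have h9 := h6 i hi
    rcases mul_eq_zero.1 h9 with h10 | h10
    · exfalso
      apply hic
      have h11 : (i : ZMod p) - c = 0 := by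
        apply HahnSeries.C_injective (Γ := ℤ)
        rw [h10, map_zero]
      have h12 : (i : ZMod p) = c := sub_eq_zero.1 h11
      rw [← h12, ZMod.val_natCast, Nat.mod_eq_of_lt hi]
    · exact h10
  have h9 : x = (uu p) ^ c.val * (a c.val) ^ p := by
    conv_lhs => rw [ha]
    refine Finset.sum_eq_single c.val (fun i hi hic => ?_) (fun h => ?_)
    · rw [h8 i (Finset.mem_range.1 hi) hic, zero_pow hp.out.ne_zero, mul_zero]
    · exact absurd (Finset.mem_range.2 hcp) h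
  refine ⟨c.val, a c.val, h9, ?_, ?_⟩
  · refine U1_root (U1_div hx (U1_pow U1_uu c.val) ?_)
    rw [mul_comm]
    exact h9.symm
  · have h10 : g x = (uu p) ^ ((k + 1) * c.val) * (g (a c.val)) ^ p := by
      conv_lhs => rw [h9]
      rw [map_mul, map_pow, map_pow, hgu, ← pow_mul]
    have h11 : x ^ (k + 1) = (uu p) ^ ((k + 1) * c.val) * ((a c.val) ^ (k + 1)) ^ p := by
      conv_lhs => rw [h9]
      rw [mul_pow, ← pow_mul, ← pow_mul, ← pow_mul, mul_comm c.val, mul_comm p]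
    rw [h10, h11] at hgx
    have h12 := mul_left_cancel₀ (pow_ne_zero _ (U1_ne U1_uu)) hgx
    exact frobenius_inj (LaurentSeries (ZMod p)) p h12

include hκ hgu hadd hmul hu hB hB2 in
theorem iter (hκ2 : 2 ≤ κ) (hF : ∀ h, g h = h → ∃ c : ZMod p, h = HahnSeries.C c)
    (x : LaurentSeries (ZMod p)) (hx : Dv 1 (x - 1)) (hgx : g x = x ^ κ) (m : ℕ) :
    ∃ (n : ℕ) (y : LaurentSeries (ZMod p)), x = (uu p) ^ n * y ^ (p ^ m) ∧ Dv 1 (y - 1) ∧ g y = y ^ κ := by
  induction m with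
  | zero => exact ⟨0, x, by simp, hx, hgx⟩
  | succ m ih =>
    obtain ⟨n, y, h1, h2, h3⟩ := ih
    obtain ⟨c, z, h4, h5, h6⟩ := step hκ g hgu hadd hmul hu hB hB2 hκ2 hF y h2 h3
    refine ⟨n + c * p ^ m, z, ?_, h5, h6⟩
    rw [h1, h4, mul_pow, ← pow_mul, ← pow_mul, ← mul_assoc, ← pow_add, ← pow_succ']

end

end EIGAux

open EIGAux in
theorem EIG_ok (hD : S_DER) (hB : S_BAS) (hF : S_FIXG) : S_EIG := by
  intro p _ κ hκ2 hκ g hg hgu x hx hgx M
  have : CharP (LaurentSeries (ZMod p)) p := charL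
  obtain ⟨θ, hadd, hmul, hu, -, -⟩ := hD p
  obtain ⟨hB1, hB2⟩ := hB p 1
  simp only [pow_one] at hB1 hB2
  have hp1 : 1 < p := (Fact.out : p.Prime).one_lt
  obtain ⟨n, y, h1, h2, -⟩ := iter hκ g hgu hadd hmul hu hB1 hB2 hκ2 (hF p κ hκ2 hκ g hg hgu) x hx hgx M.toNat
  refine ⟨n, ?_⟩
  have e : x - (uu p) ^ n = (uu p) ^ n * (y - 1) ^ (p ^ M.toNat) := by
    rw [sub_pow_char_pow, one_pow, h1]
    ring
  rw [e]
  have h3 := Dv_mul (U1_zero (U1_pow (U1_uu (p := p)) n)) (Dv_pow h2 (p ^ M.toNat))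
  refine Dv_mono ?_ h3
  rw [zero_add]
  have h4 : M.toNat < p ^ M.toNat := Nat.lt_pow_self hp1
  have h5 : M ≤ M.toNat := Int.self_le_toNat M
  have h6 : ((M.toNat : ℕ) : ℤ) < ((p ^ M.toNat : ℕ) : ℤ) := by exact_mod_cast h4
  omega

end Pool.Agent.U69.FE
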