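import Pool.Agent.U69.FE.Stm4
import Pool.Agent.U69.FE.SUR

set_option autoImplicit false

namespace Pool.Agent.U69.FE

namespace EXGAux

variable {p : ℕ} [Fact p.Prime]

/-- the embedding of the power series -/
noncomputable abbrev io (p : ℕ) [Fact p.Prime] : PowerSeries (ZMod p) →+* LaurentSeries (ZMod p) :=
  HahnSeries.ofPowerSeries ℤ (ZMod p)

theorem io_ne {f : PowerSeries (ZMod p)} (h : f ≠ 0) : io p f ≠ 0 := by
  intro h0
  apply h
  apply HahnSeries.ofPowerSeries_injective (Γ := ℤ)
  rw [h0, map_zero]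

/-- every nonzero power series is a power of the variable times a unit -/
theorem decomp {f : PowerSeries (ZMod p)} (h : f ≠ 0) :
    ∃ (n : ℕ) (u : PowerSeries (ZMod p)), f = PowerSeries.X ^ n * u ∧ PowerSeries.constantCoeff u ≠ 0 := by
  classical
  have h1 : ∃ n, PowerSeries.coeff n f ≠ 0 := by
    by_contra hcon
    push Not at hcon
    exact h (PowerSeries.ext fun n => by rw [hcon n, map_zero])
  obtain ⟨n, hn, hlt⟩ : ∃ n, PowerSeries.coeff n f ≠ 0 ∧ ∀ m < n, PowerSeries.coeff m f = 0 :=
    ⟨Nat.find h1, Nat.find_spec h1, fun m hm => not_not.1 (Nat.find_min h1 hm)⟩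
  obtain ⟨u, hu⟩ := PowerSeries.X_pow_dvd_iff.2 hlt
  refine ⟨n, u, hu, ?_⟩
  intro h0
  apply hn
  have h2 := PowerSeries.coeff_X_pow_mul u n 0
  rw [zero_add] at h2
  rw [hu, h2, PowerSeries.coeff_zero_eq_constantCoeff]
  exact h0

theorem order_io {f u : PowerSeries (ZMod p)} {n : ℕ} (h : f = PowerSeries.X ^ n * u)
    (hu : PowerSeries.constantCoeff u ≠ 0) : (io p f).order = n := by
  have h1 : (io p f).coeff n ≠ 0 := by
    rw [PowerSeries.coeff_coe, if_neg (by omega), Int.natAbs_natCast, h]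
    have h2 := PowerSeries.coeff_X_pow_mul u n 0
    rw [zero_add] at h2
    rw [h2, PowerSeries.coeff_zero_eq_constantCoeff]
    exact hu
  apply le_antisymm (HahnSeries.order_le_of_coeff_ne_zero h1)
  by_contra hcon
  rw [not_le] at hcon
  have h0 : io p f ≠ 0 := by
    intro h0
    apply h1
    rw [h0, HahnSeries.coeff_zero]
  apply h0
  rw [← HahnSeries.coeff_order_eq_zero, PowerSeries.coeff_coe]
  split_ifs with h2
  · rfl
  · have h3 : (io p f).order.natAbs < n := by omega
    exact PowerSeries.X_pow_dvd_iff.1 ⟨u, h⟩ _ h3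

end EXGAux

open EXGAux in
theorem EXG_ok : S_EXG := by
  intro p _ κ hκ
  obtain ⟨s, hs⟩ : ∃ s : PowerSeries (ZMod p), s = (1 + PowerSeries.X) ^ κ - 1 := ⟨_, rfl⟩
  have hs0 : PowerSeries.constantCoeff s = 0 := by
    rw [hs]
    simp
  obtain ⟨s1, hs1⟩ := PowerSeries.X_dvd_iff.2 hs0
  -- the linear coefficient
  have hs2 : PowerSeries.constantCoeff s1 ≠ 0 := by
    have h1 : PowerSeries.coeff 1 s = (κ : ZMod p) := by
      have h2 : s = (((1 + Polynomial.X : Polynomial (ZMod p)) ^ κ - 1 : Polynomial (ZMod p)) :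
          PowerSeries (ZMod p)) := by
        rw [hs]
        simp
      rw [h2, Polynomial.coeff_coe, Polynomial.coeff_sub, Polynomial.coeff_one_add_X_pow,
        Polynomial.coeff_one]
      simp
    have h3 : PowerSeries.coeff 1 s = PowerSeries.constantCoeff s1 := by
      have h2 := PowerSeries.coeff_X_pow_mul s1 1 0
      rw [zero_add, pow_one, PowerSeries.coeff_zero_eq_constantCoeff] at h2
      rw [hs1]
      exact h2
    rw [← h3, h1]
    intro h4
    exact hκ ((ZMod.natCast_eq_zero_iff κ p).1 h4)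
  have hsub : PowerSeries.HasSubst s := PowerSeries.HasSubst.of_constantCoeff_zero' hs0
  obtain ⟨S, hS⟩ : ∃ S : PowerSeries (ZMod p) →ₐ[ZMod p] PowerSeries (ZMod p),
      S = PowerSeries.substAlgHom hsub := ⟨_, rfl⟩
  have hSX : S PowerSeries.X = s := by rw [hS, PowerSeries.substAlgHom_X]
  have hSc : ∀ f, PowerSeries.constantCoeff (S f) = PowerSeries.constantCoeff f := by
    intro f
    obtain ⟨c, hc⟩ : ∃ c, c = PowerSeries.constantCoeff f := ⟨_, rfl⟩
    have h1 : PowerSeries.constantCoeff (f - algebraMap (ZMod p) (PowerSeries (ZMod p)) c) = 0 := by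
      rw [map_sub, ← hc, ← PowerSeries.C_eq_algebraMap, PowerSeries.constantCoeff_C, sub_self]
    obtain ⟨f1, hf1⟩ := PowerSeries.X_dvd_iff.2 h1
    have h2 : f = algebraMap (ZMod p) (PowerSeries (ZMod p)) c + PowerSeries.X * f1 := by
      rw [← hf1]
      ring
    rw [← hc, h2, map_add, map_mul, hSX, AlgHom.commutes, map_add, map_mul, hs0, zero_mul, add_zero,
      ← PowerSeries.C_eq_algebraMap, PowerSeries.constantCoeff_C]
  -- the order of the images
  have hord : ∀ f, f ≠ 0 → (io p (S f)).order = (io p f).order ∧ S f ≠ 0 := by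
    intro f hf
    obtain ⟨n, u, h1, h2⟩ := decomp hf
    have h3 : S f = PowerSeries.X ^ n * (s1 ^ n * S u) := by
      rw [h1, map_mul, map_pow, hSX, hs1]
      ring
    have h4 : PowerSeries.constantCoeff (s1 ^ n * S u) ≠ 0 := by
      rw [map_mul, map_pow, hSc]
      exact mul_ne_zero (pow_ne_zero _ hs2) h2
    refine ⟨by rw [order_io h3 h4, order_io h1 h2], ?_⟩
    rw [h3]
    refine mul_ne_zero (pow_ne_zero _ PowerSeries.X_ne_zero) ?_
    intro h5
    apply h4
    rw [h5, map_zero]
  have hinj : Function.Injective ((io p).comp (S : PowerSeries (ZMod p) →+* PowerSeries (ZMod p))) := by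
    rw [injective_iff_map_eq_zero]
    intro f hf
    by_contra h
    exact io_ne (hord f h).2 hf
  obtain ⟨σ, hσ⟩ : ∃ σ : LaurentSeries (ZMod p) →+* LaurentSeries (ZMod p),
      ∀ f : PowerSeries (ZMod p), σ (io p f) = io p (S f) := by
    refine ⟨IsFractionRing.lift (A := PowerSeries (ZMod p)) hinj, fun f => ?_⟩
    have h1 := IsFractionRing.lift_algebraMap (A := PowerSeries (ZMod p))
      (K := LaurentSeries (ZMod p)) hinj f
    rw [LaurentSeries.coe_algebraMap] at h1
    exact h1
  have hσo : ∀ x, x ≠ 0 → (σ x).order = x.order := by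
    intro x hx
    obtain ⟨a, b, hb, hab⟩ := IsFractionRing.div_surjective (A := PowerSeries (ZMod p)) x
    have hb0 : b ≠ 0 := nonZeroDivisors.ne_zero hb
    rw [LaurentSeries.coe_algebraMap] at hab
    have hb1 : io p b ≠ 0 := io_ne hb0
    have h1 : x * io p b = io p a := by
      rw [← hab]
      exact div_mul_cancel₀ _ hb1
    have ha0 : a ≠ 0 := by
      rintro rfl
      rw [map_zero] at h1
      exact mul_ne_zero hx hb1 h1
    have h2 : σ x * io p (S b) = io p (S a) := by rw [← hσ, ← hσ, ← map_mul, h1]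
    have h3 := congrArg HahnSeries.order h1
    have h4 := congrArg HahnSeries.order h2
    rw [HahnSeries.order_mul hx hb1] at h3
    rw [HahnSeries.order_mul ((map_ne_zero σ).2 hx) (io_ne (hord b hb0).2), (hord a ha0).1,
      (hord b hb0).1] at h4
    linarith
  have hsur : Function.Surjective σ := by
    have h := SUR_ok
    unfold S_SUR at h
    exact h p σ hσo
  refine ⟨RingEquiv.ofBijective σ ⟨σ.injective, hsur⟩, ?_⟩
  show σ (uu p) = (uu p) ^ κ
  have hu : uu p = io p (1 + PowerSeries.X) := by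
    rw [map_add, map_one, uu, tt, PowerSeries.coe_X]
  rw [hu, hσ, map_add, map_one, hSX, ← map_pow]
  congr 1
  rw [hs]
  ring

end Pool.Agent.U69.FE
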