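import Pool.Agent.U69.FE.Stm4

/-! Package FIXG of project AU9 (helper69): the fixed field of `1 + t ↦ (1 + t) ^ κ` (helper574). -/

set_option autoImplicit false

namespace Pool.Agent.U69.FE

namespace FIXGAux

variable {p : ℕ} [Fact p.Prime]

theorem char_inst : CharP (LaurentSeries (ZMod p)) p :=
  charP_of_injective_ringHom (f := (HahnSeries.C : ZMod p →+* LaurentSeries (ZMod p)))
    HahnSeries.C_injective p

theorem dv_zero (n : ℤ) : Dv n (0 : LaurentSeries (ZMod p)) := fun _ _ => HahnSeries.coeff_zero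

theorem dv_iff {n : ℤ} {x : LaurentSeries (ZMod p)} (h0 : x ≠ 0) : Dv n x ↔ n ≤ x.order := by
  constructor
  · intro h
    by_contra h1
    exact h0 (HahnSeries.coeff_order_eq_zero.1 (h _ (not_le.1 h1)))
  · intro h k hk
    exact HahnSeries.coeff_eq_zero_of_lt_order (lt_of_lt_of_le hk h)

theorem dv_mul {m n : ℤ} {x y : LaurentSeries (ZMod p)} (hx : Dv m x) (hy : Dv n y) :
    Dv (m + n) (x * y) := by
  by_cases h0 : x = 0
  · rw [h0, zero_mul]
    exact dv_zero _
  by_cases h1 : y = 0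
  · rw [h1, mul_zero]
    exact dv_zero _
  rw [dv_iff h0] at hx
  rw [dv_iff h1] at hy
  rw [dv_iff (mul_ne_zero h0 h1), HahnSeries.order_mul h0 h1]
  exact add_le_add hx hy

theorem order_inv {x : LaurentSeries (ZMod p)} (hx : x ≠ 0) : (x⁻¹).order = - x.order := by
  have h1 := HahnSeries.order_mul hx (inv_ne_zero hx)
  rw [mul_inv_cancel₀ hx, HahnSeries.order_one] at h1
  linarith

theorem u_ne : uu p ≠ 0 := by
  intro h
  have h1 : (uu p).coeff 0 = 0 := by rw [h]; rfl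
  unfold uu tt at h1
  rw [HahnSeries.coeff_add, HahnSeries.coeff_one, HahnSeries.coeff_single_of_ne (by norm_num)] at h1
  simp at h1

/-- the iterates -/
theorem iter (κ : ℕ) (g : LaurentSeries (ZMod p) ≃+* LaurentSeries (ZMod p))
    (ho : ∀ x, x ≠ 0 → (g x).order = x.order) (hu : g (uu p) = (uu p) ^ κ) (n : ℕ) :
    ∃ G : LaurentSeries (ZMod p) →+* LaurentSeries (ZMod p),
      (∀ x, x ≠ 0 → (G x).order = x.order) ∧ G (uu p) = (uu p) ^ (κ ^ n) ∧
      ∀ h, g h = h → G h = h := by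
  induction n with
  | zero =>
    refine ⟨RingHom.id _, fun x _ => rfl, ?_, fun h _ => rfl⟩
    rw [pow_zero, pow_one]
    rfl
  | succ n ih =>
    obtain ⟨G, h1, h2, h3⟩ := ih
    refine ⟨(g : LaurentSeries (ZMod p) →+* LaurentSeries (ZMod p)).comp G, ?_, ?_, ?_⟩
    · intro x hx
      have h4 : G x ≠ 0 := by
        rw [Ne, map_eq_zero]
        exact hx
      have h5 := ho (G x) h4
      rw [h1 x hx] at h5
      exact h5
    · show g (G (uu p)) = _
      rw [h2, map_pow, hu, ← pow_mul, pow_succ, mul_comm κ]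
    · intro h hh
      show g (G h) = h
      rw [h3 h hh, hh]

/-- derivation rules -/
theorem th_pow {θ : LaurentSeries (ZMod p) → LaurentSeries (ZMod p)}
    (hm : ∀ x y, θ (x * y) = x * θ y + y * θ x) (x : LaurentSeries (ZMod p)) :
    ∀ n : ℕ, θ (x ^ n) * x = (n : LaurentSeries (ZMod p)) * x ^ n * θ x := by
  have h1 : θ 1 = 0 := by
    have := hm 1 1
    rw [one_mul, one_mul] at this
    have h2 : θ 1 + θ 1 = θ 1 + 0 := by rw [add_zero]; exact this.symm
    exact add_left_cancel h2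
  intro n
  induction n with
  | zero => rw [pow_zero, h1, Nat.cast_zero]; ring
  | succ n ih =>
    rw [pow_succ, hm, Nat.cast_succ]
    linear_combination x * ih

theorem th_u {θ : LaurentSeries (ZMod p) → LaurentSeries (ZMod p)}
    (hm : ∀ x y, θ (x * y) = x * θ y + y * θ x) (hu : θ (uu p) = uu p) (n : ℕ) :
    θ ((uu p) ^ n) = (n : LaurentSeries (ZMod p)) * (uu p) ^ n := by
  have h := th_pow hm (uu p) n
  rw [hu] at h
  exact mul_right_cancel₀ u_ne h

theorem th_p {θ : LaurentSeries (ZMod p) → LaurentSeries (ZMod p)}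
    (hm : ∀ x y, θ (x * y) = x * θ y + y * θ x) (x : LaurentSeries (ZMod p)) :
    θ (x ^ p) = 0 := by
  have : CharP (LaurentSeries (ZMod p)) p := char_inst
  by_cases hx : x = 0
  · have h0 : θ 0 = 0 := by
      have := hm 0 0
      rw [zero_mul, zero_mul, zero_add] at this
      exact this
    rw [hx, zero_pow (Fact.out : p.Prime).ne_zero, h0]
  · have h := th_pow hm x p
    rw [CharP.cast_eq_zero, zero_mul, zero_mul] at h
    exact (mul_eq_zero.1 h).resolve_right hx

theorem th_sum {θ : LaurentSeries (ZMod p) → LaurentSeries (ZMod p)}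
    (ha : ∀ x y, θ (x + y) = θ x + θ y) (n : ℕ) (f : ℕ → LaurentSeries (ZMod p)) :
    θ (∑ i ∈ Finset.range n, f i) = ∑ i ∈ Finset.range n, θ (f i) := by
  have h0 : θ 0 = 0 := by
    have := ha 0 0
    rw [add_zero] at this
    have h2 : θ 0 + θ 0 = θ 0 + 0 := by rw [add_zero]; exact this.symm
    exact add_left_cancel h2
  induction n with
  | zero => rw [Finset.sum_range_zero, Finset.sum_range_zero, h0]
  | succ n ih => rw [Finset.sum_range_succ, Finset.sum_range_succ, ha, ih]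

/-- `θ (G x) = κ G (θ x)` -/
theorem th_G (hB : S_BAS) {θ : LaurentSeries (ZMod p) → LaurentSeries (ZMod p)}
    (ha : ∀ x y, θ (x + y) = θ x + θ y)
    (hm : ∀ x y, θ (x * y) = x * θ y + y * θ x) (hu : θ (uu p) = uu p)
    (G : LaurentSeries (ZMod p) →+* LaurentSeries (ZMod p)) (κ : ℕ)
    (hG : G (uu p) = (uu p) ^ κ) (x : LaurentSeries (ZMod p)) :
    θ (G x) = (κ : LaurentSeries (ZMod p)) * G (θ x) := by
  obtain ⟨a, hx⟩ := (hB p 1).1 x
  have h1 : ∀ (j : ℕ) (c : LaurentSeries (ZMod p)),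
      θ ((uu p) ^ j * c ^ p) = (j : LaurentSeries (ZMod p)) * ((uu p) ^ j * c ^ p) := by
    intro j c
    rw [hm, th_p hm, th_u hm hu]
    ring
  rw [pow_one] at hx
  have h2 : θ x = ∑ i ∈ Finset.range p, (i : LaurentSeries (ZMod p)) * ((uu p) ^ i * (a i) ^ p) := by
    rw [hx, th_sum ha]
    exact Finset.sum_congr rfl fun i _ => h1 i (a i)
  have h3 : G x = ∑ i ∈ Finset.range p, (uu p) ^ (κ * i) * (G (a i)) ^ p := by
    conv_lhs => rw [hx]
    rw [map_sum]
    refine Finset.sum_congr rfl fun i _ => ?_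
    rw [map_mul, map_pow, map_pow, hG, ← pow_mul]
  have h4 : G (θ x) = ∑ i ∈ Finset.range p,
      (i : LaurentSeries (ZMod p)) * ((uu p) ^ (κ * i) * (G (a i)) ^ p) := by
    rw [h2, map_sum]
    refine Finset.sum_congr rfl fun i _ => ?_
    rw [map_mul, map_mul, map_pow, map_pow, hG, ← pow_mul, map_natCast]
  rw [h4, h3, th_sum ha, Finset.mul_sum]
  refine Finset.sum_congr rfl fun i _ => ?_
  rw [h1]
  push_cast
  ring

/-- `κ ^ n - 1 = p ^ m b` -/
theorem expo (κ : ℕ) (hκ : 2 ≤ κ) (hp : ¬ p ∣ κ) :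
    ∃ n m b : ℕ, 2 ≤ m ∧ ¬ p ∣ b ∧ κ ^ n = 1 + p ^ m * b := by
  have hpp : p.Prime := Fact.out
  have hcop : Nat.Coprime κ (p ^ 2) := by
    refine Nat.Coprime.pow_right 2 ?_
    exact ((Nat.Prime.coprime_iff_not_dvd hpp).2 hp).symm
  have h1 := Nat.ModEq.pow_totient hcop
  obtain ⟨n, hn⟩ : ∃ n, n = Nat.totient (p ^ 2) := ⟨_, rfl⟩
  have hn0 : 0 < n := by rw [hn]; exact Nat.totient_pos.2 (pow_pos hpp.pos 2)
  rw [← hn] at h1
  have h2 : 1 < κ ^ n := Nat.one_lt_pow hn0.ne' (by omega)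
  have h3 : p ^ 2 ∣ κ ^ n - 1 := (Nat.modEq_iff_dvd' h2.le).1 h1.symm
  obtain ⟨m, b, hb, hmb⟩ := Nat.exists_eq_pow_mul_and_not_dvd (n := κ ^ n - 1) (by omega) p
    hpp.one_lt.ne'
  refine ⟨n, m, b, ?_, hb, by omega⟩
  by_contra hm
  push Not at hm
  rw [hmb] at h3
  have h4 : p ^ 2 = p ^ m * p ^ (2 - m) := by rw [← pow_add]; congr 1; omega
  rw [h4] at h3
  have h5 := Nat.dvd_of_mul_dvd_mul_left (pow_pos hpp.pos m) h3
  exact hb (dvd_trans (dvd_pow_self p (by omega)) h5)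

/-- step 1: an element fixed by `g` is a `p`-th power -/
theorem step1 (hD : S_DER) (hB : S_BAS) (hG : S_GEST) (κ : ℕ) (hκ : 2 ≤ κ) (hp : ¬ p ∣ κ)
    (g : LaurentSeries (ZMod p) ≃+* LaurentSeries (ZMod p))
    (ho : ∀ x, x ≠ 0 → (g x).order = x.order) (hu : g (uu p) = (uu p) ^ κ)
    (h : LaurentSeries (ZMod p)) (hh : g h = h) : ∃ y, h = y ^ p := by
  have : CharP (LaurentSeries (ZMod p)) p := char_inst
  have hpp : p.Prime := Fact.out
  obtain ⟨n, m, b, hm, hb, hn⟩ := expo κ hκ hp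
  obtain ⟨G, G1, G2, G3⟩ := iter κ g ho hu n
  have hGh := G3 h hh
  rw [hn] at G2
  obtain ⟨θ, T1, T2, T3, T4, -⟩ := hD p
  obtain ⟨a, ha⟩ := (hB p m).1 h
  have hcast : ((1 + p ^ m * b : ℕ) : LaurentSeries (ZMod p)) = 1 := by
    push_cast
    rw [CharP.cast_eq_zero, zero_pow (by omega), zero_mul, add_zero]
  have hTG : ∀ x, θ (G x) = G (θ x) := by
    intro x
    rw [th_G hB T1 T2 T3 G _ G2 x, hcast, one_mul]
  have hGest := hG p G G1 m b G2
  -- uniqueness
  have huniq : ∀ i < p ^ m, (uu p) ^ (i * b) * G (a i) - a i = 0 := by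
    refine (hB p m).2 (fun i => (uu p) ^ (i * b) * G (a i) - a i) ?_
    have e1 : G h = ∑ i ∈ Finset.range (p ^ m),
        (uu p) ^ i * ((uu p) ^ (i * b) * G (a i)) ^ (p ^ m) := by
      conv_lhs => rw [ha]
      rw [map_sum]
      refine Finset.sum_congr rfl fun i _ => ?_
      rw [map_mul, map_pow, map_pow, G2, mul_pow, ← mul_assoc, ← pow_mul, ← pow_mul, ← pow_add]
      congr 2
      ring
    have e2 : ∑ i ∈ Finset.range (p ^ m),
        (uu p) ^ i * ((uu p) ^ (i * b) * G (a i) - a i) ^ (p ^ m) = G h - h := by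
      rw [e1]
      conv_rhs => rw [ha]
      rw [← Finset.sum_sub_distrib]
      refine Finset.sum_congr rfl fun i _ => ?_
      rw [sub_pow_char_pow, mul_sub]
    rw [e2, hGh, sub_self]
  have hzero : ∀ i < p ^ m, ¬ p ∣ i → a i = 0 := by
    intro i hi hpi
    by_contra ha0
    have E1 : (uu p) ^ (i * b) * G (a i) = a i := sub_eq_zero.1 (huniq i hi)
    have hcne : ((i * b : ℕ) : ZMod p) ≠ 0 := by
      rw [Ne, ZMod.natCast_eq_zero_iff]
      intro hd
      rcases (Nat.Prime.dvd_mul hpp).1 hd with h1 | h1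
      · exact hpi h1
      · exact hb h1
    have E2 : θ (a i) = (uu p) ^ (i * b) * G (θ (a i)) +
        ((i * b : ℕ) : LaurentSeries (ZMod p)) * a i := by
      have e := congrArg θ E1
      rw [T2, hTG, th_u T2 T3] at e
      linear_combination (-1 : LaurentSeries (ZMod p)) * e +
        ((i * b : ℕ) : LaurentSeries (ZMod p)) * E1
    have hu0 : (uu p) ^ (i * b) ≠ 0 := pow_ne_zero _ u_ne
    have hGa : G (a i) ≠ 0 := by
      rw [Ne, map_eq_zero]
      exact ha0
    have E3 : G (θ (a i) * (a i)⁻¹) - θ (a i) * (a i)⁻¹ =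
        - ((i * b : ℕ) : LaurentSeries (ZMod p)) := by
      have e3 : G (θ (a i) * (a i)⁻¹) = ((uu p) ^ (i * b) * G (θ (a i))) * (a i)⁻¹ := by
        have einv : (a i)⁻¹ = ((uu p) ^ (i * b) * G (a i))⁻¹ := by rw [E1]
        rw [map_mul, map_inv₀, einv, mul_inv]
        field_simp
      have e4 : (uu p) ^ (i * b) * G (θ (a i)) = θ (a i) -
          ((i * b : ℕ) : LaurentSeries (ZMod p)) * a i := by
        rw [eq_sub_iff_add_eq]
        exact E2.symm
      rw [e3, e4]
      field_simp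
      ring
    have D1 : Dv (-1) (θ (a i) * (a i)⁻¹) := by
      have d1 : Dv ((a i).order) (a i) := (dv_iff ha0).2 le_rfl
      have d2 := T4 _ _ d1
      have d3 : Dv (-(a i).order) (a i)⁻¹ := by
        rw [dv_iff (inv_ne_zero ha0), order_inv ha0]
      have d4 := dv_mul d2 d3
      rwa [show (a i).order - 1 + -(a i).order = -1 by ring] at d4
    have D2 := hGest (-1) _ D1
    rw [E3] at D2
    have hp4 : (4 : ℤ) ≤ (p : ℤ) ^ m := by
      have h2 : (2 : ℤ) ≤ p := by exact_mod_cast hpp.two_le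
      calc (4 : ℤ) = 2 ^ 2 := by norm_num
        _ ≤ (p : ℤ) ^ 2 := pow_le_pow_left₀ (by norm_num) h2 2
        _ ≤ (p : ℤ) ^ m := pow_le_pow_right₀ (by linarith) hm
    have D3 := D2 0 (by linarith)
    have e5 : ((i * b : ℕ) : LaurentSeries (ZMod p)) = HahnSeries.C ((i * b : ℕ) : ZMod p) :=
      (map_natCast (HahnSeries.C : ZMod p →+* LaurentSeries (ZMod p)) _).symm
    rw [e5, HahnSeries.coeff_neg, neg_eq_zero] at D3
    apply hcne
    rw [← D3]
    show _ = (HahnSeries.single (0 : ℤ) (((i * b : ℕ) : ZMod p))).coeff 0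
    rw [HahnSeries.coeff_single_same]
  refine ⟨∑ i ∈ Finset.range (p ^ m),
    if p ∣ i then (uu p) ^ (i / p) * (a i) ^ (p ^ (m - 1)) else 0, ?_⟩
  rw [sum_pow_char]
  conv_lhs => rw [ha]
  refine Finset.sum_congr rfl fun i hi => ?_
  by_cases hpi : p ∣ i
  · rw [if_pos hpi, mul_pow, ← pow_mul, ← pow_mul, Nat.div_mul_cancel hpi, ← pow_succ]
    congr 3
    omega
  · rw [if_neg hpi, hzero i (Finset.mem_range.1 hi) hpi, zero_pow (pow_pos hpp.pos m).ne', mul_zero,
      zero_pow hpp.ne_zero]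

end FIXGAux

open FIXGAux

theorem FIXG_ok (hD : S_DER) (hB : S_BAS) (hG : S_GEST) : S_FIXG := by
  intro p _ κ hκ hp g ho hu
  have : CharP (LaurentSeries (ZMod p)) p := char_inst
  have hpp : p.Prime := Fact.out
  have hinj : ∀ a b : LaurentSeries (ZMod p), a ^ p = b ^ p → a = b := fun a b h =>
    frobenius_inj (LaurentSeries (ZMod p)) p h
  have hs : ∀ k : ℕ, ∀ h, g h = h → ∃ y, g y = y ∧ h = y ^ (p ^ k) := by
    intro k
    induction k with
    | zero => intro h hh; exact ⟨h, hh, by rw [pow_zero, pow_one]⟩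
    | succ k ih =>
      intro h hh
      obtain ⟨y, hy1, hy2⟩ := ih h hh
      obtain ⟨z, hz⟩ := step1 hD hB hG κ hκ hp g ho hu y hy1
      refine ⟨z, ?_, ?_⟩
      · apply hinj
        rw [← map_pow, ← hz, hy1]
      · rw [hy2, hz, ← pow_mul, pow_succ, mul_comm p]
  have hord : ∀ h, g h = h → h ≠ 0 → h.order = 0 := by
    intro h hh h0
    by_contra hne
    have h1 : ∀ k : ℕ, ((p ^ k : ℕ) : ℤ) ∣ h.order := by
      intro k
      obtain ⟨y, _, hy⟩ := hs k h hh
      rw [hy, HahnSeries.order_pow, nsmul_eq_mul]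
      exact Dvd.intro _ rfl
    have h2 := Int.le_of_dvd (abs_pos.2 hne) ((dvd_abs _ _).2 (h1 (h.order.natAbs)))
    have h3 : h.order.natAbs < p ^ h.order.natAbs := Nat.lt_pow_self hpp.one_lt
    have h4 : (h.order.natAbs : ℤ) < ((p ^ h.order.natAbs : ℕ) : ℤ) := by exact_mod_cast h3
    rw [Int.natCast_natAbs] at h4
    linarith
  have hgC : ∀ c : ZMod p, g (HahnSeries.C c) = HahnSeries.C c := by
    intro c
    have e : (HahnSeries.C c : LaurentSeries (ZMod p)) = ((c.val : ℕ) : LaurentSeries (ZMod p)) := by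
      rw [← map_natCast (HahnSeries.C : ZMod p →+* LaurentSeries (ZMod p)), ZMod.natCast_zmod_val]
    rw [e, map_natCast]
  intro h hh
  by_cases h0 : h = 0
  · exact ⟨0, by rw [h0, map_zero]⟩
  refine ⟨h.coeff 0, ?_⟩
  by_contra hne
  have h1 : h - HahnSeries.C (h.coeff 0) ≠ 0 := sub_ne_zero.2 hne
  have h2 : g (h - HahnSeries.C (h.coeff 0)) = h - HahnSeries.C (h.coeff 0) := by
    rw [map_sub, hh, hgC]
  have h3 := hord _ h2 h1
  have h4 : (h - HahnSeries.C (h.coeff 0)).coeff (h - HahnSeries.C (h.coeff 0)).order = 0 := by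
    rw [h3, HahnSeries.coeff_sub]
    have : (HahnSeries.C (h.coeff 0) : LaurentSeries (ZMod p)).coeff 0 = h.coeff 0 := by
      show (HahnSeries.single (0 : ℤ) (h.coeff 0)).coeff 0 = _
      rw [HahnSeries.coeff_single_same]
    rw [this, sub_self]
  exact h1 (HahnSeries.coeff_order_eq_zero.1 h4)

end Pool.Agent.U69.FE
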