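import Pool.Agent.U69.FE.Stm4

/-!
# Project AU9 (helper69), package GEST (helper943)
-/

set_option autoImplicit false

namespace Pool.Agent.U69.FE

namespace GESTAux

variable {p : ℕ} [Fact p.Prime]

theorem dv_mono {m n : ℤ} {x : LaurentSeries (ZMod p)} (h : m ≤ n) (hx : Dv n x) : Dv m x :=
  fun k hk => hx k (hk.trans_le h)

theorem dv_add {n : ℤ} {x y : LaurentSeries (ZMod p)} (hx : Dv n x) (hy : Dv n y) : Dv n (x + y) :=
  fun k hk => by
  rw [HahnSeries.coeff_add, hx k hk, hy k hk, add_zero]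

theorem dv_sub {n : ℤ} {x y : LaurentSeries (ZMod p)} (hx : Dv n x) (hy : Dv n y) : Dv n (x - y) :=
  fun k hk => by
  rw [HahnSeries.coeff_sub, hx k hk, hy k hk, sub_zero]

theorem dv_neg {n : ℤ} {x : LaurentSeries (ZMod p)} (hx : Dv n x) : Dv n (-x) :=
  fun k hk => by
  rw [HahnSeries.coeff_neg, hx k hk, neg_zero]

theorem dv_zero (n : ℤ) : Dv n (0 : LaurentSeries (ZMod p)) := fun _ _ => rfl

theorem dv_mul {m n : ℤ} {a b : LaurentSeries (ZMod p)} (ha : Dv m a) (hb : Dv n b) :
    Dv (m + n) (a * b) := by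
  intro k hk
  rw [HahnSeries.coeff_mul]
  refine Finset.sum_eq_zero fun ij hij => ?_
  rw [Finset.mem_antidiagonal] at hij
  obtain ⟨-, -, h1⟩ := hij
  by_cases h : ij.1 < m
  · rw [ha _ h, zero_mul]
  · rw [hb ij.2 (by omega), mul_zero]

theorem dv_C (c : ZMod p) : Dv 0 (HahnSeries.C c : LaurentSeries (ZMod p)) := fun _ hk =>
  HahnSeries.coeff_single_of_ne hk.ne

theorem dv_one : Dv 0 (1 : LaurentSeries (ZMod p)) := by
  have := dv_C (p := p) 1
  rwa [map_one] at this

theorem dv_pow_one {a : LaurentSeries (ZMod p)} (ha : Dv 1 a) (n : ℕ) : Dv (n : ℤ) (a ^ n) := by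
  induction n with
  | zero => rw [pow_zero]; exact dv_one
  | succ n ih =>
    rw [pow_succ]
    have := dv_mul ih ha
    push_cast
    exact this

theorem coeff_C_mul' (c : ZMod p) (x : LaurentSeries (ZMod p)) (k : ℤ) :
    (HahnSeries.C c * x).coeff k = c * x.coeff k := by
  rw [HahnSeries.C_mul_eq_smul, HahnSeries.coeff_smul, smul_eq_mul]

/-- the powers of a one-unit are one-units -/
theorem pow_sub_one {a : LaurentSeries (ZMod p)} (ha : Dv 1 (a - 1)) (n : ℕ) :
    Dv 1 (a ^ n - 1) := by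
  have h0 : Dv 0 a := by
    have := dv_add (dv_mono (by norm_num) ha : Dv 0 (a - 1)) (dv_one (p := p))
    rwa [sub_add_cancel] at this
  induction n with
  | zero => rw [pow_zero, sub_self]; exact dv_zero 1
  | succ n ih =>
    have e : a ^ (n + 1) - 1 = (a ^ n - 1) * a + (a - 1) := by rw [pow_succ]; ring
    rw [e]
    have := dv_mul ih h0
    rw [add_zero] at this
    exact dv_add this ha

/-- the monomials -/
noncomputable def mo (p : ℕ) [Fact p.Prime] (j : ℤ) : LaurentSeries (ZMod p) :=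
  HahnSeries.single j (1 : ZMod p)

theorem mo_add (i j : ℤ) : mo p (i + j) = mo p i * mo p j := by
  rw [mo, mo, mo, HahnSeries.single_mul_single, mul_one]

theorem mo_zero : mo p 0 = 1 := rfl

theorem mo_one : mo p 1 = tt p := rfl

theorem dv_mo (j : ℤ) : Dv j (mo p j) := fun _ hk => HahnSeries.coeff_single_of_ne hk.ne

variable {g : LaurentSeries (ZMod p) →+* LaurentSeries (ZMod p)}

theorem dv_map (hg : ∀ x, x ≠ 0 → (g x).order = x.order) {n : ℤ} {x : LaurentSeries (ZMod p)}
    (hx : Dv n x) : Dv n (g x) := by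
  by_cases h : x = 0
  · rw [h, map_zero]; exact dv_zero n
  · intro k hk
    refine HahnSeries.coeff_eq_zero_of_lt_order ?_
    rw [hg x h]
    refine lt_of_lt_of_le hk ?_
    by_contra hlt
    exact h (HahnSeries.coeff_order_eq_zero.1 (hx _ (not_le.1 hlt)))

theorem nat_case (hg : ∀ x, x ≠ 0 → (g x).order = x.order) {q : ℤ}
    (ht : Dv q (g (tt p) - tt p)) (j : ℕ) : Dv (j + q - 1) (g (mo p j) - mo p j) := by
  induction j with
  | zero =>
    rw [Nat.cast_zero, mo_zero, map_one, sub_self]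
    exact dv_zero _
  | succ j ih =>
    have e : g (mo p ((j + 1 : ℕ) : ℤ)) - mo p ((j + 1 : ℕ) : ℤ) =
        g (mo p j) * (g (tt p) - tt p) + (g (mo p j) - mo p j) * tt p := by
      rw [Nat.cast_succ, mo_add, mo_one, map_mul]
      ring
    rw [e]
    refine dv_add ?_ ?_
    · have := dv_mul (dv_map hg (dv_mo (p := p) (j : ℤ))) ht
      exact dv_mono (by push_cast; omega) this
    · have := dv_mul ih (dv_mo (p := p) 1)
      rw [mo_one] at this
      exact dv_mono (by push_cast; omega) this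

theorem int_case (hg : ∀ x, x ≠ 0 → (g x).order = x.order) {q : ℤ}
    (ht : Dv q (g (tt p) - tt p)) (j : ℤ) : Dv (j + q - 1) (g (mo p j) - mo p j) := by
  obtain ⟨k, rfl | rfl⟩ := j.eq_nat_or_neg
  · exact nat_case hg ht k
  · have h1 : mo p (-(k : ℤ)) * mo p k = 1 := by
      rw [← mo_add, neg_add_cancel]; exact mo_zero
    have h2 : g (mo p (-(k : ℤ))) * g (mo p k) = 1 := by rw [← map_mul, h1, map_one]
    have e : g (mo p (-(k : ℤ))) - mo p (-(k : ℤ)) =
        g (mo p (-(k : ℤ))) * mo p (-(k : ℤ)) * (-(g (mo p k) - mo p k)) := by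
      linear_combination (-(g (mo p (-(k : ℤ))))) * h1 + mo p (-(k : ℤ)) * h2
    rw [e]
    have h3 := dv_mul (dv_mul (dv_map hg (dv_mo (p := p) (-(k : ℤ)))) (dv_mo (p := p) (-(k : ℤ))))
      (dv_neg (nat_case hg ht k))
    exact dv_mono (by omega) h3

end GESTAux

open GESTAux in
/-- **GEST** -/
theorem GEST_ok : S_GEST := by
  intro p hpF g hg m b hb n x hx
  have hchar : CharP (LaurentSeries (ZMod p)) p :=
    charP_of_injective_ringHom (f := (HahnSeries.C : ZMod p →+* HahnSeries ℤ (ZMod p)))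
      HahnSeries.C_injective p
  have hC : ∀ c : ZMod p, g (HahnSeries.C c) = HahnSeries.C c := by
    intro c
    have h : g.comp (HahnSeries.C : ZMod p →+* HahnSeries ℤ (ZMod p)) =
        (HahnSeries.C : ZMod p →+* HahnSeries ℤ (ZMod p)) := RingHom.ext_zmod _ _
    exact congrArg (fun f : ZMod p →+* LaurentSeries (ZMod p) => f c) h
  obtain ⟨q, hq⟩ : ∃ q : ℤ, q = (p : ℤ) ^ m := ⟨_, rfl⟩
  have hU : uu p = 1 + tt p := rfl
  have h1U : Dv 1 (uu p - 1) := by
    rw [hU, add_sub_cancel_left, ← mo_one]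
    exact dv_mo 1
  have h0U : Dv 0 (uu p) := by
    have := dv_add (dv_mono (by norm_num) h1U : Dv 0 (uu p - 1)) (dv_one (p := p))
    rwa [sub_add_cancel] at this
  have ht : Dv q (g (tt p) - tt p) := by
    have e0 : tt p = uu p - 1 := by rw [hU]; ring
    have e2 : g (tt p) - tt p = uu p * ((uu p) ^ b - 1) ^ (p ^ m) := by
      rw [sub_pow_char_pow, one_pow, ← pow_mul, e0, map_sub, map_one, hb, pow_add, pow_one,
        mul_comm b (p ^ m)]
      ring
    rw [e2]
    have h3 := dv_mul h0U (dv_pow_one (pow_sub_one h1U b) (p ^ m))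
    refine dv_mono ?_ h3
    rw [hq]
    push_cast
    omega
  rw [← hq]
  have key : ∀ k : ℕ, ∃ y x' : LaurentSeries (ZMod p), x = y + x' ∧ Dv (n + k) x' ∧
      Dv (n + q - 1) (g y - y) := by
    intro k
    induction k with
    | zero =>
      refine ⟨0, x, by rw [zero_add], by simpa using hx, ?_⟩
      rw [map_zero, sub_zero]
      exact dv_zero _
    | succ k ih =>
      obtain ⟨y, x', h1, h2, h3⟩ := ih
      obtain ⟨c, hc⟩ : ∃ c, c = x'.coeff (n + k) := ⟨_, rfl⟩
      refine ⟨y + HahnSeries.C c * mo p (n + k), x' - HahnSeries.C c * mo p (n + k),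
        by rw [h1]; ring, ?_, ?_⟩
      · intro j hj
        rw [HahnSeries.coeff_sub, coeff_C_mul']
        rcases lt_or_eq_of_le (show j ≤ n + k by push_cast at hj; omega) with h | h
        · rw [h2 j h, dv_mo (n + k) j h, mul_zero, sub_zero]
        · rw [h, mo, HahnSeries.coeff_single_same, mul_one, hc, sub_self]
      · have e : g (y + HahnSeries.C c * mo p (n + k)) - (y + HahnSeries.C c * mo p (n + k)) =
            (g y - y) + HahnSeries.C c * (g (mo p (n + k)) - mo p (n + k)) := by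
          rw [map_add, map_mul, hC]; ring
        rw [e]
        refine dv_add h3 (dv_mono ?_ (dv_mul (dv_C c) (int_case hg ht (n + k))))
        omega
  obtain ⟨y, x', h1, h2, h3⟩ := key (p ^ m)
  have h2' : Dv (n + q) x' := by
    rw [hq]
    have := h2
    push_cast at this
    exact this
  have e : g x - x = (g y - y) + (g x' - x') := by rw [h1, map_add]; ring
  rw [e]
  exact dv_add h3 (dv_mono (by omega) (dv_sub (dv_map hg h2') h2'))

end Pool.Agent.U69.FE
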