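import Pool.Agent.Y924.EL.Defs

/-!
# Project FE: the formula of a polynomial
-/

set_option autoImplicit false

open Polynomial

namespace Pool.Agent.U69.FE

open Pool.Agent.Y924.EL

/-- **PF**: polynomials over `F_p` are definable. Proof: a formula which uses the bound variables
`x_2, x_3, ...` only: for a list `l` of natural numbers (the coefficients of `Q`, lowest first) let
`pf l j` be the formula `x_j = ∑ l_i x_0 ^ i`: `pf [] j = .add j j j`,
`pf (c :: l) j = .ex (j+1) (.and (pf l (j+1)) (.ex (j+2) (.and (.mul 0 (j+1) (j+2)) (.ex (j+3)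
(.and (cf c (j+3)) (.add (j+2) (j+3) j))))))`, where `cf c j` says `x_j = c`: `cf 0 j = .add j j j`,
`cf (c+1) j = .ex (j+1) (.and (cf c (j+1)) (.ex (j+2) (.and (.one (j+2)) (.add (j+1) (j+2) j))))`.
By induction `Sat O (pf l j) v ↔ v j = ∑ ...` for `j ≥ 1` and all `v` (simp with `Function.update`).
Finally `ψ = pf l 1` with `l` = the list of `(Q.coeff i).val`, `i ≤ natDegree`. -/
def S_PF : Prop := ∀ (p : ℕ) [Fact p.Prime] (Q : (ZMod p)[X]), ∃ ψ : Fm,
  ∀ (O : Set (LaurentSeries (ZMod p))) (v : ℕ → LaurentSeries (ZMod p)),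
    Sat O ψ v ↔ v 1 = aeval (v 0) Q

end Pool.Agent.U69.FE
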