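import Pool.Agent.U69.FE.Stm
import Pool.Agent.U69.FE.Stm2
import Pool.Agent.Results.MP_db9079_lc.LocallyFiniteValues

/-!
# Project FE: assembly
-/

set_option autoImplicit false

open Polynomial

namespace Pool.Agent.U69.FE

open Pool.Agent.Y924.EL
open Pool.Agent.Results.MP_db9079_lc.UniformFiniteness
open Pool.Agent.Results.MP_db9079_lc.LocallyFiniteValues

/-- if the graph of `f` is definable (with parameters) then so is `{x | f x = Q x}` -/
theorem form (hPF : S_PF) (p : ℕ) [Fact p.Prime] (O : Set (LaurentSeries (ZMod p))) (φ : Fm)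
    (v : ℕ → LaurentSeries (ZMod p)) (f : LaurentSeries (ZMod p) → LaurentSeries (ZMod p))
    (hφ : ∀ x y : Fin 1 → LaurentSeries (ZMod p), DRel p O φ 1 1 v x y ↔ y 0 = f (x 0))
    (Q : (ZMod p)[X]) : ∃ (ψ : Fm) (w : ℕ → LaurentSeries (ZMod p)),
    DSet p O ψ 1 w = {x | f (x 0) = aeval (x 0) Q} := by
  obtain ⟨χ, hχ⟩ := hPF p Q
  refine ⟨.ex 1 (.and φ χ), v, ?_⟩
  ext x
  simp only [DSet, Set.mem_ofPred_eq, Sat]
  have h0 : ∀ a : LaurentSeries (ZMod p),
      Function.update (fun i => if h : i < 1 then x ⟨i, h⟩ else v i) 1 a =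
      fun i => if h : i < 1 then x ⟨i, h⟩ else
        if h' : i - 1 < 1 then (fun _ : Fin 1 => a) ⟨i - 1, h'⟩ else v i := by
    intro a
    funext i
    rcases Nat.lt_or_ge i 1 with h | h
    · rw [Function.update_of_ne (by omega)]
      simp [h]
    · rcases Nat.lt_or_ge i 2 with h2 | h2
      · have : i = 1 := by omega
        subst this
        simp
      · rw [Function.update_of_ne (by omega)]
        have h3 : ¬ i < 1 := by omega
        have h4 : ¬ i - 1 < 1 := by omega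
        simp [h3, h4]
  constructor
  · rintro ⟨a, h1, h2⟩
    rw [hχ] at h2
    rw [h0] at h1
    have h3 := (hφ x fun _ => a).1 h1
    simp only [Function.update_self] at h2
    rw [Function.update_of_ne (by norm_num)] at h2
    simp only [zero_lt_one, dif_pos] at h2
    exact h3.symm.trans h2
  · intro h
    refine ⟨f (x 0), ?_, ?_⟩
    · rw [h0]
      exact (hφ x fun _ => f (x 0)).2 rfl
    · rw [hχ]
      simp only [Function.update_self]
      rw [Function.update_of_ne (by norm_num)]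
      simp only [zero_lt_one, dif_pos]
      exact h

theorem order_tt (p : ℕ) [Fact p.Prime] : (tt p).order = 1 := HahnSeries.order_single one_ne_zero

theorem tt_ne (p : ℕ) [Fact p.Prime] : tt p ≠ 0 := HahnSeries.single_ne_zero one_ne_zero

theorem dv_of_valRing {p : ℕ} [Fact p.Prime] {z : LaurentSeries (ZMod p)} (hz : z ∈ ValRing p) :
    Dv 0 z := by
  obtain ⟨f, rfl⟩ := hz
  intro k hk
  rw [LaurentSeries.coe_algebraMap, HahnSeries.ofPowerSeries_apply]
  refine HahnSeries.embDomain_of_notMem_range ?_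
  rintro ⟨n, hn⟩
  have h1 : (n : ℤ) = k := hn
  omega

/-- every endomorphism is a Frobenius power of an automorphism or of a separable endomorphism -/
theorem cases_endo (hV : S_VAL) (hR : S_RED) (hS : S_SUR) (p : ℕ) [Fact p.Prime] :
    ∀ (e : ℕ) (σ : LaurentSeries (ZMod p) →+* LaurentSeries (ZMod p)), 1 ≤ e →
      (∀ x, x ≠ 0 → (σ x).order = e * x.order) →
      ∃ (k : ℕ) (σ₁ : LaurentSeries (ZMod p) →+* LaurentSeries (ZMod p)),
        (∀ x, σ x = (σ₁ x) ^ (p ^ k)) ∧
        ((∃ g : LaurentSeries (ZMod p) ≃+* LaurentSeries (ZMod p), ∀ x, σ₁ x = g x) ∨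
          ∃ e' : ℕ, 2 ≤ e' ∧ (∀ x, x ≠ 0 → (σ₁ x).order = e' * x.order) ∧
            ¬ ∃ s, σ₁ (tt p) = s ^ p) := by
  intro e
  induction e using Nat.strong_induction_on with
  | _ e ih =>
    intro σ he hσ
    by_cases hs : ∃ s, σ (tt p) = s ^ p
    · obtain ⟨σ', hσ'⟩ := hR p σ hs
      obtain ⟨e', he', h1⟩ := hV p σ'
      have hp : 1 < p := (Fact.out : p.Prime).one_lt
      have h2 : (e : ℤ) = p * e' := by
        have h3 := hσ (tt p) (tt_ne p)
        rw [hσ' (tt p), HahnSeries.order_pow, h1 _ (tt_ne p), order_tt] at h3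
        simp at h3
        linarith
      have h4 : e' < e := by
        have h5 : e = p * e' := by exact_mod_cast h2
        rw [h5]
        nlinarith
      obtain ⟨k, σ₁, h6, h7⟩ := ih e' h4 σ' he' h1
      refine ⟨k + 1, σ₁, fun x => ?_, h7⟩
      rw [hσ' x, h6 x, ← pow_mul, pow_succ]
    · refine ⟨0, σ, fun x => by simp, ?_⟩
      rcases Nat.lt_or_ge e 2 with h | h
      · left
        have he1 : e = 1 := by omega
        subst he1
        have h8 : Function.Surjective σ := hS p σ fun x hx => by simpa using hσ x hx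
        exact ⟨RingEquiv.ofBijective σ ⟨σ.injective, h8⟩, fun x => rfl⟩
      · exact Or.inr ⟨e, h, hσ, hs⟩

theorem key (hV : S_VAL) (hR : S_RED) (hS : S_SUR) (hF : S_FIX) (hI : S_ISO) (hN : S_INF)
    (hFo : S_PF) (p : ℕ) [Fact p.Prime] (O : Set (LaurentSeries (ZMod p))) (hO : LFTame p O)
    (φ : Fm) (v : ℕ → LaurentSeries (ZMod p))
    (σ : LaurentSeries (ZMod p) →+* LaurentSeries (ZMod p))
    (hφ : ∀ x y : Fin 1 → LaurentSeries (ZMod p), DRel p O φ 1 1 v x y ↔ y 0 = σ (x 0)) :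
    ∃ (k : ℕ) (g : LaurentSeries (ZMod p) ≃+* LaurentSeries (ZMod p)),
      ∀ x, σ x = (g x) ^ (p ^ k) := by
  obtain ⟨e, he, h1⟩ := hV p σ
  obtain ⟨k, σ₁, h2, h3 | ⟨e', he', h4, h5⟩⟩ := cases_endo hV hR hS p e σ he h1
  · obtain ⟨g, hg⟩ := h3
    exact ⟨k, g, fun x => by rw [h2, hg]⟩
  · exfalso
    obtain ⟨x, P, hx, hx1, hP, hxP⟩ := hF p σ₁ e' he' h4 h5
    have h6 := hN p σ₁ e' he' h4 P x hP hx hx1 hxP
    obtain ⟨ψ, w, hψ⟩ := form hFo p O φ v σ hφ (P ^ (p ^ k))
    obtain ⟨N, hN'⟩ := ((Pool.Agent.Results.MP_db9079_lc.LocallyFiniteValues.result p).2.1 O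
      hO).2.2.1 ψ 1
    have h7 := (hN' w).1
    have h8 : DSet p O ψ 1 w = {x | σ₁ (x 0) = aeval (x 0) P} := by
      rw [hψ]
      ext y
      simp only [Set.mem_ofPred_eq, h2, map_pow]
      constructor
      · intro h
        refine (iterateFrobenius_inj (LaurentSeries (ZMod p)) p k) ?_
        rw [iterateFrobenius_def, iterateFrobenius_def]
        exact h
      · intro h
        rw [h]
    rw [h8] at h7
    refine h6 (Set.Finite.of_finite_image (f := fun y : LaurentSeries (ZMod p) =>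
      (fun _ : Fin 1 => y)) (h7.subset ?_) ?_)
    · rintro _ ⟨y, ⟨hy1, hy2, hy3⟩, rfl⟩
      obtain ⟨b, hb, h9⟩ := hI p σ₁ e' he' h4 P y hy1 hy2 hy3
      refine ⟨hy3, b, hb, fun x' hx' hn => ?_⟩
      obtain ⟨z, hz, h10⟩ := hn 0
      funext i
      rw [Subsingleton.elim i 0]
      exact h9 (x' 0) z (dv_of_valRing hz) hx' h10.symm
    · intro a _ b _ hab
      exact congrFun hab 0

/-- the graph of `f` -/
def Graph {K : Type} (f : K → K) (x y : Fin 1 → K) : Prop := y 0 = f (x 0)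

theorem final (hV : S_VAL) (hR : S_RED) (hS : S_SUR) (hF : S_FIX) (hI : S_ISO) (hN : S_INF)
    (hFo : S_PF) (p : ℕ) [Fact p.Prime] :
    (∀ O : Set (LaurentSeries (ZMod p)), REPred (InTh p O) ∨ ¬ Arith p O →
      ∀ (φ : Fm) (v : ℕ → LaurentSeries (ZMod p))
        (σ : LaurentSeries (ZMod p) →+* LaurentSeries (ZMod p)),
        (∀ x y : Fin 1 → LaurentSeries (ZMod p), DRel p O φ 1 1 v x y ↔ y 0 = σ (x 0)) →
        ∃ (k : ℕ) (g : LaurentSeries (ZMod p) ≃+* LaurentSeries (ZMod p)),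
          ∀ x, σ x = (g x) ^ (p ^ k)) ∧
    (∀ σ : LaurentSeries (ZMod p) →+* LaurentSeries (ZMod p),
      (¬ ∃ (k : ℕ) (g : LaurentSeries (ZMod p) ≃+* LaurentSeries (ZMod p)),
        ∀ x, σ x = (g x) ^ (p ^ k)) →
      Arith p (Codes p (Graph σ)) ∧ ¬ REPred (InTh p (Codes p (Graph σ)))) := by
  refine ⟨fun O hO φ v σ hφ => ?_, fun σ hσ => ?_⟩
  · refine key hV hR hS hF hI hN hFo p O ?_ φ v σ hφ
    rcases hO with h | h
    · exact lftame_of_tame O (tame p O h)
    · exact lftame_of_tame O ((dichotomy p O).resolve_right h)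
  · have h1 : ¬ LFTame p (Codes p (Graph σ)) := by
      intro hT
      refine hσ (key hV hR hS hF hI hN hFo p _ hT (Pool.Agent.R794.FP.relF p (1 + 1))
        (fun _ => HahnSeries.single (1 : ℤ) (1 : ZMod p)) σ ?_)
      have h2 : DRel p (Codes p (Graph σ)) (Pool.Agent.R794.FP.relF p (1 + 1)) 1 1
          (fun _ => HahnSeries.single (1 : ℤ) (1 : ZMod p)) = Graph σ := by
        rw [codes_eq]
        exact Pool.Agent.R794.FP.rel_cdSet _ _ rfl
      intro x y
      rw [h2]
      rfl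
    exact ⟨(dichotomy p _).resolve_left fun ht => h1 (lftame_of_tame _ ht),
      fun hr => h1 (lftame_of_tame _ (tame p _ hr))⟩

/-- the substitution `f (t) ↦ f (t ^ m)` -/
noncomputable def sub (p m : ℕ) [Fact p.Prime] (hm : 0 < m) :
    LaurentSeries (ZMod p) →+* LaurentSeries (ZMod p) :=
  HahnSeries.embDomainRingHom (AddMonoidHom.mulLeft (m : ℤ))
    (fun a b h => by
      have h1 : (m : ℤ) * a = m * b := h
      exact mul_left_cancel₀ (by exact_mod_cast hm.ne') h1)
    (fun a b => by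
      have h1 : (0 : ℤ) < m := by exact_mod_cast hm
      exact mul_le_mul_iff_right₀ h1)

theorem sub_coeff (p m : ℕ) [Fact p.Prime] (hm : 0 < m) (x : LaurentSeries (ZMod p)) (n : ℤ) :
    (sub p m hm x).coeff (m * n) = x.coeff n :=
  HahnSeries.embDomain_coeff

theorem sub_coeff' (p m : ℕ) [Fact p.Prime] (hm : 0 < m) (x : LaurentSeries (ZMod p)) (n : ℤ)
    (hn : ¬ (m : ℤ) ∣ n) : (sub p m hm x).coeff n = 0 := by
  refine HahnSeries.embDomain_of_notMem_range ?_
  rintro ⟨k, hk⟩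
  exact hn ⟨k, hk.symm⟩

theorem order_aut (hV : S_VAL) (p : ℕ) [Fact p.Prime]
    (g : LaurentSeries (ZMod p) ≃+* LaurentSeries (ZMod p)) : (g (tt p)).order = 1 := by
  obtain ⟨e, he, h1⟩ := hV p g.toRingHom
  obtain ⟨e', he', h2⟩ := hV p g.symm.toRingHom
  have h3 := h1 (tt p) (tt_ne p)
  have h4 := h2 (g (tt p)) (by simpa using tt_ne p)
  have h5 : (g.symm.toRingHom (g (tt p)) : LaurentSeries (ZMod p)) = tt p := g.symm_apply_apply _
  have h6 : (g.toRingHom (tt p) : LaurentSeries (ZMod p)) = g (tt p) := rfl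
  rw [h6, order_tt] at h3
  rw [h5, order_tt, h3] at h4
  have h7 : (e' : ℤ) * e = 1 := by linarith
  have h8 : e' * e = 1 := by exact_mod_cast h7
  have h9 : e = 1 := Nat.eq_one_of_mul_eq_one_left h8
  rw [h3, h9]
  norm_num

theorem sub_not (hV : S_VAL) (p m : ℕ) [Fact p.Prime] (hm : 0 < m) (hmp : ∀ k : ℕ, m ≠ p ^ k) :
    ¬ ∃ (k : ℕ) (g : LaurentSeries (ZMod p) ≃+* LaurentSeries (ZMod p)),
      ∀ x, sub p m hm x = (g x) ^ (p ^ k) := by
  rintro ⟨k, g, h⟩
  have h1 := h (tt p)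
  have h2 : sub p m hm (tt p) = HahnSeries.single (m : ℤ) (1 : ZMod p) := by
    ext n
    by_cases hn : (m : ℤ) ∣ n
    · obtain ⟨l, rfl⟩ := hn
      rw [sub_coeff, tt, HahnSeries.coeff_single, HahnSeries.coeff_single]
      have hm' : (m : ℤ) ≠ 0 := by exact_mod_cast hm.ne'
      by_cases hl : l = 1
      · rw [if_pos hl, hl, mul_one, if_pos rfl]
      · rw [if_neg hl, if_neg]
        intro h
        exact hl (mul_left_cancel₀ hm' (by rw [h, mul_one]))
    · rw [sub_coeff' p m hm _ n hn, HahnSeries.coeff_single, if_neg]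
      rintro rfl
      exact hn (dvd_refl _)
  rw [h2] at h1
  have h3 := congrArg HahnSeries.order h1
  rw [HahnSeries.order_single one_ne_zero, HahnSeries.order_pow, order_aut hV] at h3
  simp at h3
  exact hmp k (by exact_mod_cast h3)

end Pool.Agent.U69.FE
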