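import Pool.Agent.U69.FE.Stm3
set_option autoImplicit false
namespace Pool.Agent.U69.FE

namespace FUNAux

variable {p : ℕ} [Fact p.Prime]

theorem dv_mul {a b : ℤ} {x z : LaurentSeries (ZMod p)} (hx : Dv a x) (hz : Dv b z) :
    Dv (a + b) (x * z) := by
  intro k hk
  rw [HahnSeries.coeff_mul]
  refine Finset.sum_eq_zero fun ij hij => ?_
  rw [Finset.mem_antidiagonal] at hij
  obtain ⟨h1, h2, h3⟩ := hij
  by_cases h : ij.1 < a
  · rw [hx _ h, zero_mul]
  · rw [hz ij.2 (by omega), mul_zero]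

theorem dv_mono {a b : ℤ} {x : LaurentSeries (ZMod p)} (h : a ≤ b) (hx : Dv b x) : Dv a x :=
  fun k hk => hx k (lt_of_lt_of_le hk h)

theorem dv_add {a : ℤ} {x z : LaurentSeries (ZMod p)} (hx : Dv a x) (hz : Dv a z) :
    Dv a (x + z) := by
  intro k hk
  rw [HahnSeries.coeff_add, hx k hk, hz k hk, add_zero]

theorem dv_smul {a : ℤ} (c : ZMod p) {x : LaurentSeries (ZMod p)} (hx : Dv a x) :
    Dv a (c • x) := by
  intro k hk
  rw [HahnSeries.coeff_smul, hx k hk, smul_zero]

theorem dv_one : Dv 0 (1 : LaurentSeries (ZMod p)) := by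
  intro k hk
  rw [HahnSeries.coeff_one, if_neg hk.ne]

theorem dv_pow {x : LaurentSeries (ZMod p)} (hx : Dv 0 x) (n : ℕ) : Dv 0 (x ^ n) := by
  induction n with
  | zero => rw [pow_zero]; exact dv_one
  | succ n ih =>
    rw [pow_succ]
    have := dv_mul ih hx
    rwa [add_zero] at this

theorem expand (u f : LaurentSeries (ZMod p)) (q : ℕ) :
    (f * (u - 1) ^ q).coeff 0 = ∑ m ∈ Finset.range q,
      (((-1) ^ (q - m) * (q.choose m : ℤ) : ℤ) : ZMod p) * (f * u ^ m).coeff 0 +
        (f * u ^ q).coeff 0 := by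
  let c0 : LaurentSeries (ZMod p) →+ ZMod p :=
    ⟨⟨fun x => x.coeff 0, HahnSeries.coeff_zero⟩, fun _ _ => HahnSeries.coeff_add⟩
  have hc : ∀ x : LaurentSeries (ZMod p), x.coeff 0 = c0 x := fun _ => rfl
  have hy : (u - 1) ^ q = ∑ m ∈ Finset.range q,
      ((-1) ^ (q - m) * (q.choose m : ℤ) : ℤ) • u ^ m + u ^ q := by
    rw [sub_eq_add_neg, add_pow, Finset.sum_range_succ]
    congr 1
    · refine Finset.sum_congr rfl fun m _ => ?_
      rw [zsmul_eq_mul]
      push_cast
      ring
    · simp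
  rw [hy, mul_add, Finset.mul_sum]
  simp only [hc]
  rw [map_add, map_sum]
  congr 1
  refine Finset.sum_congr rfl fun m _ => ?_
  rw [mul_smul_comm, map_zsmul, zsmul_eq_mul]

theorem exists_f (u : LaurentSeries (ZMod p)) (hu : u ≠ 1) (h1 : Dv 1 (u - 1)) (q : ℕ) :
    ∀ φ : ℕ → ZMod p, ∃ f : LaurentSeries (ZMod p), Dv 1 (f * (u - 1) ^ q) ∧
      ∀ i < q, (f * u ^ i).coeff 0 = φ i := by
  have hy : u - 1 ≠ 0 := sub_ne_zero.2 hu
  have hr : 1 ≤ (u - 1).order := by
    by_contra h
    exact HahnSeries.coeff_order_eq_zero.not.2 hy (h1 _ (not_le.1 h))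
  induction q with
  | zero =>
    intro φ
    refine ⟨0, ?_, fun i hi => absurd hi (Nat.not_lt_zero _)⟩
    rw [zero_mul]
    intro k _
    exact HahnSeries.coeff_zero
  | succ q ih =>
    intro φ
    set r := (u - 1).order with hrdef
    set g : LaurentSeries (ZMod p) := HahnSeries.single (-(r * q)) (1 : ZMod p) with hg
    have hgc : ∀ (x : LaurentSeries (ZMod p)) (k : ℤ), (g * x).coeff k = x.coeff (k + r * q) := by
      intro x k
      have h := HahnSeries.coeff_single_mul_add (r := (1 : ZMod p)) (x := x) (a := k + r * q)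
        (b := -(r * q))
      rw [one_mul] at h
      rw [← h, hg]
      congr 1
      ring
    have hβ : (g * (u - 1) ^ q).coeff 0 ≠ 0 := by
      rw [hgc, zero_add]
      have h2 := HahnSeries.order_pow (u - 1) q
      have h3 : r * q = ((u - 1) ^ q).order := by
        rw [h2, nsmul_eq_mul, ← hrdef]
        ring
      rw [h3]
      exact HahnSeries.coeff_order_eq_zero.not.2 (pow_ne_zero _ hy)
    have hg1 : Dv 1 (g * (u - 1) ^ (q + 1)) := by
      intro k hk
      rw [hgc]
      refine HahnSeries.coeff_eq_zero_of_lt_order ?_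
      rw [HahnSeries.order_pow, nsmul_eq_mul, ← hrdef]
      push_cast
      nlinarith
    set a : ZMod p := (φ q + ∑ m ∈ Finset.range q,
      (((-1) ^ (q - m) * (q.choose m : ℤ) : ℤ) : ZMod p) * φ m) / (g * (u - 1) ^ q).coeff 0 with ha
    obtain ⟨f', h2, h3⟩ := ih (fun i => φ i - a * (g * u ^ i).coeff 0)
    have hmul : ∀ x, (f' + a • g) * x = f' * x + a • (g * x) := by
      intro x
      rw [add_mul, smul_mul_assoc]
    have h4 : ∀ i < q, ((f' + a • g) * u ^ i).coeff 0 = φ i := by
      intro i hi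
      rw [hmul, HahnSeries.coeff_add, HahnSeries.coeff_smul, h3 i hi, smul_eq_mul]
      ring
    refine ⟨f' + a • g, ?_, fun i hi => ?_⟩
    · rw [hmul]
      refine dv_add ?_ (dv_smul a hg1)
      rw [pow_succ, ← mul_assoc]
      exact dv_mono (by norm_num) (dv_mul h2 h1)
    · rcases Nat.lt_succ_iff_lt_or_eq.1 hi with h | rfl
      · exact h4 i h
      · have h5 := expand u (f' + a • g) i
        have h6 : ((f' + a • g) * (u - 1) ^ i).coeff 0 = φ i + ∑ m ∈ Finset.range i,
            (((-1) ^ (i - m) * (i.choose m : ℤ) : ℤ) : ZMod p) * φ m := by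
          rw [hmul, HahnSeries.coeff_add, HahnSeries.coeff_smul, h2 0 (by norm_num), zero_add,
            smul_eq_mul, ha, div_mul_cancel₀ _ hβ]
        rw [h6] at h5
        have h7 : ∑ m ∈ Finset.range i, (((-1) ^ (i - m) * (i.choose m : ℤ) : ℤ) : ZMod p) *
            ((f' + a • g) * u ^ m).coeff 0 = ∑ m ∈ Finset.range i,
            (((-1) ^ (i - m) * (i.choose m : ℤ) : ℤ) : ZMod p) * φ m :=
          Finset.sum_congr rfl fun m hm => by rw [h4 m (Finset.mem_range.1 hm)]
        rw [h7] at h5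
        have h8 := add_comm (φ i) (∑ m ∈ Finset.range i,
            (((-1) ^ (i - m) * (i.choose m : ℤ) : ℤ) : ZMod p) * φ m)
        rw [h8] at h5
        exact (add_left_cancel h5).symm

end FUNAux

open FUNAux

theorem FUN_ok : S_FUN := by
  intro p _ u hu h1 m φ hφ
  obtain ⟨f, h2, h3⟩ := exists_f u hu h1 (p ^ m) φ
  have : CharP (LaurentSeries (ZMod p)) p := charP_of_injective_algebraMap
    (algebraMap (ZMod p) (LaurentSeries (ZMod p))).injective p
  have hu0 : Dv 0 u := by
    have h4 := dv_add (dv_mono (by norm_num : (0 : ℤ) ≤ 1) h1) dv_one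
    rwa [sub_add_cancel] at h4
  refine ⟨f, fun n => ?_⟩
  induction n using Nat.strong_induction_on with
  | _ n ih =>
    by_cases hn : n < p ^ m
    · exact h3 n hn
    · have hq : 0 < p ^ m := pow_pos (Fact.out (p := p.Prime)).pos m
      obtain ⟨k, rfl⟩ : ∃ k, n = k + p ^ m := ⟨n - p ^ m, by omega⟩
      have h5 := sub_pow_char_pow (p := p) (n := m) (x := u) (y := 1)
      have h6 : f * u ^ (k + p ^ m) = f * (u - 1) ^ p ^ m * u ^ k + f * u ^ k := by
        rw [h5, one_pow, pow_add]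
        ring
      rw [h6, HahnSeries.coeff_add, ih k (by omega), hφ]
      have h7 := dv_mul h2 (dv_pow hu0 k)
      rw [h7 0 (by norm_num), zero_add]

end Pool.Agent.U69.FE
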