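import Pool.Agent.U69.FE.Stm3
import Pool.Agent.N606.FP.Def

/-! Project CY, package PHI (written by helper594). -/

set_option autoImplicit false

namespace Pool.Agent.U69.FE

open Function Pool.Agent.Y924.EL Pool.Agent.Y924.UF
open Pool.Agent.N606.FP (pairF sat_pairF)

namespace PHIAux

/-- `(x_a x_b).coeff 0 = 0` -/
def lamF (p a b : ℕ) : Fm := .ex 0 (.ex 1 (.and (.eq 0 b) (.and (.eq 1 a) (pairF p 1))))

/-- renaming of the variables of `φ` -/
def rr (j : ℕ) : ℕ := if j = 0 then 0 else j + 1000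

theorem rr_inj : Injective rr := by
  intro i j h
  unfold rr at h
  split_ifs at h <;> omega

/-- `x_i ∈ A` -/
def inA (φ : Fm) (i : ℕ) : Fm := .ex 0 (.and (.eq 0 i) (ren rr φ))

variable {p : ℕ} [Fact p.Prime]

theorem sat_lamF (O : Set (LaurentSeries (ZMod p))) (a b : ℕ) (ha : 2 ≤ a) (hb : 2 ≤ b)
    (v : ℕ → LaurentSeries (ZMod p)) (h3 : v 3 = HahnSeries.single (1 : ℤ) (1 : ZMod p)) :
    Sat O (lamF p a b) v ↔ (v a * v b).coeff 0 = 0 := by
  have key : ∀ z0 z1 : LaurentSeries (ZMod p),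
      Sat O (pairF p 1) (update (update v 0 z0) 1 z1) ↔ (z1 * z0).coeff 0 = 0 := by
    intro z0 z1
    rw [sat_pairF, Finset.sum_range_one]
    have e3 : update (update v 0 z0) 1 z1 3 = HahnSeries.single (1 : ℤ) (1 : ZMod p) := by
      rw [update_of_ne (by norm_num), update_of_ne (by norm_num), h3]
    have e1 : update (update v 0 z0) 1 z1 (4 * 0 + 1) = z1 := by
      rw [show 4 * 0 + 1 = 1 by norm_num, update_self]
    have e0 : update (update v 0 z0) 1 z1 (4 * 0) = z0 := by
      rw [show 4 * 0 = 0 by norm_num, update_of_ne (by norm_num), update_self]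
    rw [e3, e1, e0]
    exact Pool.Agent.Y15.UF.t_RES p _
  have ea : ∀ z0 z1 : LaurentSeries (ZMod p), update (update v 0 z0) 1 z1 a = v a := by
    intro z0 z1
    rw [update_of_ne (by omega), update_of_ne (by omega)]
  have eb : ∀ z0 z1 : LaurentSeries (ZMod p), update (update v 0 z0) 1 z1 b = v b := by
    intro z0 z1
    rw [update_of_ne (by omega), update_of_ne (by omega)]
  have e0 : ∀ z0 z1 : LaurentSeries (ZMod p), update (update v 0 z0) 1 z1 0 = z0 := by
    intro z0 z1
    rw [update_of_ne (by omega), update_self]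
  have e1 : ∀ z0 z1 : LaurentSeries (ZMod p), update (update v 0 z0) 1 z1 1 = z1 := by
    intro z0 z1
    rw [update_self]
  simp only [lamF, Sat]
  constructor
  · rintro ⟨z0, z1, h1, h2, h4⟩
    rw [key] at h4
    rw [e0, eb] at h1
    rw [e1, ea] at h2
    rw [← h1, ← h2]
    exact h4
  · intro h
    refine ⟨v b, v a, ?_, ?_, ?_⟩
    · rw [e0, eb]
    · rw [e1, ea]
    · rw [key]
      exact h

theorem sat_inA (O : Set (LaurentSeries (ZMod p))) (φ : Fm) (i : ℕ) (hi : 1 ≤ i)
    (v V : ℕ → LaurentSeries (ZMod p)) (hV : ∀ j, V (j + 1000) = v j) :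
    Sat O (inA φ i) V ↔ Sat O φ (update v 0 (V i)) := by
  have e : ∀ z : LaurentSeries (ZMod p), update V 0 z ∘ rr = update v 0 z := by
    intro z
    funext j
    rw [comp_apply]
    by_cases hj : j = 0
    · subst hj
      rw [show rr 0 = 0 from rfl, update_self, update_self]
    · rw [show rr j = j + 1000 from if_neg hj, update_of_ne (by omega), update_of_ne hj, hV]
  simp only [inA, Sat]
  constructor
  · rintro ⟨z, h1, h2⟩
    rw [Pool.Agent.Y410.UF.sat_ren O rr_inj, e] at h2
    rw [update_self, update_of_ne (by omega)] at h1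
    rw [← h1]
    exact h2
  · intro h
    refine ⟨V i, ?_, ?_⟩
    · rw [update_self, update_of_ne (by omega)]
    · rw [Pool.Agent.Y410.UF.sat_ren O rr_inj, e]
      exact h

/-- the assignment has the right parameters -/
structure Gd (u f₀ : LaurentSeries (ZMod p)) (v V : ℕ → LaurentSeries (ZMod p)) : Prop where
  t : V 3 = HahnSeries.single (1 : ℤ) (1 : ZMod p)
  u : V 103 = u
  f : V 104 = f₀
  par : ∀ j, V (j + 1000) = v j

theorem Gd.upd {u f₀ : LaurentSeries (ZMod p)} {v V : ℕ → LaurentSeries (ZMod p)}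
    (h : Gd u f₀ v V) (k : ℕ) (hk : k < 1000) (h3 : k ≠ 3) (h103 : k ≠ 103) (h104 : k ≠ 104)
    (a : LaurentSeries (ZMod p)) : Gd u f₀ v (update V k a) where
  t := by rw [update_of_ne (by omega), h.t]
  u := by rw [update_of_ne (by omega), h.u]
  f := by rw [update_of_ne (by omega), h.f]
  par := fun j => by rw [update_of_ne (by omega), h.par]

/-- `(f (u w)).coeff 0 ≠ 0` -/
def G2 (p : ℕ) : Fm := .ex 106 (.and (.mul 103 102 106) (.neg (lamF p 101 106)))

/-- there is a bad `w` -/
def G1 (p : ℕ) (φ : Fm) : Fm :=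
  .ex 102 (.and (inA φ 102) (.and (lamF p 101 102) (.and (.neg (lamF p 104 102)) (G2 p))))

/-- there is a bad `f` -/
def G0 (p : ℕ) (φ : Fm) : Fm :=
  .ex 101 (.and (lamF p 101 105) (.and (.neg (G1 p φ)) (.neg (lamF p 101 100))))

/-- the formula -/
def G (p : ℕ) (φ : Fm) : Fm :=
  .ex 100 (.and (.eq 100 0) (.and (inA φ 100) (.ex 105 (.and (.one 105) (.neg (G0 p φ))))))

theorem sat_G2 (O : Set (LaurentSeries (ZMod p))) {u f₀ : LaurentSeries (ZMod p)}
    {v V : ℕ → LaurentSeries (ZMod p)} (h : Gd u f₀ v V) :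
    Sat O (G2 p) V ↔ (V 101 * (u * V 102)).coeff 0 ≠ 0 := by
  have e : ∀ z : LaurentSeries (ZMod p), Sat O (lamF p 101 106) (update V 106 z) ↔
      (V 101 * z).coeff 0 = 0 := by
    intro z
    rw [sat_lamF O 101 106 (by norm_num) (by norm_num) _
      (h.upd 106 (by norm_num) (by norm_num) (by norm_num) (by norm_num) z).t, update_self,
      update_of_ne (by norm_num)]
  have e2 : ∀ z : LaurentSeries (ZMod p), update V 106 z 103 = u ∧ update V 106 z 102 = V 102 ∧
      update V 106 z 106 = z := by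
    intro z
    refine ⟨?_, ?_, update_self _ _ _⟩
    · rw [update_of_ne (by norm_num), h.u]
    · rw [update_of_ne (by norm_num)]
  simp only [G2, Sat, e]
  constructor
  · rintro ⟨z, h1, h2⟩
    obtain ⟨a1, a2, a3⟩ := e2 z
    rw [a1, a2, a3] at h1
    rw [h1]
    exact h2
  · intro h1
    refine ⟨u * V 102, ?_, h1⟩
    obtain ⟨a1, a2, a3⟩ := e2 (u * V 102)
    rw [a1, a2, a3]

theorem sat_G1 (O : Set (LaurentSeries (ZMod p))) (φ : Fm) {u f₀ : LaurentSeries (ZMod p)}
    {v V : ℕ → LaurentSeries (ZMod p)} (h : Gd u f₀ v V) :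
    Sat O (G1 p φ) V ↔ ∃ w, Sat O φ (update v 0 w) ∧ (V 101 * w).coeff 0 = 0 ∧
      (f₀ * w).coeff 0 ≠ 0 ∧ (V 101 * (u * w)).coeff 0 ≠ 0 := by
  simp only [G1, Sat]
  refine exists_congr fun w => ?_
  have hw := h.upd 102 (by norm_num) (by norm_num) (by norm_num) (by norm_num) w
  rw [sat_inA O φ 102 (by norm_num) v _ hw.par, sat_lamF O 101 102 (by norm_num) (by norm_num) _
    hw.t, sat_lamF O 104 102 (by norm_num) (by norm_num) _ hw.t, sat_G2 O hw, hw.f, update_self,
    update_of_ne (by norm_num)]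

theorem sat_G0 (O : Set (LaurentSeries (ZMod p))) (φ : Fm) {u f₀ : LaurentSeries (ZMod p)}
    {v V : ℕ → LaurentSeries (ZMod p)} (h : Gd u f₀ v V) (h1 : V 105 = 1) :
    Sat O (G0 p φ) V ↔ ∃ f, (f : LaurentSeries (ZMod p)).coeff 0 = 0 ∧
      (¬ ∃ w, Sat O φ (update v 0 w) ∧ (f * w).coeff 0 = 0 ∧
        (f₀ * w).coeff 0 ≠ 0 ∧ (f * (u * w)).coeff 0 ≠ 0) ∧ (f * V 100).coeff 0 ≠ 0 := by
  simp only [G0, Sat]
  refine exists_congr fun f => ?_
  have hw := h.upd 101 (by norm_num) (by norm_num) (by norm_num) (by norm_num) f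
  rw [sat_lamF O 101 105 (by norm_num) (by norm_num) _ hw.t,
    sat_lamF O 101 100 (by norm_num) (by norm_num) _ hw.t, sat_G1 O φ hw, update_self,
    update_of_ne (show (105 : ℕ) ≠ 101 by norm_num), update_of_ne (show (100 : ℕ) ≠ 101 by norm_num),
    h1, mul_one]

theorem sat_G (O : Set (LaurentSeries (ZMod p))) (φ : Fm) {u f₀ : LaurentSeries (ZMod p)}
    {v V : ℕ → LaurentSeries (ZMod p)} (h : Gd u f₀ v V) :
    Sat O (G p φ) V ↔ V 0 ∈ DD {x | Sat O φ (update v 0 x)} u f₀ := by
  have e : ∀ y, Sat O (.ex 105 (.and (.one 105) (.neg (G0 p φ)))) (update V 100 y) ↔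
      ¬ ∃ f, (f : LaurentSeries (ZMod p)).coeff 0 = 0 ∧
      (¬ ∃ w, Sat O φ (update v 0 w) ∧ (f * w).coeff 0 = 0 ∧
        (f₀ * w).coeff 0 ≠ 0 ∧ (f * (u * w)).coeff 0 ≠ 0) ∧ (f * y).coeff 0 ≠ 0 := by
    intro y
    have hy := h.upd 100 (by norm_num) (by norm_num) (by norm_num) (by norm_num) y
    simp only [Sat]
    constructor
    · rintro ⟨z, h1, h2⟩
      rw [update_self] at h1
      have hz := hy.upd 105 (by norm_num) (by norm_num) (by norm_num) (by norm_num) z
      rw [sat_G0 O φ hz (by rw [update_self]; exact h1),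
        update_of_ne (show (100 : ℕ) ≠ 105 by norm_num), update_self] at h2
      exact h2
    · intro h2
      refine ⟨1, update_self _ _ _, ?_⟩
      have hz := hy.upd 105 (by norm_num) (by norm_num) (by norm_num) (by norm_num) 1
      rw [sat_G0 O φ hz (update_self _ _ _),
        update_of_ne (show (100 : ℕ) ≠ 105 by norm_num), update_self]
      exact h2
  have hmem : ∀ y, y ∈ DD {x | Sat O φ (update v 0 x)} u f₀ ↔ (Sat O φ (update v 0 y) ∧
      ¬ ∃ f, (f : LaurentSeries (ZMod p)).coeff 0 = 0 ∧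
      (¬ ∃ w, Sat O φ (update v 0 w) ∧ (f * w).coeff 0 = 0 ∧
        (f₀ * w).coeff 0 ≠ 0 ∧ (f * (u * w)).coeff 0 ≠ 0) ∧ (f * y).coeff 0 ≠ 0) := by
    intro y
    unfold DD
    simp only [Set.mem_setOf_eq]
    push Not
    exact Iff.rfl
  have hsat : Sat O (G p φ) V ↔ ∃ y, update V 100 y 100 = update V 100 y 0 ∧
      Sat O (inA φ 100) (update V 100 y) ∧
        Sat O (.ex 105 (.and (.one 105) (.neg (G0 p φ)))) (update V 100 y) := Iff.rfl
  rw [hsat, hmem]
  constructor
  · rintro ⟨y, h1, h2, h3⟩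
    have hy := h.upd 100 (by norm_num) (by norm_num) (by norm_num) (by norm_num) y
    rw [update_self, update_of_ne (by norm_num)] at h1
    rw [sat_inA O φ 100 (by norm_num) v _ hy.par, update_self] at h2
    rw [e] at h3
    rw [← h1]
    exact ⟨h2, h3⟩
  · rintro ⟨h2, h3⟩
    have hy := h.upd 100 (by norm_num) (by norm_num) (by norm_num) (by norm_num) (V 0)
    refine ⟨V 0, ?_, ?_, ?_⟩
    · rw [update_self, update_of_ne (by norm_num)]
    · rw [sat_inA O φ 100 (by norm_num) v _ hy.par, update_self]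
      exact h2
    · rw [e]
      exact h3

end PHIAux

open PHIAux

theorem PHI_ok : S_PHI := by
  intro p _ φ
  refine ⟨G p φ, fun O v u f₀ => ?_⟩
  refine ⟨fun j => if j = 3 then HahnSeries.single (1 : ℤ) (1 : ZMod p) else if j = 103 then u
    else if j = 104 then f₀ else v (j - 1000), ?_⟩
  have h : Gd u f₀ v (fun j => if j = 3 then HahnSeries.single (1 : ℤ) (1 : ZMod p)
      else if j = 103 then u else if j = 104 then f₀ else v (j - 1000)) :=
    { t := by simp
      u := by simp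
      f := by simp
      par := fun j => by
        have h3 : j + 1000 ≠ 3 := by omega
        have h4 : j + 1000 ≠ 103 := by omega
        have h5 : j + 1000 ≠ 104 := by omega
        simp only [if_neg h3, if_neg h4, if_neg h5]
        rw [Nat.add_sub_cancel] }
  ext x
  have hx := h.upd 0 (by norm_num) (by norm_num) (by norm_num) (by norm_num) x
  rw [Set.mem_setOf_eq, sat_G O φ hx, update_self]

end Pool.Agent.U69.FE
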