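import Pool.Agent.U69.FE.Stm3

/-!
# Project CY, package SCAT
-/

set_option autoImplicit false

namespace Pool.Agent.U69.FE

namespace SCATAux

variable {p : ℕ} [Fact p.Prime]

lemma order_eq {x w : LaurentSeries (ZMod p)} (hx : x ≠ 0) (h : Dv (x.order + 1) (x - w)) :
    w ≠ 0 ∧ w.order = x.order := by
  have h1 : ∀ k < x.order + 1, w.coeff k = x.coeff k := fun k hk => by
    have h2 := h k hk
    rw [HahnSeries.coeff_sub, sub_eq_zero] at h2
    exact h2.symm
  have h3 : w.coeff x.order ≠ 0 := by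
    rw [h1 _ (by omega)]
    exact HahnSeries.coeff_order_eq_zero.not.2 hx
  have h4 : w ≠ 0 := fun h => h3 (by rw [h, HahnSeries.coeff_zero])
  refine ⟨h4, le_antisymm (HahnSeries.order_le_of_coeff_ne_zero h3) ?_⟩
  by_contra h5
  push Not at h5
  have h6 : w.coeff w.order ≠ 0 := HahnSeries.coeff_order_eq_zero.not.2 h4
  rw [h1 _ (by omega)] at h6
  exact h6 (HahnSeries.coeff_eq_zero_of_lt_order h5)

lemma ne_zero {u : LaurentSeries (ZMod p)} (hu : u.order ≠ 0) : u ≠ 0 := fun h => by
  rw [h, HahnSeries.order_zero] at hu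
  exact hu rfl

lemma pow_inj {u : LaurentSeries (ZMod p)} (hu : u.order ≠ 0) {m n : ℕ}
    (h : (u ^ m).order = (u ^ n).order) : m = n := by
  rw [HahnSeries.order_pow, HahnSeries.order_pow, nsmul_eq_mul, nsmul_eq_mul] at h
  have := mul_right_cancel₀ hu h
  exact_mod_cast this

lemma mem_pow {u x : LaurentSeries (ZMod p)} (hu : u.order ≠ 0) (hx : x ∈ Cl u) (h0 : x ≠ 0) :
    ∃ n : ℕ, x = u ^ n := by
  obtain ⟨n, hn⟩ := hx (x.order + 1)
  refine ⟨n, ?_⟩
  have h1 := (order_eq h0 hn).2
  have h2 : ∀ M : ℤ, Dv M (x - u ^ n) := by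
    intro M
    obtain ⟨m, hm⟩ := hx (max M (x.order + 1))
    have h3 : Dv (x.order + 1) (x - u ^ m) := fun k hk => hm k (lt_of_lt_of_le hk (le_max_right _ _))
    have h4 := (order_eq h0 h3).2
    have h5 : m = n := pow_inj hu (h4.trans h1.symm)
    rw [← h5]
    exact fun k hk => hm k (lt_of_lt_of_le hk (le_max_left _ _))
  rw [← sub_eq_zero]
  ext k
  exact h2 (k + 1) k (by omega)

lemma dv_mul_single {z : LaurentSeries (ZMod p)} (hz : Dv 0 z) (k : ℤ) :
    Dv k (HahnSeries.single k (1 : ZMod p) * z) := by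
  intro j hj
  have h1 : j = (j - k) + k := by ring
  rw [h1, HahnSeries.coeff_single_mul_add, hz _ (by omega), mul_zero]

end SCATAux

open SCATAux in
/-- **package SCAT** -/
theorem SCAT_ok : S_SCAT := by
  intro p _ u hu
  have hu0 := ne_zero hu
  constructor
  · refine Set.infinite_of_injective_forall_mem (f := fun n : ℕ => u ^ n) ?_ ?_
    · intro m n h
      exact pow_inj hu (congrArg HahnSeries.order h)
    · intro n M
      refine ⟨n, ?_⟩
      rw [sub_self]
      exact fun k _ => HahnSeries.coeff_zero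
  · intro T hT hne
    by_cases h : ∃ x ∈ T, x ≠ 0
    · obtain ⟨x, hxT, hx0⟩ := h
      refine ⟨x, hxT, HahnSeries.single (x.order + 1) (1 : ZMod p), ?_, ?_⟩
      · exact HahnSeries.single_ne_zero one_ne_zero
      · rintro y hyT ⟨z, hz, rfl⟩
        have h1 : Dv (x.order + 1)
            (x - (x + HahnSeries.single (x.order + 1) (1 : ZMod p) * z)) := by
          rw [sub_add_cancel_left]
          intro k hk
          rw [HahnSeries.coeff_neg, dv_mul_single hz _ k hk, neg_zero]
        obtain ⟨h2, h3⟩ := order_eq hx0 h1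
        obtain ⟨m, hm⟩ := mem_pow hu (hT hyT) h2
        obtain ⟨n, hn⟩ := mem_pow hu (hT hxT) hx0
        rw [hm, hn]
        rw [hm] at h3
        conv_rhs at h3 => rw [hn]
        rw [pow_inj hu h3]
    · push Not at h
      obtain ⟨x, hx⟩ := hne
      refine ⟨x, hx, 1, one_ne_zero, fun y hy _ => ?_⟩
      rw [h x hx, h y hy]

end Pool.Agent.U69.FE
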