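import Pool.Agent.U69.FE.Stm4
import Pool.Agent.U69.FE.PF
set_option autoImplicit false
namespace Pool.Agent.U69.FE

open Pool.Agent.Y924.EL

namespace FORM2Aux

/-- renaming of all variables -/
def ren (σ : ℕ → ℕ) : Fm → Fm
  | .eq i j => .eq (σ i) (σ j)
  | .one i => .one (σ i)
  | .add i j k => .add (σ i) (σ j) (σ k)
  | .mul i j k => .mul (σ i) (σ j) (σ k)
  | .val i => .val (σ i)
  | .neg φ => .neg (ren σ φ)
  | .and φ ψ => .and (ren σ φ) (ren σ ψ)
  | .ex i φ => .ex (σ i) (ren σ φ)

/-- semantics of renaming -/
theorem sat_ren {K : Type*} [Add K] [Mul K] [One K] (O : Set K) {σ : ℕ → ℕ}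
    (hσ : Function.Injective σ) (φ : Fm) : ∀ v : ℕ → K, Sat O (ren σ φ) v ↔ Sat O φ (v ∘ σ) := by
  induction φ with
  | eq i j => intro v; simp [ren, Sat]
  | one i => intro v; simp [ren, Sat]
  | add i j k => intro v; simp [ren, Sat]
  | mul i j k => intro v; simp [ren, Sat]
  | val i => intro v; simp [ren, Sat]
  | neg φ ih => intro v; simp [ren, Sat, ih]
  | and φ ψ ih1 ih2 => intro v; simp [ren, Sat, ih1, ih2]
  | ex i φ ih =>
    intro v
    simp only [ren, Sat, ih]
    simp only [Function.update_comp_eq_of_injective v hσ]

/-- the renaming which frees the variables `x_2, ..., x_11` -/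
def rr (i : ℕ) : ℕ := if i = 0 then 0 else if i = 1 then 1 else i + 10

theorem rr_inj : Function.Injective rr := by
  intro i j h
  unfold rr at h
  split_ifs at h <;> omega

end FORM2Aux

open FORM2Aux in
theorem FORM2_ok : S_FORM2 := by
  intro p _ κ O φ v f hf
  obtain ⟨χ, hχ⟩ := PF_ok p (Polynomial.X ^ κ)
  obtain ⟨χ', hχ'⟩ := PF_ok p (Polynomial.X ^ (p - 1))
  have h1 : ∀ u : ℕ → LaurentSeries (ZMod p), Sat O χ u ↔ u 1 = (u 0) ^ κ := by
    intro u
    rw [hχ, map_pow, Polynomial.aeval_X]
  have h2 : ∀ u : ℕ → LaurentSeries (ZMod p), Sat O χ' u ↔ u 1 = (u 0) ^ (p - 1) := by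
    intro u
    rw [hχ', map_pow, Polynomial.aeval_X]
  refine ⟨.ex 5 (.and (.eq 5 0) (.ex 0 (.and (.neg (.add 0 0 0)) (.and
    (.ex 1 (.and (ren rr φ) χ)) (.ex 1 (.and (.eq 1 5) χ')))))), fun i => v (i - 10), ?_⟩
  ext z
  rw [Set.mem_setOf_eq, Set.mem_setOf_eq]
  obtain ⟨w, hw⟩ : ∃ w : ℕ → LaurentSeries (ZMod p), w = fun i => v (i - 10) := ⟨_, rfl⟩
  rw [← hw]
  have key : ∀ a x b : LaurentSeries (ZMod p), Sat O (ren rr φ)
      (Function.update (Function.update (Function.update (Function.update w 0 z) 5 a) 0 x) 1 b) ↔
        b = f x := by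
    intro a x b
    rw [sat_ren O rr_inj, ← hf x b]
    have : (Function.update (Function.update (Function.update (Function.update w 0 z) 5 a) 0 x)
        1 b) ∘ rr = fun i => if i = 0 then x else if i = 1 then b else v i := by
      funext i
      rw [Function.comp_apply]
      unfold rr
      by_cases h0 : i = 0
      · subst h0
        simp
      · by_cases h1 : i = 1
        · subst h1
          simp
        · rw [if_neg h0, if_neg h1, if_neg h0, if_neg h1, Function.update_of_ne (by omega),
            Function.update_of_ne (by omega), Function.update_of_ne (by omega),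
            Function.update_of_ne (by omega), hw]
          show v (i + 10 - 10) = v i
          rw [Nat.add_sub_cancel]
    rw [this]
  show (∃ a : LaurentSeries (ZMod p),
      Function.update (Function.update w 0 z) 5 a 5 = Function.update (Function.update w 0 z) 5 a 0 ∧
      ∃ x : LaurentSeries (ZMod p),
        ¬ (Function.update (Function.update (Function.update w 0 z) 5 a) 0 x 0 +
          Function.update (Function.update (Function.update w 0 z) 5 a) 0 x 0 =
          Function.update (Function.update (Function.update w 0 z) 5 a) 0 x 0) ∧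
        (∃ b : LaurentSeries (ZMod p), Sat O (ren rr φ)
          (Function.update (Function.update (Function.update (Function.update w 0 z) 5 a) 0 x)
            1 b) ∧ Sat O χ
          (Function.update (Function.update (Function.update (Function.update w 0 z) 5 a) 0 x)
            1 b)) ∧
        ∃ c : LaurentSeries (ZMod p),
          Function.update (Function.update (Function.update (Function.update w 0 z) 5 a) 0 x)
            1 c 1 =
          Function.update (Function.update (Function.update (Function.update w 0 z) 5 a) 0 x)
            1 c 5 ∧ Sat O χ'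
          (Function.update (Function.update (Function.update (Function.update w 0 z) 5 a) 0 x)
            1 c)) ↔ _
  have n50 : (5 : ℕ) ≠ 0 := by norm_num
  have n51 : (5 : ℕ) ≠ 1 := by norm_num
  have n01 : (0 : ℕ) ≠ 1 := by norm_num
  constructor
  · rintro ⟨a, ha, x, hx, ⟨b, hb1, hb2⟩, c, hc1, hc2⟩
    rw [Function.update_self, Function.update_of_ne n50.symm, Function.update_self] at ha
    rw [Function.update_self, add_eq_left] at hx
    rw [key] at hb1
    rw [h1, Function.update_self, Function.update_of_ne n01, Function.update_self] at hb2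
    rw [Function.update_self, Function.update_of_ne n51, Function.update_of_ne n50,
      Function.update_self] at hc1
    rw [h2, Function.update_self, Function.update_of_ne n01, Function.update_self] at hc2
    exact ⟨x, hx, by rw [← hb1, hb2], by rw [← ha, ← hc1, hc2]⟩
  · rintro ⟨x, hx, hfx, hz⟩
    refine ⟨z, ?_, x, ?_, ⟨f x, ?_, ?_⟩, z, ?_, ?_⟩
    · rw [Function.update_self, Function.update_of_ne n50.symm, Function.update_self]
    · rw [Function.update_self, add_eq_left]
      exact hx
    · rw [key]
    · rw [h1, Function.update_self, Function.update_of_ne n01, Function.update_self]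
      exact hfx
    · rw [Function.update_self, Function.update_of_ne n51, Function.update_of_ne n50,
        Function.update_self]
    · rw [h2, Function.update_self, Function.update_of_ne n01, Function.update_self]
      exact hz

end Pool.Agent.U69.FE
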