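import Pool.Agent.U69.FE.Stm4
import Pool.Agent.U69.FE.AsmCY2
import Pool.Agent.U69.FE.VAL
import Pool.Agent.U69.FE.FORM2

/-!
# Project AU: assembly
-/

set_option autoImplicit false

namespace Pool.Agent.U69.FE

open Pool.Agent.Y924.EL
open Pool.Agent.Results.MP_db9079_lc.UniformFiniteness
open Pool.Agent.Results.MP_db9079_lc.LocallyFiniteValues

theorem aut_order (p : ℕ) [Fact p.Prime]
    (g : LaurentSeries (ZMod p) ≃+* LaurentSeries (ZMod p)) :
    ∀ x, x ≠ 0 → (g x).order = x.order := by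
  obtain ⟨e, he, h1⟩ := VAL_ok p g.toRingHom
  have h2 := order_aut VAL_ok p g
  have h3 := h1 (tt p) (tt_ne p)
  have h6 : (g.toRingHom (tt p) : LaurentSeries (ZMod p)) = g (tt p) := rfl
  rw [h6, order_tt, h2] at h3
  have h4 : e = 1 := by
    have : (e : ℤ) = 1 := by linarith
    exact_mod_cast this
  intro x hx
  have h5 := h1 x hx
  rw [h4] at h5
  simpa using h5

theorem uu_pow_ne (p : ℕ) [Fact p.Prime] (n : ℕ) (hn : 0 < n) : (uu p) ^ n ≠ 1 := by
  intro h
  have h1 : (uu p) ^ n = HahnSeries.ofPowerSeries ℤ (ZMod p)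
      (((1 + Polynomial.X : Polynomial (ZMod p)) ^ n : Polynomial (ZMod p)) : PowerSeries (ZMod p)) := by
    rw [Polynomial.coe_pow, map_pow]
    congr 1
    rw [Polynomial.coe_add, Polynomial.coe_one, Polynomial.coe_X, map_add, map_one,
      HahnSeries.ofPowerSeries_X]
    rfl
  have h2 : (1 : LaurentSeries (ZMod p)) = HahnSeries.ofPowerSeries ℤ (ZMod p)
      ((1 : Polynomial (ZMod p)) : PowerSeries (ZMod p)) := by
    rw [Polynomial.coe_one, map_one]
  rw [h1, h2] at h
  have h3 := HahnSeries.ofPowerSeries_injective h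
  have h4 := Polynomial.coe_injective _ h3
  have h5 := congrArg Polynomial.natDegree h4
  rw [Polynomial.natDegree_pow, Polynomial.natDegree_one, add_comm,
    show (Polynomial.X + 1 : Polynomial (ZMod p)) = Polynomial.X + Polynomial.C 1 by simp,
    Polynomial.natDegree_X_add_C] at h5
  omega

open SETMAux in
theorem keyAU (hE : S_EIG) (p : ℕ) [Fact p.Prime] (κ : ℕ) (hκ : 2 ≤ κ) (hpκ : ¬ p ∣ κ)
    (g : LaurentSeries (ZMod p) ≃+* LaurentSeries (ZMod p)) (hg : g (uu p) = (uu p) ^ κ)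
    (O : Set (LaurentSeries (ZMod p))) (hO : Tame p O) (φ : Fm) (v : ℕ → LaurentSeries (ZMod p))
    (hφ : ∀ x y : Fin 1 → LaurentSeries (ZMod p), DRel p O φ 1 1 v x y ↔ y 0 = g (x 0)) :
    False := by
  have hord := aut_order p g
  have hp1 : 1 < p := (Fact.out : p.Prime).one_lt
  have huD : Dv 1 (uu p - 1) := by
    intro k hk
    have h1 : uu p - 1 = tt p := by
      unfold uu
      ring
    rw [h1]
    exact HahnSeries.coeff_eq_zero_of_lt_order (by rw [order_tt]; exact hk)
  have huD0 : Dv 0 (uu p) := by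
    have := dv_add (dv_mono (by norm_num) huD : Dv 0 (uu p - 1)) (dv_one (p := p))
    rwa [sub_add_cancel] at this
  have hu0 : uu p ≠ 0 := by
    intro h
    have h1 := uu_pow_ne p 1 one_pos
    have h2 := huD 0 one_pos
    rw [h, zero_sub, HahnSeries.coeff_neg, HahnSeries.coeff_one, if_pos rfl] at h2
    exact one_ne_zero (neg_eq_zero.1 h2)
  obtain ⟨ψ, w, hw⟩ := FORM2_ok p κ O φ v g (by
    intro a b
    rw [← hφ (fun _ => a) (fun _ => b)]
    unfold DRel
    have h1 : (fun i : ℕ => if i = 0 then a else if i = 1 then b else v i) =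
        (fun i => if h : i < 1 then (fun _ : Fin 1 => a) ⟨i, h⟩ else
          if h' : i - 1 < 1 then (fun _ : Fin 1 => b) ⟨i - 1, h'⟩ else v i) := by
      funext i
      rcases Nat.lt_or_ge i 1 with h | h
      · have : i = 0 := by omega
        subst this
        simp
      · rcases Nat.lt_or_ge i 2 with h2 | h2
        · have : i = 1 := by omega
          subst this
          simp
        · have h3 : ¬ i < 1 := by omega
          have h4 : ¬ i - 1 < 1 := by omega
          have h5 : i ≠ 0 := by omega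
          have h6 : i ≠ 1 := by omega
          simp [h3, h4, h5, h6]
    rw [h1])
  refine key2 p O hO ψ w ((uu p) ^ (p - 1)) (pow_ne_zero _ hu0) ?_ ?_ ?_
  · intro n hn
    rw [← pow_mul]
    exact uu_pow_ne p _ (Nat.mul_pos (by omega) hn)
  · intro n
    have h1 : ((uu p) ^ (p - 1)) ^ n ∈
        {z | ∃ x, x ≠ 0 ∧ g x = x ^ κ ∧ z = x ^ (p - 1)} := by
      refine ⟨(uu p) ^ n, pow_ne_zero _ hu0, ?_, ?_⟩
      · rw [map_pow, hg, ← pow_mul, ← pow_mul, mul_comm]
      · rw [← pow_mul, ← pow_mul, mul_comm]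
    rw [← hw] at h1
    exact h1
  · intro z hz
    have h1 : z ∈ {z | Sat O ψ (Function.update w 0 z)} := hz
    rw [hw] at h1
    obtain ⟨x, hx0, hx, rfl⟩ := h1
    have hxo : x.order = 0 := by
      have h2 := hord x hx0
      rw [hx, HahnSeries.order_pow, nsmul_eq_mul] at h2
      have h3 : ((κ : ℤ) - 1) * x.order = 0 := by linarith
      rcases mul_eq_zero.1 h3 with h4 | h4
      · have : (2 : ℤ) ≤ κ := by exact_mod_cast hκ
        omega
      · exact h4
    obtain ⟨c, hc⟩ : ∃ c : ZMod p, c = x.coeff 0 := ⟨_, rfl⟩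
    have hc0 : c ≠ 0 := by
      rw [hc, ← hxo]
      intro h
      exact hx0 (HahnSeries.coeff_order_eq_zero.1 h)
    have hDx : Dv 0 x := fun k hk => HahnSeries.coeff_eq_zero_of_lt_order (by rw [hxo]; exact hk)
    obtain ⟨x₁, hx₁⟩ : ∃ x₁ : LaurentSeries (ZMod p), x₁ = HahnSeries.C c⁻¹ * x := ⟨_, rfl⟩
    have hCC : (HahnSeries.C c : LaurentSeries (ZMod p)) * HahnSeries.C c⁻¹ = 1 := by
      rw [← map_mul, mul_inv_cancel₀ hc0, map_one]
    have hx' : x = HahnSeries.C c * x₁ := by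
      rw [hx₁, ← mul_assoc, hCC, one_mul]
    have hD1 : Dv 1 (x₁ - 1) := by
      intro j hj
      rw [HahnSeries.coeff_sub, hx₁, coeff_C_mul', HahnSeries.coeff_one]
      rcases lt_or_eq_of_le (show j ≤ 0 by omega) with h | h
      · rw [hDx j h, mul_zero, if_neg h.ne, sub_zero]
      · subst h
        rw [if_pos rfl, ← hc, inv_mul_cancel₀ hc0, sub_self]
    have hD0 : Dv 0 x₁ := by
      have := dv_add (dv_mono (by norm_num) hD1 : Dv 0 (x₁ - 1)) (dv_one (p := p))
      rwa [sub_add_cancel] at this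
    have hgD : ∀ (n : ℤ) (y : LaurentSeries (ZMod p)), Dv n y → Dv n (g y) := by
      intro n y hy
      by_cases hy0 : y = 0
      · rw [hy0, map_zero]
        exact dv_zero n
      · have h2 : n ≤ y.order := by
          by_contra h3
          push Not at h3
          exact hy0 (HahnSeries.coeff_order_eq_zero.1 (hy _ h3))
        intro k hk
        exact HahnSeries.coeff_eq_zero_of_lt_order (by rw [hord y hy0]; omega)
    have hgC : ∀ d : ZMod p, g (HahnSeries.C d) = HahnSeries.C d := by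
      intro d
      have h2 : (g.toRingHom.comp (HahnSeries.C : ZMod p →+* LaurentSeries (ZMod p))) =
          HahnSeries.C := RingHom.ext_zmod _ _
      exact congrArg (fun r : ZMod p →+* LaurentSeries (ZMod p) => r d) h2
    have hgx : g x₁ = HahnSeries.C (c⁻¹ * c ^ κ) * x₁ ^ κ := by
      rw [hx₁, map_mul, hgC, hx, ← hx₁, hx', mul_pow, ← map_pow, ← mul_assoc, ← map_mul]
    have hcκ : c⁻¹ * c ^ κ = 1 := by
      have h2 := hgD 1 _ hD1 0 one_pos
      rw [map_sub, map_one, HahnSeries.coeff_sub, hgx, coeff_C_mul'] at h2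
      have h3 := pow_sub_one hD1 κ 0 one_pos
      rw [HahnSeries.coeff_sub, sub_eq_zero] at h3
      rw [h3, HahnSeries.coeff_one, if_pos rfl, mul_one, sub_eq_zero] at h2
      exact h2
    have hgx' : g x₁ = x₁ ^ κ := by rw [hgx, hcκ, map_one, one_mul]
    intro M
    obtain ⟨n, hn⟩ := hE p κ hκ hpκ g hord hg x₁ hD1 hgx' M
    refine ⟨n, ?_⟩
    have h2 : x ^ (p - 1) = x₁ ^ (p - 1) := by
      rw [hx', mul_pow, ← map_pow, ZMod.pow_card_sub_one_eq_one hc0, map_one, one_mul]
    rw [h2, ← pow_mul, mul_comm (p - 1) n, pow_mul]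
    have h3 : ∀ k : ℕ, Dv M (x₁ ^ k - ((uu p) ^ n) ^ k) := by
      intro k
      induction k with
      | zero => rw [pow_zero, pow_zero, sub_self]; exact dv_zero M
      | succ k ih =>
        have h4 : x₁ ^ (k + 1) - ((uu p) ^ n) ^ (k + 1) =
            (x₁ ^ k - ((uu p) ^ n) ^ k) * x₁ + ((uu p) ^ n) ^ k * (x₁ - (uu p) ^ n) := by ring
        rw [h4]
        have h5 := dv_mul ih hD0
        have h6 := dv_mul (dv_pow (dv_pow huD0 n) k) hn
        rw [add_zero] at h5
        rw [zero_add] at h6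
        exact dv_add h5 h6
    exact h3 (p - 1)

theorem finalAU (hE : S_EIG) (p : ℕ) [Fact p.Prime] (κ : ℕ) (hκ : 2 ≤ κ) (hpκ : ¬ p ∣ κ)
    (g : LaurentSeries (ZMod p) ≃+* LaurentSeries (ZMod p)) (hg : g (uu p) = (uu p) ^ κ) :
    (∀ O : Set (LaurentSeries (ZMod p)), REPred (InTh p O) ∨ ¬ Arith p O →
      ∀ (φ : Fm) (v : ℕ → LaurentSeries (ZMod p)),
        ¬ ∀ x y : Fin 1 → LaurentSeries (ZMod p), DRel p O φ 1 1 v x y ↔ y 0 = g (x 0)) ∧
    Arith p (Codes p (Graph g)) ∧ ¬ REPred (InTh p (Codes p (Graph g))) := by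
  have h1 : ¬ Tame p (Codes p (Graph g)) := by
    intro hT
    refine keyAU hE p κ hκ hpκ g hg _ hT (Pool.Agent.R794.FP.relF p (1 + 1))
      (fun _ => HahnSeries.single (1 : ℤ) (1 : ZMod p)) ?_
    have h2 : DRel p (Codes p (Graph g)) (Pool.Agent.R794.FP.relF p (1 + 1)) 1 1
        (fun _ => HahnSeries.single (1 : ℤ) (1 : ZMod p)) = Graph g := by
      rw [codes_eq]
      exact Pool.Agent.R794.FP.rel_cdSet _ _ rfl
    intro x y
    rw [h2]
    rfl
  refine ⟨fun O hO φ v hφ => keyAU hE p κ hκ hpκ g hg O ?_ φ v hφ,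
    (dichotomy p _).resolve_left h1, fun h => h1 (tame p _ h)⟩
  rcases hO with h | h
  · exact tame p O h
  · exact (dichotomy p O).resolve_right h

end Pool.Agent.U69.FE
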