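import Pool.Agent.U69.FE.Stm3
import Pool.Agent.U69.FE.Asm

/-!
# Project CY: assembly
-/

set_option autoImplicit false

namespace Pool.Agent.U69.FE

open Pool.Agent.Y924.EL
open Pool.Agent.Results.MP_db9079_lc.UniformFiniteness
open Pool.Agent.Results.MP_db9079_lc.LocallyFiniteValues

theorem keyCY (hS : S_SETM) (hP : S_PHI) (hC : S_SCAT) (p : ℕ) [Fact p.Prime]
    (O : Set (LaurentSeries (ZMod p))) (hO : Tame p O) (φ : Fm) (v : ℕ → LaurentSeries (ZMod p))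
    (u : LaurentSeries (ZMod p)) (hu : u ≠ 0) (hinf : ∀ n : ℕ, 0 < n → u ^ n ≠ 1) :
    Dfn p O φ v ≠ Cl u := by
  intro h
  by_cases h0 : u.order = 0
  · obtain ⟨ψ, hψ⟩ := hP p φ
    obtain ⟨N, hN⟩ := hO.1 ψ
    obtain ⟨f₀, hf, hk⟩ := hS p u hu h0 hinf N
    obtain ⟨w, hw⟩ := hψ O v u f₀
    have h1 : Dfn p O ψ w = DD (Cl u) u f₀ := by
      rw [← h]
      exact hw
    have h2 := hN w
    rw [h1] at h2
    have h3 := h2 hf
    omega
  · obtain ⟨h1, h2⟩ := hC p u h0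
    have h3 : Scattered p (Dfn p O φ v) := by
      rw [h]
      intro T hT hne
      obtain ⟨x, hx, b, hb, h4⟩ := h2 T hT hne
      refine ⟨x, hx, b, hb, fun y hy hz => ?_⟩
      obtain ⟨z, hz, h5⟩ := hz
      exact h4 y hy ⟨z, dv_of_valRing hz, h5⟩
    have h4 := hO.2 φ v h3
    rw [h] at h4
    exact h1 h4

theorem finalCY (hS : S_SETM) (hP : S_PHI) (hC : S_SCAT) (p : ℕ) [Fact p.Prime]
    (u : LaurentSeries (ZMod p)) (hu : u ≠ 0) (hinf : ∀ n : ℕ, 0 < n → u ^ n ≠ 1) :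
    (∀ O : Set (LaurentSeries (ZMod p)), REPred (InTh p O) ∨ ¬ Arith p O →
      ∀ (φ : Fm) (v : ℕ → LaurentSeries (ZMod p)), Dfn p O φ v ≠ Cl u) ∧
    Arith p (Cl u) ∧ ¬ REPred (InTh p (Cl u)) := by
  have h1 : ¬ Tame p (Cl u) := by
    intro hT
    refine keyCY hS hP hC p _ hT (.val 0) 0 u hu hinf ?_
    ext x
    simp [Dfn, Sat]
  refine ⟨fun O hO φ v => keyCY hS hP hC p O ?_ φ v u hu hinf,
    (dichotomy p _).resolve_left h1, fun h => h1 (tame p _ h)⟩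
  rcases hO with h | h
  · exact tame p O h
  · exact (dichotomy p O).resolve_right h

end Pool.Agent.U69.FE
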