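import Pool.Agent.U69.FE.Stm3

/-!
# Project CY (helper69), package SETM (helper7)
-/

set_option autoImplicit false

namespace Pool.Agent.U69.FE

namespace SETMAux

variable {p : ℕ} [Fact p.Prime]


theorem dv_mono {m n : ℤ} {x : LaurentSeries (ZMod p)} (h : m ≤ n) (hx : Dv n x) : Dv m x :=
  fun k hk => hx k (hk.trans_le h)

theorem dv_add {n : ℤ} {x y : LaurentSeries (ZMod p)} (hx : Dv n x) (hy : Dv n y) : Dv n (x + y) := fun k hk => by
  rw [HahnSeries.coeff_add, hx k hk, hy k hk, add_zero]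

theorem dv_sub {n : ℤ} {x y : LaurentSeries (ZMod p)} (hx : Dv n x) (hy : Dv n y) : Dv n (x - y) := fun k hk => by
  rw [HahnSeries.coeff_sub, hx k hk, hy k hk, sub_zero]

theorem dv_zero (n : ℤ) : Dv n (0 : LaurentSeries (ZMod p)) := fun _ _ => rfl

theorem dv_mul {m n : ℤ} {a b : LaurentSeries (ZMod p)} (ha : Dv m a) (hb : Dv n b) : Dv (m + n) (a * b) := by
  intro k hk
  rw [HahnSeries.coeff_mul]
  refine Finset.sum_eq_zero fun ij hij => ?_
  rw [Finset.mem_antidiagonal] at hij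
  obtain ⟨-, -, h1⟩ := hij
  by_cases h : ij.1 < m
  · rw [ha _ h, zero_mul]
  · rw [hb ij.2 (by omega), mul_zero]

theorem dv_C (c : ZMod p) : Dv 0 (HahnSeries.C c : LaurentSeries (ZMod p)) := fun _ hk =>
  HahnSeries.coeff_single_of_ne hk.ne

theorem dv_one : Dv 0 (1 : LaurentSeries (ZMod p)) := by
  have := dv_C (p := p) 1
  rwa [map_one] at this

theorem dv_pow {a : LaurentSeries (ZMod p)} (ha : Dv 0 a) (n : ℕ) : Dv 0 (a ^ n) := by
  induction n with
  | zero => rw [pow_zero]; exact dv_one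
  | succ n ih =>
    rw [pow_succ]
    have := dv_mul ih ha
    rwa [add_zero] at this

theorem dv_pow_one {a : LaurentSeries (ZMod p)} (ha : Dv 1 a) (n : ℕ) : Dv (n : ℤ) (a ^ n) := by
  induction n with
  | zero => rw [pow_zero]; exact dv_one
  | succ n ih =>
    rw [pow_succ]
    have := dv_mul ih ha
    push_cast
    exact this

theorem coeff_C_mul' (c : ZMod p) (x : LaurentSeries (ZMod p)) (k : ℤ) :
    (HahnSeries.C c * x).coeff k = c * x.coeff k := by
  rw [HahnSeries.C_mul_eq_smul, HahnSeries.coeff_smul, smul_eq_mul]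

/-- the powers of a one-unit are one-units -/
theorem pow_sub_one {a : LaurentSeries (ZMod p)} (ha : Dv 1 (a - 1)) (n : ℕ) : Dv 1 (a ^ n - 1) := by
  have h0 : Dv 0 a := by
    have := dv_add (dv_mono (by norm_num) ha : Dv 0 (a - 1)) (dv_one (p := p))
    rwa [sub_add_cancel] at this
  induction n with
  | zero => rw [pow_zero, sub_self]; exact dv_zero 1
  | succ n ih =>
    have e : a ^ (n + 1) - 1 = (a ^ n - 1) * a + (a - 1) := by rw [pow_succ]; ring
    rw [e]
    have := dv_mul ih h0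
    rw [add_zero] at this
    exact dv_add this ha

/-- continuity of `z ↦ (f z).coeff 0` -/
theorem near (f : LaurentSeries (ZMod p)) : ∃ M : ℤ, ∀ z : LaurentSeries (ZMod p), Dv M z → (f * z).coeff 0 = 0 := by
  obtain ⟨L, hL⟩ : ∃ L : ℤ, Dv L f := by
    by_cases h : f = 0
    · exact ⟨0, by rw [h]; exact dv_zero 0⟩
    · exact ⟨f.order, fun k hk => HahnSeries.coeff_eq_zero_of_lt_order hk⟩
  refine ⟨1 - L, fun z hz => ?_⟩
  have := dv_mul hL hz
  exact this 0 (by omega)

theorem exists_not_dv {x : LaurentSeries (ZMod p)} (hx : x ≠ 0) : ∃ N : ℕ, ∀ N' : ℕ, N ≤ N' → ¬ Dv (N' : ℤ) x := by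
  refine ⟨x.order.toNat + 1, fun N' hN' h => ?_⟩
  exact hx (HahnSeries.coeff_order_eq_zero.1 (h _ (by omega)))

end SETMAux

open SETMAux in
/-- **SETM** -/
theorem SETM_ok (hF : S_FUN) : S_SETM := by
  classical
  intro p hpF u hu0 hord hu k
  have hp : p.Prime := hpF.out
  have hp1 : 1 < p := hp.one_lt
  have hchar : CharP (LaurentSeries (ZMod p)) p :=
    charP_of_injective_ringHom (f := (HahnSeries.C : ZMod p →+* HahnSeries ℤ (ZMod p)))
      HahnSeries.C_injective p
  -- `u = c u_1`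
  obtain ⟨c, hc⟩ : ∃ c : ZMod p, c = u.coeff 0 := ⟨_, rfl⟩
  have hc0 : c ≠ 0 := by
    rw [hc, ← hord]
    intro h
    exact hu0 (HahnSeries.coeff_order_eq_zero.1 h)
  have hDu : Dv 0 u := fun k hk => HahnSeries.coeff_eq_zero_of_lt_order (by rw [hord]; exact hk)
  obtain ⟨u₁, hu₁⟩ : ∃ u₁ : LaurentSeries (ZMod p), u₁ = HahnSeries.C c⁻¹ * u := ⟨_, rfl⟩
  have hCC : (HahnSeries.C c : LaurentSeries (ZMod p)) * HahnSeries.C c⁻¹ = 1 := by
    rw [← map_mul, mul_inv_cancel₀ hc0, map_one]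
  have hu' : u = HahnSeries.C c * u₁ := by
    rw [hu₁, ← mul_assoc, hCC, one_mul]
  have hD1 : Dv 1 (u₁ - 1) := by
    intro j hj
    rw [HahnSeries.coeff_sub, hu₁, coeff_C_mul', HahnSeries.coeff_one]
    rcases lt_or_eq_of_le (show j ≤ 0 by omega) with h | h
    · rw [hDu j h, mul_zero, if_neg h.ne, sub_zero]
    · subst h
      rw [if_pos rfl, ← hc, inv_mul_cancel₀ hc0, sub_self]
  have hD0 : Dv 0 u₁ := by
    have := dv_add (dv_mono (by norm_num) hD1 : Dv 0 (u₁ - 1)) (dv_one (p := p))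
    rwa [sub_add_cancel] at this
  have hne1 : u₁ ≠ 1 := by
    intro h
    refine hu (p - 1) (by omega) ?_
    rw [hu', h, mul_one, ← map_pow, ZMod.pow_card_sub_one_eq_one hc0, map_one]
  -- the functions
  have hfun : ∀ (m : ℕ) (φ : ℕ → ZMod p), (∀ n, φ (n + p ^ m) = φ n) →
      ∃ f : LaurentSeries (ZMod p), ∀ n : ℕ, (f * u ^ n).coeff 0 = c ^ n * φ n := by
    intro m φ hφ
    obtain ⟨f, hf⟩ := hF p u₁ hne1 hD1 m φ hφ
    refine ⟨f, fun n => ?_⟩
    rw [hu', mul_pow, ← map_pow, mul_left_comm, coeff_C_mul', hf]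
  have hcn : ∀ n : ℕ, c ^ n ≠ 0 := fun n => pow_ne_zero n hc0
  -- `f₀`
  set q₀ := p ^ (k + 1) with hq₀
  have hkq₀ : k < q₀ := (Nat.lt_succ_self k).trans (Nat.lt_pow_self hp1)
  obtain ⟨f₀, hf₀⟩ := hfun (k + 1) (fun n => if n % q₀ = k then 0 else 1) (fun n => by
    simp only [← hq₀, Nat.add_mod_right])
  refine ⟨f₀, ?_⟩
  have hpowCl : ∀ n : ℕ, u ^ n ∈ Cl u := fun n M => ⟨n, by rw [sub_self]; exact dv_zero M⟩
  -- (A)
  have hA : ∀ i : ℕ, i ≤ k → u ^ i ∈ DD (Cl u) u f₀ := by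
    intro i hi
    refine ⟨hpowCl i, fun f hf hw => ?_⟩
    induction i with
    | zero => rw [pow_zero, mul_one]; exact hf
    | succ i ih =>
      have h1 := ih (by omega)
      have h2 : (f₀ * u ^ i).coeff 0 ≠ 0 := by
        rw [hf₀, Nat.mod_eq_of_lt (by omega), if_neg (by omega), mul_one]
        exact hcn i
      have h3 := hw (u ^ i) (hpowCl i) h1 h2
      rwa [← pow_succ'] at h3
  have hinj : ∀ i j : ℕ, i < j → u ^ i ≠ u ^ j := by
    intro i j hij h
    refine hu (j - i) (by omega) ?_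
    have h1 : u ^ i * u ^ (j - i) = u ^ i * 1 := by
      rw [← pow_add, mul_one, h]; congr 1; omega
    exact mul_left_cancel₀ (pow_ne_zero i hu0) h1
  -- (B)
  have hB : DD (Cl u) u f₀ ⊆ Set.range (fun x : ZMod p × Fin (k + 1) =>
      HahnSeries.C x.1 * u₁ ^ (x.2 : ℕ)) := by
    intro y hy
    by_contra hnot
    have hne : ∀ x : ZMod p × Fin (k + 1), y - HahnSeries.C x.1 * u₁ ^ (x.2 : ℕ) ≠ 0 := by
      intro x hx
      exact hnot ⟨x, (sub_eq_zero.1 hx).symm⟩
    choose Nf hNf using fun x => exists_not_dv (hne x)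
    obtain ⟨N, hN⟩ : ∃ N : ℕ, ∀ x, Nf x ≤ N :=
      ⟨∑ x, Nf x, fun x => Finset.single_le_sum (f := Nf) (fun _ _ => Nat.zero_le _)
        (Finset.mem_univ x)⟩
    set m := (k + 1) + N with hm
    set q := p ^ m with hq
    have hqN : N ≤ q := by
      have h1 : m < p ^ m := Nat.lt_pow_self hp1
      omega
    have hdvd : q₀ ∣ q := pow_dvd_pow p (by omega)
    have hkq : k < q := lt_of_lt_of_le hkq₀ (Nat.le_of_dvd (pow_pos hp.pos m) hdvd)
    obtain ⟨f, hf⟩ := hfun m (fun n => if n % q ≤ k then 0 else 1) (fun n => by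
      simp only [← hq, Nat.add_mod_right])
    obtain ⟨M1, hM1⟩ := near f
    obtain ⟨M2, hM2⟩ := near f₀
    have hclose : ∀ (g w z : LaurentSeries (ZMod p)), (g * (w - z)).coeff 0 = 0 →
        (g * w).coeff 0 = (g * z).coeff 0 := by
      intro g w z h
      rw [mul_sub, HahnSeries.coeff_sub, sub_eq_zero] at h
      exact h
    have hzero : f.coeff 0 = 0 := by
      have := hf 0
      rw [pow_zero, mul_one, pow_zero, one_mul, Nat.zero_mod, if_pos (Nat.zero_le k)] at this
      exact this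
    have hcond : ∀ w ∈ Cl u, (f * w).coeff 0 = 0 → (f₀ * w).coeff 0 ≠ 0 →
        (f * (u * w)).coeff 0 = 0 := by
      intro w hw h1 h2
      obtain ⟨n, hn⟩ := hw (max M1 M2)
      have e1 := hclose f w (u ^ n) (hM1 _ (dv_mono (le_max_left _ _) hn))
      have e2 := hclose f₀ w (u ^ n) (hM2 _ (dv_mono (le_max_right _ _) hn))
      have e3 : (f * (u * w)).coeff 0 = (f * (u * u ^ n)).coeff 0 := by
        refine hclose f (u * w) (u * u ^ n) (hM1 _ ?_)
        rw [← mul_sub]
        have := dv_mul hDu (dv_mono (le_max_left M1 M2) hn)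
        rwa [zero_add] at this
      rw [e1, hf] at h1
      rw [e2, hf₀] at h2
      rw [e3, ← pow_succ', hf]
      have h3 : n % q ≤ k := by
        by_contra h
        rw [if_neg h, mul_one] at h1
        exact hcn n h1
      have h4 : n % q₀ ≠ k := by
        intro h
        rw [if_pos h, mul_zero] at h2
        exact h2 rfl
      have h5 : n % q ≠ k := by
        intro h
        apply h4
        rw [← Nat.mod_mod_of_dvd n hdvd, h, Nat.mod_eq_of_lt hkq₀]
      have h6 : (n + 1) % q ≤ k := by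
        rw [Nat.add_mod]
        have h7 : 1 % q ≤ 1 := Nat.mod_le 1 q
        have h8 := Nat.mod_le (n % q + 1 % q) q
        omega
      rw [if_pos h6, mul_zero]
    have hfy := hy.2 f hzero hcond
    obtain ⟨n, hn⟩ := hy.1 (max M1 N)
    have e1 := hclose f y (u ^ n) (hM1 _ (dv_mono (le_max_left _ _) hn))
    rw [e1, hf] at hfy
    have h3 : n % q ≤ k := by
      by_contra h
      rw [if_neg h, mul_one] at hfy
      exact hcn n hfy
    set i := n % q with hi
    set l := n / q with hl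
    have hnil : n = i + l * q := by
      rw [hi, hl, mul_comm]; exact (Nat.mod_add_div n q).symm
    refine hNf (c ^ n, ⟨i, by omega⟩) N (hN _) ?_
    have h4 : u ^ n - HahnSeries.C (c ^ n) * u₁ ^ i =
        (HahnSeries.C (c ^ n) * u₁ ^ i) * (u₁ ^ l - 1) ^ q := by
      have h5 : (u₁ ^ l - 1) ^ q = (u₁ ^ l) ^ q - 1 := by
        rw [hq, sub_pow_char_pow, one_pow]
      have h6 : u ^ n = HahnSeries.C (c ^ n) * u₁ ^ n := by
        rw [hu', mul_pow, ← map_pow]
      have h7 : u₁ ^ n = u₁ ^ i * (u₁ ^ l) ^ q := by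
        rw [← pow_mul, ← pow_add, ← hnil]
      rw [h5, h6, h7]
      ring
    have h8 : y - HahnSeries.C (c ^ n) * u₁ ^ i =
        (y - u ^ n) + (u ^ n - HahnSeries.C (c ^ n) * u₁ ^ i) := by ring
    show Dv (N : ℤ) (y - HahnSeries.C (c ^ n) * u₁ ^ i)
    rw [h8]
    refine dv_add (dv_mono (le_max_right _ _) hn) ?_
    rw [h4]
    have h9 := dv_mul (dv_mul (dv_C (c ^ n)) (dv_pow hD0 i)) (dv_pow_one (pow_sub_one hD1 l) q)
    refine dv_mono ?_ h9
    push_cast
    have : (N : ℤ) ≤ q := by exact_mod_cast hqN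
    simpa using this
  have hfin : (DD (Cl u) u f₀).Finite := (Set.finite_range _).subset hB
  refine ⟨hfin, ?_⟩
  have hsub : ((Finset.range (k + 1)).image (fun i => u ^ i) : Set (LaurentSeries (ZMod p))) ⊆
      DD (Cl u) u f₀ := by
    intro x hx
    obtain ⟨i, hi, rfl⟩ := Finset.mem_image.1 (Finset.mem_coe.1 hx)
    exact hA i (by have := Finset.mem_range.1 hi; omega)
  have hcard : ((Finset.range (k + 1)).image (fun i => u ^ i)).card = k + 1 := by
    rw [Finset.card_image_of_injective, Finset.card_range]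
    intro i j hij
    by_contra hne
    rcases lt_or_gt_of_ne hne with h | h
    · exact hinj i j h hij
    · exact hinj j i h hij.symm
  rw [← hcard, ← Set.ncard_coe_finset]
  exact Set.ncard_le_ncard hsub hfin

end Pool.Agent.U69.FE

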