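import Mathlib

/-!
# Project FE (helper69): field endomorphisms of `K = F_p((t))` (MP_db9079_lc)

Let `σ` be a field endomorphism of `K` (no continuity assumed). Then `v (σ x) = e v (x)` for some
`e ≥ 1` (VAL). If `σ t` is a `p`-th power then `σ` is `x ↦ (σ' x) ^ p` (RED). If `e = 1` then `σ` is
an automorphism (SUR). Otherwise there are `x ≠ 0` in the maximal ideal and a polynomial `P` over
`F_p` with `P' ≠ 0` and `σ x = P x` (FIX); the iterates `P (P (... x))` are infinitely many isolated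
points of `{y | σ y = P y}` (INF, ISO).
-/

set_option autoImplicit false

open Polynomial

namespace Pool.Agent.U69.FE

/-- `v (x) ≥ n` -/
def Dv {p : ℕ} (n : ℤ) (x : LaurentSeries (ZMod p)) : Prop := ∀ k < n, x.coeff k = 0

/-- the element `t` -/
noncomputable def tt (p : ℕ) : LaurentSeries (ZMod p) := HahnSeries.single (1 : ℤ) (1 : ZMod p)

/-- **VAL**. Every field endomorphism multiplies the valuation by a constant. Proof. A 1-unit `u`
(`Dv 0 u`, `u.coeff 0 = 1`) is a `(p + 1)`-th power of a 1-unit (`Pool.Agent.Y675.UF.t_ROOT :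
Pool.Agent.Y924.UF.S_ROOT` gives `y ^ (p + 1) = u`; the order of `y` is `0` and `(y.coeff 0) ^ (p + 1) = 1`, so
`(y.coeff 0) ^ 2 = 1`; replace `y` by `-y` if `y.coeff 0 = -1`, `p` odd). Hence the order of `σ u` is divisible
by `(p + 1) ^ n` for all `n`, and is `0`. Let `x ≠ 0`, `Dv 1 x`, `c ∈ F_p`. Then `1 + c x` is a 1-unit, and so the
order of `σ (1 + c x) = 1 + c σ x` is `0` (`σ` fixes `F_p`: `map_natCast` or `RingHom.ext_zmod`). With `c = 1`
the order of `σ x` is not negative; it is not `0` (take `c = -1 / (σ x).coeff 0`). So the order of `σ x` is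
positive. Let `e` be the order of `σ t`. Every `x ≠ 0` is `c t ^ j u` with `j = x.order`, `c ∈ F_p` nonzero and a
1-unit `u`, so `(σ x).order = 0 + j e + 0`. -/
def S_VAL : Prop := ∀ (p : ℕ) [Fact p.Prime]
  (σ : LaurentSeries (ZMod p) →+* LaurentSeries (ZMod p)),
  ∃ e : ℕ, 1 ≤ e ∧ ∀ x, x ≠ 0 → (σ x).order = e * x.order

/-- **RED**. Proof. Every `x` is `∑_(i < p) t ^ i y_i ^ p` (sort the exponents by their residues modulo `p`;
`F_p` is perfect; see `Pool/Agent/Y15/UF/Res.lean` for such a decomposition in the starting library), so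
`σ x = (∑_(i < p) s ^ i (σ y_i)) ^ p` (`sum_pow_char`). So all `σ x` are `p`-th powers; choose the roots; the
root map is a ring homomorphism because the Frobenius of `K` is injective (`frobenius_inj`). -/
def S_RED : Prop := ∀ (p : ℕ) [Fact p.Prime]
  (σ : LaurentSeries (ZMod p) →+* LaurentSeries (ZMod p)), (∃ s, σ (tt p) = s ^ p) →
  ∃ σ' : LaurentSeries (ZMod p) →+* LaurentSeries (ZMod p), ∀ x, σ x = (σ' x) ^ p

/-- **SUR**. Proof. It is enough to treat `f` with `Dv 0 f` (multiply by a power of `s = σ t`, order `1`).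
Choose `a_0, a_1, ...` in `F_p` recursively with `Dv n (f - ∑_(i < n) a_i s ^ i)` for all `n` (the
coefficient of `s ^ n` at `n` is not `0`). Let `g = ∑ a_i t ^ i` (`PowerSeries.mk`). For each `n`:
`g = ∑_(i < n) a_i t ^ i + t ^ n h` with `Dv 0 h`, so `σ g - ∑_(i < n) a_i s ^ i = s ^ n σ h` has `Dv n`. Hence
`Dv n (f - σ g)` for all `n`, and `σ g = f`. -/
def S_SUR : Prop := ∀ (p : ℕ) [Fact p.Prime]
  (σ : LaurentSeries (ZMod p) →+* LaurentSeries (ZMod p)),
  (∀ x, x ≠ 0 → (σ x).order = x.order) → Function.Surjective σ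

/-- **CONTR**: contraction principle. Proof. `w_0 = 0`, `w_(n+1) = Φ w_n`; by induction
`Dv (M + n) (w_(n+1) - w_n)` and `Dv M w_n`. Let `w` be the series with `w.coeff k = (w_n).coeff k` for
`n = (k - M + 1).toNat` (then this holds for all larger `n`, too), so `Dv (M + n) (w - w_n)`; then
`Dv (M + n + 1) (Φ w - w_(n+1))`, hence `Φ w = w`. To build `w`: `single M 1 * (PowerSeries.mk ...)`, or
`HahnSeries.ofSuppBddBelow`. -/
def S_CONTR : Prop := ∀ (p : ℕ) [Fact p.Prime] (M : ℤ)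
  (Φ : LaurentSeries (ZMod p) → LaurentSeries (ZMod p)), (∀ w, Dv M w → Dv M (Φ w)) →
  (∀ w w' n, Dv M w → Dv M w' → Dv n (w - w') → Dv (n + 1) (Φ w - Φ w')) →
  ∃ w, Dv M w ∧ Φ w = w

/-- **TAY**: Taylor formula. Proof. Let `a = x + w'`, `h = w - w'` (so `Dv M h`, `Dv n h`); all is in the ring
`O` of power series. `P (a + h) = P a + P' a h + k h ^ 2` with `k ∈ O` and `P' a - P' x = l w'` with `l ∈ O`
(`Polynomial.binomExpansion`, `Polynomial.evalSubFactor` over `PowerSeries (ZMod p)`, or induction on `P` for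
monomials). So the difference is `l w' h + k h ^ 2`. -/
def S_TAY : Prop := ∀ (p : ℕ) [Fact p.Prime] (P : (ZMod p)[X]) (M n : ℤ)
  (x w w' : LaurentSeries (ZMod p)), 0 ≤ M → Dv 0 x → Dv M w → Dv M w' → Dv n (w - w') →
  Dv (n + M) (aeval (x + w) P - aeval (x + w') P - aeval x P.derivative * (w - w'))

/-- **FIX** (uses CONTR, TAY). Proof. `τ = σ t` has order `e ≥ 2`. As `τ` is not a `p`-th power there is a
smallest `d` with `τ.coeff d ≠ 0` and `p ∤ d` (else `τ` would be the `p`-th power of the series with the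
coefficients `τ.coeff (p k)`); `d ≥ e ≥ 2`, `δ = d - 1`. Let `P = ∑_(n < N) (τ.coeff n) X ^ n`, `N = 2 d`; then
`P' t` has order `δ` exactly and `Dv N (τ - P t)`. Let `M = d = δ + 1` and
`Φ w = (P' t)⁻¹ * (τ - P t + σ w - (P (t + w) - P t - P' t w))`. TAY (with `w' = 0`, `n = M`) gives
`Dv (2 M) (P (t + w) - P t - P' t w)`; `Dv M w → Dv (2 M) (σ w)` because `e ≥ 2`, `M ≥ 0`; `2 M - δ ≥ M`; so `Φ` maps
`Dv M` to itself. `Φ w - Φ w' = (P' t)⁻¹ (σ (w - w') - (P (t + w) - P (t + w') - P' t (w - w')))`; if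
`Dv n (w - w')` then (TAY) the last bracket has `Dv (n + M)`, and `σ (w - w')` has order
`e v (w - w') ≥ v (w - w') + max M n`, `n + M - δ = n + 1`. CONTR gives `w` with `Φ w = w`, that is
`P (t + w) = τ + σ w = σ (t + w)`. `x = t + w` has order `1` as `M ≥ 2`. `P.derivative ≠ 0` since
`d τ_d ≠ 0`. (A nonzero `z` with `Dv n z` has order `≥ n`.) -/
def S_FIX : Prop := ∀ (p : ℕ) [Fact p.Prime]
  (σ : LaurentSeries (ZMod p) →+* LaurentSeries (ZMod p)) (e : ℕ), 2 ≤ e →
  (∀ x, x ≠ 0 → (σ x).order = e * x.order) → (¬ ∃ s, σ (tt p) = s ^ p) →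
  ∃ (x : LaurentSeries (ZMod p)) (P : (ZMod p)[X]), x ≠ 0 ∧ Dv 1 x ∧ P.derivative ≠ 0 ∧
    σ x = aeval x P

/-- **ISO** (uses TAY). Proof. Let `δ = (aeval x P').order ≥ 0`, `b = t ^ (δ + 1)`. Let `y = x + w`,
`w = b z`, `σ y = P y`, and suppose `w ≠ 0`. By TAY (`M = v (w)`, `w' = 0`, `n = M`) `σ w = P (x + w) - P x` is
`P' x w + r` with `Dv (2 v (w)) r`, and `2 v (w) > δ + v (w)`, so the order of `σ w` is `δ + v (w)`; it is also
`e v (w) ≥ 2 v (w) > δ + v (w)`. Contradiction. -/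
def S_ISO : Prop := ∀ (p : ℕ) [Fact p.Prime]
  (σ : LaurentSeries (ZMod p) →+* LaurentSeries (ZMod p)) (e : ℕ), 2 ≤ e →
  (∀ x, x ≠ 0 → (σ x).order = e * x.order) → ∀ (P : (ZMod p)[X]) (x : LaurentSeries (ZMod p)),
  Dv 1 x → aeval x P.derivative ≠ 0 → σ x = aeval x P →
  ∃ b : LaurentSeries (ZMod p), b ≠ 0 ∧ ∀ y z, Dv 0 z → σ y = aeval y P → y = x + b * z → y = x

/-- **INF**. Proof. If `σ y = P y` then `σ (P y) = P (σ y) = P (P y)` (`σ` fixes `F_p`; `Polynomial.hom_eval₂`,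
`Polynomial.aeval_def`), and `P y = σ y` is not `0` and has order `e v (y)`. So the elements
`x_0 = x`, `x_(n+1) = P (x_n)` are solutions with the orders `e ^ n v (x)`, pairwise distinct, positive. Only
finitely many of them are zeros of `P.derivative` (`Polynomial.aeval`, the polynomial mapped to
`LaurentSeries` is not `0` and has finitely many roots: `Polynomial.finite_setOf_isRoot` or
`Polynomial.rootSet_finite`). -/
def S_INF : Prop := ∀ (p : ℕ) [Fact p.Prime]
  (σ : LaurentSeries (ZMod p) →+* LaurentSeries (ZMod p)) (e : ℕ), 2 ≤ e →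
  (∀ x, x ≠ 0 → (σ x).order = e * x.order) → ∀ (P : (ZMod p)[X]) (x : LaurentSeries (ZMod p)),
  P.derivative ≠ 0 → x ≠ 0 → Dv 1 x → σ x = aeval x P →
  {y : LaurentSeries (ZMod p) | Dv 1 y ∧ aeval y P.derivative ≠ 0 ∧ σ y = aeval y P}.Infinite

end Pool.Agent.U69.FE
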