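import Pool.Agent.U69.FE.Stm
import Pool.Agent.Y924.EL.Defs

/-!
# Project CY (helper69): closures of infinite cyclic groups in `K^*`, `K = F_p((t))` (MP_db9079_lc)

Let `A` be the closure of the set of the powers of a unit `u` of infinite order, `u = c u_1` with `c ∈ F_p` and a
1-unit `u_1`. The functions `n ↦ (f u_1 ^ n)_0` (constant coefficient), `f ∈ K`, are all functions from `ℕ` to `F_p`
which are periodic modulo some `p ^ m` (FUN). So `K` codes the clopen subsets of `A`, and the set of the `y ∈ A`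
which are in all clopen sets that contain `1` and are closed under multiplication by `u` except near `u ^ k`
is finite and contains `1, u, ..., u ^ k` (SETM).
-/

set_option autoImplicit false

namespace Pool.Agent.U69.FE

open Pool.Agent.Y924.EL

/-- the closure of the set of the powers of `u` -/
def Cl {p : ℕ} [Fact p.Prime] (u : LaurentSeries (ZMod p)) : Set (LaurentSeries (ZMod p)) :=
  {x | ∀ M : ℤ, ∃ n : ℕ, Dv M (x - u ^ n)}

/-- the definable sets of the proof -/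
def DD {p : ℕ} [Fact p.Prime] (A : Set (LaurentSeries (ZMod p))) (u f₀ : LaurentSeries (ZMod p)) :
    Set (LaurentSeries (ZMod p)) :=
  {y | y ∈ A ∧ ∀ f : LaurentSeries (ZMod p), f.coeff 0 = 0 →
    (∀ w ∈ A, (f * w).coeff 0 = 0 → (f₀ * w).coeff 0 ≠ 0 → (f * (u * w)).coeff 0 = 0) →
    (f * y).coeff 0 = 0}

/-- **FUN**. Proof. Let `y = u - 1`, `r = y.order ≥ 1`. Claim: for every `q ≥ 1` and `φ` there is `f` with
`Dv (-(r (q - 1))) f` and `(f u ^ i).coeff 0 = φ i` for `i < q`. Induction on `q` (`q = 1`: `f = C (φ 0)`). Step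
`q → q + 1`: look for `f = f' + a g`, `g = t ^ (-r q)` (`HahnSeries.single (-(r q)) 1`), `a ∈ F_p`, with `f'` from
the induction hypothesis for the values `φ i - a (g u ^ i).coeff 0`, `i < q`. Then `(f u ^ i).coeff 0 = φ i` for
`i < q`. Because `u ^ q = y ^ q - ∑_(i < q) binom q i (-1) ^ (q - i) u ^ i` and `(f' y ^ q).coeff 0 = 0`
(`Dv r (f' y ^ q)`, `r ≥ 1`) and `(g y ^ q).coeff 0 = α ^ q ≠ 0` (`α` the leading coefficient of `y`), the
condition for `i = q` is `a α ^ q - ∑_(i < q) binom q i (-1) ^ (q - i) φ i = φ q`; choose `a`.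
Then let `q = p ^ m`: `u ^ (n + q) - u ^ n = u ^ n (u - 1) ^ q` (characteristic `p`: `sub_pow_char_pow`), so
`(f u ^ (n + q)).coeff 0 = (f u ^ n).coeff 0`, and `(f u ^ n).coeff 0 = φ n` for all `n` by periodicity. -/
def S_FUN : Prop := ∀ (p : ℕ) [Fact p.Prime] (u : LaurentSeries (ZMod p)), u ≠ 1 → Dv 1 (u - 1) →
  ∀ (m : ℕ) (φ : ℕ → ZMod p), (∀ n, φ (n + p ^ m) = φ n) →
    ∃ f : LaurentSeries (ZMod p), ∀ n : ℕ, (f * u ^ n).coeff 0 = φ n

/-- **SETM** (uses FUN). Proof. `c = u.coeff 0 ≠ 0`, `u_1 = (C c)⁻¹ u`, a 1-unit, `u_1 ≠ 1` (else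
`u ^ (p - 1) = 1`). For a `p ^ m`-periodic `φ` FUN gives `f` with `(f u ^ n).coeff 0 = c ^ n φ n`. Choose `m₀`
with `p ^ m₀ > k` and `f₀` for `φ₀ n = if n % p ^ m₀ = k then 0 else 1`.
(A) `u ^ i ∈ DD`, `i ≤ k`: clear for `A = Cl u`; for `f` as in `DD` induction on `i` (`w = u ^ i`, `i < k`:
`(f₀ u ^ i).coeff 0 = c ^ i ≠ 0`). These are `k + 1` different elements.
(B) if `y ∈ DD` then `y = a u_1 ^ i` for some `i ≤ k`, `a ∈ F_p`, so `DD` is finite. Otherwise let `N` be greater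
than all orders of `y - a u_1 ^ i`, `m ≥ m₀` with `p ^ m ≥ N`, and `f` for
`φ n = if n % p ^ m ≤ k then 0 else 1`. For `w ∈ Cl u` choose `n` with `w` so close to `u ^ n` that
`(f w).coeff 0 = (f u ^ n).coeff 0 = c ^ n φ n`, `(f₀ w).coeff 0 = c ^ n φ₀ n`,
`(f (u w)).coeff 0 = c ^ (n + 1) φ (n + 1)`. If the first is `0` and the second is not then `n % p ^ m < k` (it is
`≤ k`, and `≠ k` because `n % p ^ m₀ ≠ k`), so `φ (n + 1) = 0`. Also `f.coeff 0 = φ 0 = 0`. Hence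
`(f y).coeff 0 = 0`. Take `n` with `y` close to `u ^ n` (also `Dv N (y - u ^ n)`): `φ n = 0`,
`i = n % p ^ m ≤ k`, `n = i + p ^ m l`, `u ^ n = c ^ n u_1 ^ i (u_1 ^ l) ^ (p ^ m)` and
`(u_1 ^ l) ^ (p ^ m) - 1 = (u_1 ^ l - 1) ^ (p ^ m)` has `Dv (p ^ m)`. So `Dv N (y - c ^ n u_1 ^ i)`, a
contradiction (`y - c ^ n u_1 ^ i ≠ 0` has order `< N`). -/
def S_SETM : Prop := ∀ (p : ℕ) [Fact p.Prime] (u : LaurentSeries (ZMod p)), u ≠ 0 → u.order = 0 →
  (∀ n : ℕ, 0 < n → u ^ n ≠ 1) → ∀ k : ℕ, ∃ f₀ : LaurentSeries (ZMod p),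
    (DD (Cl u) u f₀).Finite ∧ k + 1 ≤ (DD (Cl u) u f₀).ncard

/-- **PHI** (formula). Proof. In the starting library `Pool.Agent.N606.FP.pairF p 1` (file
`Pool/Agent/N606/FP/Def.lean`, `sat_pairF`) expresses `HH (x_3) p (x_1 x_0)`, and
`Pool.Agent.Y15.UF.t_RES : S_RES` says `HH t p z ↔ z.coeff 0 = 0`. Let
`lamF a b = .ex 0 (.ex 1 (.and (.eq 0 b) (.and (.eq 1 a) (pairF p 1))))` for `a, b ≥ 100` (careful: bind `x_0`
to the value of `x_b`, `x_1` to the value of `x_a`), so with `v 3 = t` it says `(x_a x_b).coeff 0 = 0`. `x_i ∈ A`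
is `.ex 0 (.and (.eq 0 i) (ren r φ))` with `r 0 = 0`, `r j = j + 1000` (`Pool.Agent.Y410.UF.sat_ren`). With
`x_100 = y`, `x_101 = f`, `x_102 = w`, `x_103 = u`, `x_104 = f₀` translate the definition of `DD`; the parameters
`w` are `w 3 = t`, `w 103 = u`, `w 104 = f₀`, `w (j + 1000) = v j`. -/
def S_PHI : Prop := ∀ (p : ℕ) [Fact p.Prime] (φ : Fm), ∃ ψ : Fm,
  ∀ (O : Set (LaurentSeries (ZMod p))) (v : ℕ → LaurentSeries (ZMod p))
    (u f₀ : LaurentSeries (ZMod p)), ∃ w : ℕ → LaurentSeries (ZMod p),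
      {x | Sat O ψ (Function.update w 0 x)} = DD {x | Sat O φ (Function.update v 0 x)} u f₀

/-- **SCAT**: for `u` of order `≠ 0`: `Cl u` is infinite, and every nonempty subset has an isolated point.
Proof. The orders of the `u ^ n` are `n u.order`, pairwise different; `u ^ n ∈ Cl u`. Every nonzero `x ∈ Cl u` is
some `u ^ n`: for `M > x.order` an `n` with `Dv M (x - u ^ n)` has `n u.order = x.order`, so `n` does not depend on
`M`. If `T` contains a nonzero `x` take `b = t ^ (x.order + 1)`: an element `x + b z`, `Dv 0 z`, has the same order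
as `x`, so it is not `0`, and if it is in `Cl u` it is the same power of `u`. If `T = {0}` any `b` works. -/
def S_SCAT : Prop := ∀ (p : ℕ) [Fact p.Prime] (u : LaurentSeries (ZMod p)), u.order ≠ 0 →
  (Cl u).Infinite ∧ ∀ T ⊆ Cl u, T.Nonempty → ∃ x ∈ T, ∃ b : LaurentSeries (ZMod p), b ≠ 0 ∧
    ∀ y ∈ T, (∃ z, Dv 0 z ∧ x + b * z = y) → y = x

end Pool.Agent.U69.FE
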