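import Pool.Agent.U69.FE.Stm
import Pool.Agent.Y924.EL.Defs

/-!
# Project AU (helper69): the automorphisms `1 + t ↦ (1 + t) ^ κ` of `K = F_p((t))` (MP_db9079_lc)

Let `g` be the automorphism of `K` with `g (1 + t) = (1 + t) ^ κ`, `κ ≥ 2` prime to `p`. The 1-units `x` with
`g x = x ^ κ` are the elements of the procyclic group `(1 + t) ^ (ℤ_p)` (EIG). So this group is definable in
`(K, g)`, and `(K, g)` interprets true arithmetic.
-/

set_option autoImplicit false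

namespace Pool.Agent.U69.FE

open Pool.Agent.Y924.EL

/-- the element `1 + t` -/
noncomputable def uu (p : ℕ) [Fact p.Prime] : LaurentSeries (ZMod p) := 1 + tt p

/-- **DER**. Proof. Let `E x` have the coefficients `k ↦ k * x.coeff k` (same support or smaller). `E` is
additive and `E (x y) = x E y + y E x` (coefficient at `k`: `∑_(i + j = k) (i + j) x_i y_j`, `HahnSeries.coeff_mul`
with `Finset.addAntidiagonal`; sum over a common finite set by `HahnSeries.coeff_mul_left'` /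
`coeff_mul_right'`). Let `θ x = (1 + t⁻¹) * E x`, `t⁻¹ = HahnSeries.single (-1) 1`, so
`(θ x).coeff k = k x_k + (k + 1) x_(k + 1)`. If `θ x = 0` then `(k + 1) x_(k + 1) = - k x_k`, hence by induction
`x_k = 0` for all `k` not divisible by `p` (start at a multiple of `p`), and `x` is the `p`-th power of the series
with the coefficients `x_(p k)` (`Pool.Agent.Y15.UF.coeff_pow` in `Pool/Agent/Y15/UF/Res.lean` gives the
coefficients of `w ^ p`). (Mathlib has `LaurentSeries.derivative`, but perhaps not its product rule.) -/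
def S_DER : Prop := ∀ (p : ℕ) [Fact p.Prime],
  ∃ θ : LaurentSeries (ZMod p) → LaurentSeries (ZMod p), (∀ x y, θ (x + y) = θ x + θ y) ∧
    (∀ x y, θ (x * y) = x * θ y + y * θ x) ∧ θ (uu p) = uu p ∧
    (∀ (n : ℤ) (x : LaurentSeries (ZMod p)), Dv n x → Dv (n - 1) (θ x)) ∧
    ∀ x, θ x = 0 → ∃ y, x = y ^ p

/-- **BAS**: the powers of `u = 1 + t` are a basis over the `p ^ m`-th powers. Proof. `m = 0` is trivial.
`m = 1`, existence: `x = ∑_(i < p) t ^ i y_i ^ p` (see `Pool/Agent/U69/FE/RED.lean` and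
`Pool/Agent/Y15/UF/Res.lean`), `t ^ i = (u - 1) ^ i` is an `F_p`-linear combination of `u ^ j`, `j ≤ i`, and
`c = c ^ p` for `c ∈ F_p`. Uniqueness for `m = 1`: `∑ u ^ i a_i ^ p = 0`, expand `u ^ i = (1 + t) ^ i` in powers of
`t`: `∑_j t ^ j b_j ^ p = 0` with `b_j = ∑_(i ≥ j) binom i j a_i`; the coefficients of `t ^ j b_j ^ p` are at
exponents congruent to `j` modulo `p` (`Pool.Agent.Y15.UF.coeff_pow`), so all `b_j = 0`, and the triangular
system gives `a_i = 0` from the top. Step: `x = ∑_(i < p) u ^ i b_i ^ p`, `b_i = ∑_(j < p ^ m) u ^ j a_ij ^ (p ^ m)`,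
so `x = ∑ u ^ (i + p j) a_ij ^ (p ^ (m + 1))` (every `k < p ^ (m + 1)` is `i + p j` uniquely); uniqueness in the
same way (a sum of `p`-th powers is the `p`-th power of the sum). -/
def S_BAS : Prop := ∀ (p : ℕ) [Fact p.Prime] (m : ℕ),
  (∀ x : LaurentSeries (ZMod p), ∃ a : ℕ → LaurentSeries (ZMod p),
    x = ∑ i ∈ Finset.range (p ^ m), (uu p) ^ i * (a i) ^ (p ^ m)) ∧
  ∀ a : ℕ → LaurentSeries (ZMod p),
    ∑ i ∈ Finset.range (p ^ m), (uu p) ^ i * (a i) ^ (p ^ m) = 0 → ∀ i < p ^ m, a i = 0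

/-- **GEST**. Proof. If `m = 0` the claim is `Dv n (g x - x)`, clear as `g` preserves orders. Let `m ≥ 1`.
`g t - t = u (u ^ (p ^ m b) - 1) = u (u ^ b - 1) ^ (p ^ m)` has `Dv (p ^ m)`, so `g t = t (1 + ε)` with
`Dv (p ^ m - 1) ε`, and for all integers `j`: `g (t ^ j) - t ^ j = t ^ j ((1 + ε) ^ j - 1)` has
`Dv (j + p ^ m - 1)` (also for negative `j`). `g` fixes `F_p`. Given `x` with `Dv n x` let `N = n + p ^ m` and
`x = ∑_(n ≤ j < N) c_j t ^ j + x'`, `Dv N x'`; `g x'` has `Dv N`, too, because `g` preserves orders. -/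
def S_GEST : Prop := ∀ (p : ℕ) [Fact p.Prime]
  (g : LaurentSeries (ZMod p) →+* LaurentSeries (ZMod p)),
  (∀ x, x ≠ 0 → (g x).order = x.order) → ∀ m b : ℕ, g (uu p) = (uu p) ^ (1 + p ^ m * b) →
  ∀ (n : ℤ) (x : LaurentSeries (ZMod p)), Dv n x → Dv (n + (p : ℤ) ^ m - 1) (g x - x)

/-- **FIXG** (uses DER, BAS, GEST). Proof. (1) Claim: if `g h = h` then `h = y ^ p` for some `y`. Let
`n₀ = (p - 1) p`, `κ ^ n₀ - 1 = p ^ m b` with `p ∤ b`; `m ≥ 2` (Euler: `κ ^ (p - 1) = 1 + p c`, its `p`-th power is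
`1` modulo `p ^ 2`; `κ ≥ 2`, so `κ ^ n₀ - 1 > 0`). `G = g^[n₀]`, `G u = u ^ (κ ^ n₀)`, `G h = h`.
BAS: `h = ∑_(i < p ^ m) u ^ i a_i ^ (p ^ m)`. `G (u ^ i) = u ^ i (u ^ (i b)) ^ (p ^ m)`, so by uniqueness
`u ^ (i b) G a_i = a_i` for all `i`. Let `p ∤ i` and suppose `a = a_i ≠ 0`. For `θ` of DER:
`θ (G x) = G (θ x)` for all `x` (write `x = ∑_(j < p) u ^ j c_j ^ p` by BAS for `m = 1`;
`θ (u ^ j) = j u ^ j`, `θ` kills `p`-th powers, `κ ^ n₀ = 1` in `F_p`). Let `η = θ a / a`, so `Dv (-1) η`. Apply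
`θ` to `u ^ (i b) G a = a`: `i b a + u ^ (i b) G (θ a) = θ a`, divide by `a = u ^ (i b) G a`: `i b + G η = η`. By GEST
`G η - η` has `Dv (p ^ m - 2)`, `p ^ m ≥ 4`, but it is the nonzero constant `- i b`. Contradiction. So only the
`i` divisible by `p` occur and `h` is a `p`-th power. (2) If `g h = h`, `h = y ^ p` then `(g y) ^ p = y ^ p`, `g y = y`. So if
`g h = h ≠ 0` the order of `h` is divisible by all `p ^ k`, hence `0`; apply this to `h - C (h.coeff 0)`, which is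
fixed by `g` and is `0` or has positive order. -/
def S_FIXG : Prop := ∀ (p : ℕ) [Fact p.Prime] (κ : ℕ), 2 ≤ κ → ¬ p ∣ κ →
  ∀ g : LaurentSeries (ZMod p) ≃+* LaurentSeries (ZMod p),
  (∀ x, x ≠ 0 → (g x).order = x.order) → g (uu p) = (uu p) ^ κ →
  ∀ h, g h = h → ∃ c : ZMod p, h = HahnSeries.C c

/-- **EIG** (uses DER, BAS, FIXG). Proof. Step: if `x` is a 1-unit (`Dv 1 (x - 1)`) with `g x = x ^ κ` then
`x = u ^ c y ^ p` with `c < p` and such a 1-unit `y`. With `θ` of DER: `θ (g x) = κ g (θ x)` for all `x` (BAS with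
`m = 1`: `x = ∑_(i < p) u ^ i a_i ^ p`, `g x = ∑ u ^ (κ i) (g a_i) ^ p`, `θ (u ^ i) = i u ^ i`). Also
`θ (x ^ κ) = κ x ^ (κ - 1) θ x`. As `κ ≠ 0` in `F_p`, `g (θ x) = x ^ (κ - 1) θ x`, so `h = θ x / x` has `g h = h`
and by FIXG `θ x = c x`, `c ∈ F_p`; let `c` also denote its representative `< p`. With
`x = ∑_(i < p) u ^ i a_i ^ p`: `∑ (i - c) u ^ i a_i ^ p = 0` and `i - c = (i - c) ^ p` in `F_p`, so by uniqueness
`a_i = 0` for `i ≠ c`: `x = u ^ c a_c ^ p`. `y = a_c` is a 1-unit (`y ^ p = x u ^ (-c)` is one: order `0` and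
`(y.coeff 0) ^ p = 1`), and `(g y) ^ p = x ^ κ u ^ (- κ c) = (y ^ κ) ^ p`, so `g y = y ^ κ`.
Iterating, `x = u ^ n y ^ (p ^ m)` for every `m`, with a 1-unit `y` and some `n`; `y ^ (p ^ m) - 1 = (y - 1) ^ (p ^ m)` has
`Dv (p ^ m)`. -/
def S_EIG : Prop := ∀ (p : ℕ) [Fact p.Prime] (κ : ℕ), 2 ≤ κ → ¬ p ∣ κ →
  ∀ g : LaurentSeries (ZMod p) ≃+* LaurentSeries (ZMod p),
  (∀ x, x ≠ 0 → (g x).order = x.order) → g (uu p) = (uu p) ^ κ →
  ∀ x, Dv 1 (x - 1) → g x = x ^ κ → ∀ M : ℤ, ∃ n : ℕ, Dv M (x - (uu p) ^ n)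

/-- **EXG** (existence). Proof. `s = u ^ κ - 1` (as a power series) has constant coefficient `0` and linear
coefficient `κ ≠ 0`. Substitution `f ↦ f (s)` is a ring endomorphism of `PowerSeries (ZMod p)`
(`PowerSeries.substAlgHom`, `PowerSeries.HasSubst.of_constantCoeff_zero`), it preserves the order of nonzero series
(`f = X ^ n f₁`, `f₁ (0) ≠ 0`), so it is injective and extends to the fraction field
`LaurentSeries (ZMod p)` (`IsFractionRing.lift` / `IsLocalization.lift`), and preserves orders there. It is surjective by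
`Pool.Agent.U69.FE.SUR_ok` (file `Pool/Agent/U69/FE/SUR.lean`); `RingEquiv.ofBijective`. -/
def S_EXG : Prop := ∀ (p : ℕ) [Fact p.Prime] (κ : ℕ), ¬ p ∣ κ →
  ∃ g : LaurentSeries (ZMod p) ≃+* LaurentSeries (ZMod p), g (uu p) = (uu p) ^ κ

/-- **FORM2** (formula). Proof. `ψ` says: there is `x_0'` with `x_0' ≠ 0`, `f x_0' = x_0' ^ κ`,
`z = x_0' ^ (p - 1)`. Use `Pool.Agent.U69.FE.PF_ok : S_PF` (file `Pool/Agent/U69/FE/PF.lean`) with
`Q = X ^ κ` and `Q = X ^ (p - 1)`: formulas `χ` with `Sat O χ v ↔ v 1 = (v 0) ^ κ`. Move `z` to a variable which `φ` does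
not use as a parameter: first rename with `Pool.Agent.Y410.UF.sat_ren` (`ren r φ` with
`r 0 = 0`, `r 1 = 1`, `r j = j + 10`), let `w (j + 10) = v j`, and
`ψ = .ex 5 (.and (.eq 5 0) (.ex 0 (.and (x_0 ≠ 0) (.and (.ex 1 (.and (ren r φ) χ_κ))
(.ex 1 (.and (.eq 1 5) χ_(p-1)))))))`; `x_0 ≠ 0` is `.neg (.add 0 0 0)`. -/
def S_FORM2 : Prop := ∀ (p : ℕ) [Fact p.Prime] (κ : ℕ) (O : Set (LaurentSeries (ZMod p)))
  (φ : Fm) (v : ℕ → LaurentSeries (ZMod p)) (f : LaurentSeries (ZMod p) → LaurentSeries (ZMod p)),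
  (∀ a b : LaurentSeries (ZMod p),
    Sat O φ (fun i => if i = 0 then a else if i = 1 then b else v i) ↔ b = f a) →
  ∃ (ψ : Fm) (w : ℕ → LaurentSeries (ZMod p)),
    {z | Sat O ψ (Function.update w 0 z)} = {z | ∃ x, x ≠ 0 ∧ f x = x ^ κ ∧ z = x ^ (p - 1)}

end Pool.Agent.U69.FE
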