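import Pool.Agent.U69.FE.AsmCY2

/-!
# Project CY: the closure of all integral powers of a unit is the closure of the natural powers
-/

set_option autoImplicit false

namespace Pool.Agent.U69.FE

open SETMAux in
theorem zpow_close (p : ℕ) [hpF : Fact p.Prime] (u : LaurentSeries (ZMod p)) (hu0 : u ≠ 0)
    (hord : u.order = 0) (n : ℤ) (M : ℤ) : ∃ n' : ℕ, Dv M (u ^ n - u ^ n') := by
  have hp : p.Prime := hpF.out
  have hp1 : 1 < p := hp.one_lt
  have hchar : CharP (LaurentSeries (ZMod p)) p :=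
    charP_of_injective_ringHom (f := (HahnSeries.C : ZMod p →+* HahnSeries ℤ (ZMod p)))
      HahnSeries.C_injective p
  obtain ⟨c, hc⟩ : ∃ c : ZMod p, c = u.coeff 0 := ⟨_, rfl⟩
  have hc0 : c ≠ 0 := by
    rw [hc, ← hord]
    intro h
    exact hu0 (HahnSeries.coeff_order_eq_zero.1 h)
  have hDu : Dv 0 u := fun k hk => HahnSeries.coeff_eq_zero_of_lt_order (by rw [hord]; exact hk)
  have hDi : Dv 0 u⁻¹ := by
    have h1 : (u⁻¹).order = 0 := by
      have h2 : (u * u⁻¹).order = u.order + (u⁻¹).order :=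
        HahnSeries.order_mul hu0 (inv_ne_zero hu0)
      rw [mul_inv_cancel₀ hu0, HahnSeries.order_one, hord, zero_add] at h2
      exact h2.symm
    exact fun k hk => HahnSeries.coeff_eq_zero_of_lt_order (by rw [h1]; exact hk)
  have hDz : ∀ n : ℤ, Dv 0 (u ^ n) := by
    intro n
    obtain ⟨k, rfl | rfl⟩ := n.eq_nat_or_neg
    · rw [zpow_natCast]
      exact dv_pow hDu k
    · rw [zpow_neg, zpow_natCast, ← inv_pow]
      exact dv_pow hDi k
  -- `u = c u_1`
  obtain ⟨u₁, hu₁⟩ : ∃ u₁ : LaurentSeries (ZMod p), u₁ = HahnSeries.C c⁻¹ * u := ⟨_, rfl⟩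
  have hCC : (HahnSeries.C c : LaurentSeries (ZMod p)) * HahnSeries.C c⁻¹ = 1 := by
    rw [← map_mul, mul_inv_cancel₀ hc0, map_one]
  have hu' : u = HahnSeries.C c * u₁ := by
    rw [hu₁, ← mul_assoc, hCC, one_mul]
  have hD1 : Dv 1 (u₁ - 1) := by
    intro j hj
    rw [HahnSeries.coeff_sub, hu₁, coeff_C_mul', HahnSeries.coeff_one]
    rcases lt_or_eq_of_le (show j ≤ 0 by omega) with h | h
    · rw [hDu j h, mul_zero, if_neg h.ne, sub_zero]
    · subst h
      rw [if_pos rfl, ← hc, inv_mul_cancel₀ hc0, sub_self]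
  have hup : u ^ (p - 1) = u₁ ^ (p - 1) := by
    rw [hu', mul_pow, ← map_pow, ZMod.pow_card_sub_one_eq_one hc0, map_one, one_mul]
  set m := M.toNat with hm
  have hmq : M ≤ ((p ^ m : ℕ) : ℤ) := by
    have h1 : m < p ^ m := Nat.lt_pow_self hp1
    have h2 : (m : ℤ) < ((p ^ m : ℕ) : ℤ) := by exact_mod_cast h1
    omega
  -- a multiple of `(p - 1) p ^ m`
  set j := n.natAbs with hj
  set s := (p - 1) * j * p ^ m with hs
  have hsn : 0 ≤ n + (s : ℤ) := by
    have h1 : j ≤ s := by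
      rw [hs]
      have h2 : 1 ≤ p - 1 := by omega
      have h3 : 1 ≤ p ^ m := Nat.one_le_pow _ _ hp.pos
      calc j = 1 * j * 1 := by ring
        _ ≤ (p - 1) * j * p ^ m := Nat.mul_le_mul (Nat.mul_le_mul_right j h2) h3
    omega
  refine ⟨(n + (s : ℤ)).toNat, ?_⟩
  have h1 : u ^ (n + (s : ℤ)).toNat = u ^ n * u ^ s := by
    rw [← zpow_natCast u (n + (s : ℤ)).toNat, Int.toNat_of_nonneg hsn, zpow_add₀ hu0,
      zpow_natCast]
  have h2 : u ^ s - 1 = (u₁ ^ ((p - 1) * j) - 1) ^ (p ^ m) := by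
    rw [sub_pow_char_pow, one_pow, ← pow_mul]
    congr 1
    rw [hs, mul_assoc (p - 1) j, pow_mul, hup, ← pow_mul, ← mul_assoc]
  have h3 : u ^ n - u ^ (n + (s : ℤ)).toNat = - (u ^ n * (u ^ s - 1)) := by
    rw [h1]
    ring
  rw [h3]
  intro k hk
  rw [HahnSeries.coeff_neg, neg_eq_zero]
  rw [h2]
  have h4 := dv_mul (hDz n) (dv_pow_one (pow_sub_one hD1 ((p - 1) * j)) (p ^ m))
  refine h4 k ?_
  rw [zero_add]
  exact lt_of_lt_of_le hk hmq

end Pool.Agent.U69.FE
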